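import Pool.Agent.Y927.GP.E

/-! Small and large terms of the trajectories of the values of a polynomial. -/

set_option autoImplicit false

namespace Pool.Agent.Y927.GP

open Finset Polynomial Pool.Agent.H319R2.M

variable {g : GM} {b : ℤ → ℤ} {e : ℤ → ℕ} {C : Finset (ℤ × ℕ)} {ρ : ℤ × ℕ → ℝ}

/-- the main theorem for the interval `[-X, X]` -/
theorem sym (hf : g.Fac b e) (hC : g.Cls e C ρ) {f : ℤ[X]} (hdeg : 1 ≤ f.natDegree) {κ : ℝ}
    (hκ0 : 0 ≤ κ) (hκ : -mu g C ρ ≤ κ * Real.log g.d) (hκD : κ < f.natDegree) {ε : ℝ} (hε : 0 < ε) :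
    ∃ δ K : ℝ, 0 < δ ∧ δ < 1 ∧ 0 < K ∧ ∀ X : ℝ, 1 ≤ X → ∃ Y : ℝ, 1 ≤ Y ∧ X ≤ Y ∧
      ∀ A : Finset ℤ, (∀ n ∈ A, |(n : ℝ)| ≤ X ∧ f.eval n ∈ g.SC C ∧
        ¬ Typ g (mu g C ρ) ε Y (f.eval n)) → (A.card : ℝ) ≤ K * X ^ (1 - δ) := by
  obtain ⟨δ, K, hδ0, hδ1, hK, hmain⟩ := main hf hC hdeg hκ0 hκ hκD hε
  refine ⟨δ, 3 * K, hδ0, hδ1, by positivity, fun X hX => ?_⟩
  have hXp : 0 < X := by linarith
  have hfl : (⌊X⌋₊ : ℝ) ≤ X := Nat.floor_le hXp.le
  have hfl2 : X < ⌊X⌋₊ + 1 := Nat.lt_floor_add_one X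
  set q : ℕ := ⌊X⌋₊ with hq
  have hq1 : 1 ≤ q := by rw [hq]; exact Nat.le_floor (by simpa using hX)
  have hq1r : (1 : ℝ) ≤ q := by exact_mod_cast hq1
  refine ⟨((2 * q + 1 : ℕ) : ℝ), by push_cast; linarith, by push_cast; linarith, fun A hA => ?_⟩
  have hY1 : (1 : ℝ) ≤ ((2 * q + 1 : ℕ) : ℝ) := by push_cast; linarith
  have h1 := hmain (-(q : ℤ) - 1) ((2 * q + 1 : ℕ) : ℝ) hY1 A (by
    intro n hn
    obtain ⟨h2, -, -⟩ := hA n hn
    rw [Nat.floor_natCast, mem_Ioc]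
    rw [abs_le] at h2
    have h3 : n ≤ q := by
      have : (n : ℝ) < ((q : ℤ) + 1 : ℤ) := by push_cast; linarith
      have : n < (q : ℤ) + 1 := by exact_mod_cast this
      omega
    have h4 : -(q : ℤ) ≤ n := by
      have : ((-(q : ℤ) - 1 : ℤ) : ℝ) < n := by push_cast; linarith
      have : -(q : ℤ) - 1 < n := by exact_mod_cast this
      omega
    push_cast
    omega) (fun n hn => (hA n hn).2)
  refine h1.trans ?_
  have h2 : (((2 * q + 1 : ℕ) : ℝ)) ^ (1 - δ) ≤ 3 * X ^ (1 - δ) := by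
    calc (((2 * q + 1 : ℕ) : ℝ)) ^ (1 - δ) ≤ (3 * X) ^ (1 - δ) := by
          apply Real.rpow_le_rpow (by positivity) _ (by linarith)
          push_cast; linarith
      _ = 3 ^ (1 - δ) * X ^ (1 - δ) := Real.mul_rpow (by norm_num) hXp.le
      _ ≤ 3 * X ^ (1 - δ) := by
          apply mul_le_mul_of_nonneg_right _ (by positivity)
          calc (3 : ℝ) ^ (1 - δ) ≤ 3 ^ (1 : ℝ) :=
                Real.rpow_le_rpow_of_exponent_le (by norm_num) (by linarith)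
            _ = 3 := Real.rpow_one 3
  calc K * (((2 * q + 1 : ℕ) : ℝ)) ^ (1 - δ) ≤ K * (3 * X ^ (1 - δ)) := by gcongr
    _ = 3 * K * X ^ (1 - δ) := by ring

theorem pw {C1 Y D t x : ℝ} (hC : 0 < C1) (hY : 0 < Y) (hD : 0 < D) (ht : 0 ≤ t) (hx : 0 ≤ x)
    (h : x ≤ C1 * Y ^ D) : x ^ (t / D) ≤ C1 ^ (t / D) * Y ^ t := by
  calc x ^ (t / D) ≤ (C1 * Y ^ D) ^ (t / D) := Real.rpow_le_rpow hx h (by positivity)
    _ = C1 ^ (t / D) * (Y ^ D) ^ (t / D) := Real.mul_rpow hC.le (by positivity)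
    _ = C1 ^ (t / D) * Y ^ t := by
        rw [← Real.rpow_mul hY.le]
        congr 2
        field_simp

/-- the exponentials in terms of powers of `d` -/
theorem exp_pow {d : ℕ} (hd : 2 ≤ d) {μ s : ℝ} (h : μ = s * Real.log d) (N : ℕ) :
    Real.exp (N * μ) = ((d : ℝ) ^ N) ^ s := by
  have hd0 : (0 : ℝ) < d := by exact_mod_cast (by omega : 0 < d)
  rw [← Real.rpow_natCast, ← Real.rpow_mul hd0.le, Real.rpow_def_of_pos hd0, h]
  congr 1; ring

/-- Contracting classes: the trajectories of the values come down. -/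
theorem low_main (hf : g.Fac b e) (hC : g.Cls e C ρ) {f : ℤ[X]} (hdeg : 1 ≤ f.natDegree) {κ : ℝ}
    (hκ0 : 0 < κ) (hκ : mu g C ρ = -κ * Real.log g.d) (hκD : κ < f.natDegree) {ε : ℝ} (hε : 0 < ε) :
    ∃ δ K : ℝ, 0 < δ ∧ δ < 1 ∧ 0 < K ∧ ∀ X : ℝ, 1 ≤ X → ∀ A : Finset ℤ,
      (∀ n ∈ A, |(n : ℝ)| ≤ X ∧ f.eval n ∈ g.SC C ∧ ∀ k : ℕ,
        |((f.eval n : ℤ) : ℝ)| ^ (1 - κ / f.natDegree + ε) < |((g.T^[k] (f.eval n) : ℤ) : ℝ)|) →
          (A.card : ℝ) ≤ K * X ^ (1 - δ) := by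
  classical
  have hd2 := g.two_le
  have hd1 : (1 : ℝ) < g.d := by have := g.dr; linarith
  have hd0 : (0 : ℝ) < g.d := by linarith
  set D : ℝ := (f.natDegree : ℝ) with hD
  have hD1 : 1 ≤ D := by rw [hD]; exact_mod_cast hdeg
  have hDp : 0 < D := by linarith
  set ε' : ℝ := min (ε / 2) (κ / 2) with hε'
  have hε'0 : 0 < ε' := lt_min (by positivity) (by positivity)
  have hε'2 : ε' ≤ ε / 2 := min_le_left _ _
  have hε'3 : ε' ≤ κ / 2 := min_le_right _ _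
  obtain ⟨δ, K, hδ0, hδ1, hK, hmain⟩ := sym hf hC hdeg hκ0.le (by rw [hκ]; linarith) hκD hε'0
  obtain ⟨C1, hC1, hgrow⟩ := growth_up f
  obtain ⟨C3, hC3, hfew⟩ := few_small hdeg
  have hC1p : 0 < C1 := by linarith
  set t : ℝ := κ - ε' with ht
  have ht0 : 0 ≤ t := by linarith
  set K0 : ℝ := (g.d : ℝ) ^ κ * C1 ^ (t / D) with hK0
  have hK0p : 0 < K0 := by positivity
  set F0 : ℝ := 1 + |((f.eval 0 : ℤ) : ℝ)| + K0 ^ (2 / ε) with hF0
  have hF01 : 1 ≤ F0 := by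
    have : 0 ≤ K0 ^ (2 / ε) := by positivity
    have : 0 ≤ |((f.eval 0 : ℤ) : ℝ)| := abs_nonneg _
    linarith
  refine ⟨δ, K + C3 * F0 ^ (1 / D), hδ0, hδ1, by positivity, fun X hX A hA => ?_⟩
  have hXp : 0 < X := by linarith
  have hX1 : 1 ≤ X ^ (1 - δ) := Real.one_le_rpow hX (by linarith)
  obtain ⟨Y, hY1, hXY, hcount⟩ := hmain X hX
  have hYp : 0 < Y := by linarith
  set A1 := A.filter (fun n : ℤ => |((f.eval n : ℤ) : ℝ)| < F0) with hA1
  set A2 := A.filter (fun n : ℤ => ¬ |((f.eval n : ℤ) : ℝ)| < F0) with hA2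
  have h1 : (A1.card : ℝ) ≤ C3 * F0 ^ (1 / D) := hfew F0 hF01 A1 (by
    intro n hn
    rw [hA1, mem_filter] at hn
    exact hn.2)
  have h2 : (A2.card : ℝ) ≤ K * X ^ (1 - δ) := by
    apply hcount A2
    intro n hn
    rw [hA2, mem_filter] at hn
    obtain ⟨hnA, hnF⟩ := hn
    push Not at hnF
    obtain ⟨hnX, hnS, hno⟩ := hA n hnA
    refine ⟨hnX, hnS, fun htyp => ?_⟩
    obtain ⟨N, hN1, hN2, -⟩ := scale g.d hd2 Y hY1
    have h3 := (htyp N hN1).2
    have h4 := hno N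
    set x : ℝ := |((f.eval n : ℤ) : ℝ)| with hx
    have hx1 : 1 ≤ x := by linarith
    have hxp : 0 < x := by linarith
    have hn1 : 1 ≤ |(n : ℝ)| := by
      have hne : n ≠ 0 := by
        rintro rfl
        have : 0 ≤ K0 ^ (2 / ε) := by positivity
        rw [hx] at hnF
        linarith
      have := Int.one_le_abs hne
      exact_mod_cast this
    have hxY : x ≤ C1 * Y ^ D := by
      refine (hgrow n hn1).trans ?_
      apply mul_le_mul_of_nonneg_left _ hC1p.le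
      rw [hD, Real.rpow_natCast]
      exact pow_le_pow_left₀ (abs_nonneg _) (hnX.trans hXY) _
    have h5 : Real.exp (N * mu g C ρ) ≤ (g.d : ℝ) ^ κ * Y ^ (-κ) := by
      rw [exp_pow hd2 hκ]
      have h6 : Y / g.d ≤ (g.d : ℝ) ^ N := by
        rw [div_le_iff₀ hd0]
        rw [pow_succ] at hN2; exact hN2.le
      calc ((g.d : ℝ) ^ N) ^ (-κ) ≤ (Y / g.d) ^ (-κ) :=
            Real.rpow_le_rpow_of_nonpos (by positivity) h6 (by linarith)
        _ = (g.d : ℝ) ^ κ * Y ^ (-κ) := by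
            rw [Real.div_rpow hYp.le hd0.le, Real.rpow_neg hd0.le κ, div_inv_eq_mul, mul_comm]
    have h7 := pw hC1p hYp hDp ht0 hxp.le hxY
    have h8 : Y ^ (-t) ≤ C1 ^ (t / D) * x ^ (-(t / D)) := by
      rw [Real.rpow_neg hYp.le, Real.rpow_neg hxp.le]
      rw [inv_le_iff_one_le_mul₀ (by positivity)]
      have : 1 = (x ^ (t / D))⁻¹ * x ^ (t / D) := (inv_mul_cancel₀ (by positivity)).symm
      calc (1 : ℝ) = (x ^ (t / D))⁻¹ * x ^ (t / D) := this
        _ ≤ (x ^ (t / D))⁻¹ * (C1 ^ (t / D) * Y ^ t) := by gcongr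
        _ = C1 ^ (t / D) * (x ^ (t / D))⁻¹ * Y ^ t := by ring
    have h9 : K0 ≤ x ^ (ε / 2) := by
      have h10 : K0 ^ (2 / ε) ≤ x := by
        have : 0 ≤ |((f.eval 0 : ℤ) : ℝ)| := abs_nonneg _
        linarith
      calc K0 = (K0 ^ (2 / ε)) ^ (ε / 2) := by
            rw [← Real.rpow_mul hK0p.le]
            have : 2 / ε * (ε / 2) = 1 := by field_simp
            rw [this, Real.rpow_one]
        _ ≤ x ^ (ε / 2) := Real.rpow_le_rpow (by positivity) h10 (by positivity)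
    have h11 : |((g.T^[N] (f.eval n) : ℤ) : ℝ)| ≤ x ^ (1 - κ / D + ε) := by
      calc |((g.T^[N] (f.eval n) : ℤ) : ℝ)| ≤ Y ^ ε' * Real.exp (N * mu g C ρ) * x := h3
        _ ≤ Y ^ ε' * ((g.d : ℝ) ^ κ * Y ^ (-κ)) * x := by gcongr
        _ = (g.d : ℝ) ^ κ * (Y ^ ε' * Y ^ (-κ)) * x := by ring
        _ = (g.d : ℝ) ^ κ * Y ^ (-t) * x := by
            rw [← Real.rpow_add hYp]
            congr 3
            rw [ht]; ring
        _ ≤ (g.d : ℝ) ^ κ * (C1 ^ (t / D) * x ^ (-(t / D))) * x := by gcongr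
        _ = K0 * (x ^ (-(t / D)) * x ^ (1 : ℝ)) := by rw [Real.rpow_one, hK0]; ring
        _ ≤ x ^ (ε / 2) * (x ^ (-(t / D)) * x ^ (1 : ℝ)) := by gcongr
        _ = x ^ (ε / 2 + (-(t / D) + 1)) := by rw [← Real.rpow_add hxp, ← Real.rpow_add hxp]
        _ ≤ x ^ (1 - κ / D + ε) := by
            apply Real.rpow_le_rpow_of_exponent_le hx1
            have h12 : ε' / D ≤ ε / 2 := (div_le_self hε'0.le hD1).trans hε'2
            have h13 : t / D = κ / D - ε' / D := by rw [ht]; ring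
            rw [h13]
            linarith
    linarith
  have h3 : A1.card + A2.card = A.card := Finset.card_filter_add_card_filter_not _
  have h4 : (A.card : ℝ) = A1.card + A2.card := by rw [← h3]; push_cast; rfl
  rw [h4]
  calc (A1.card : ℝ) + A2.card ≤ C3 * F0 ^ (1 / D) * X ^ (1 - δ) + K * X ^ (1 - δ) := by
        apply add_le_add _ h2
        refine h1.trans ?_
        exact le_mul_of_one_le_right (by positivity) hX1
    _ = (K + C3 * F0 ^ (1 / D)) * X ^ (1 - δ) := by ring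

/-- Expanding classes: the trajectories of the values grow. -/
theorem up_main (hf : g.Fac b e) (hC : g.Cls e C ρ) {f : ℤ[X]} (hdeg : 1 ≤ f.natDegree) {τ : ℝ}
    (hτ0 : 0 < τ) (hτ : mu g C ρ = τ * Real.log g.d) {ε : ℝ} (hε : 0 < ε) :
    ∃ δ K : ℝ, 0 < δ ∧ δ < 1 ∧ 0 < K ∧ ∀ X : ℝ, 1 ≤ X → ∀ A : Finset ℤ,
      (∀ n ∈ A, |(n : ℝ)| ≤ X ∧ f.eval n ∈ g.SC C ∧ ∀ k : ℕ,
        |((g.T^[k] (f.eval n) : ℤ) : ℝ)| < |((f.eval n : ℤ) : ℝ)| ^ (1 + τ / f.natDegree - ε)) →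
          (A.card : ℝ) ≤ K * X ^ (1 - δ) := by
  classical
  have hd2 := g.two_le
  have hd1 : (1 : ℝ) < g.d := by have := g.dr; linarith
  have hd0 : (0 : ℝ) < g.d := by linarith
  have hL : 0 < Real.log g.d := Real.log_pos hd1
  set D : ℝ := (f.natDegree : ℝ) with hD
  have hD1 : 1 ≤ D := by rw [hD]; exact_mod_cast hdeg
  have hDp : 0 < D := by linarith
  set ε' : ℝ := min (ε / 2) (τ / 2) with hε'
  have hε'0 : 0 < ε' := lt_min (by positivity) (by positivity)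
  have hε'2 : ε' ≤ ε / 2 := min_le_left _ _
  have hε'3 : ε' ≤ τ / 2 := min_le_right _ _
  have hpos : 0 < τ * Real.log g.d := by positivity
  obtain ⟨δ, K, hδ0, hδ1, hK, hmain⟩ := sym hf hC hdeg (κ := 0) le_rfl (by rw [hτ]; linarith) hDp hε'0
  obtain ⟨C1, hC1, hgrow⟩ := growth_up f
  obtain ⟨C3, hC3, hfew⟩ := few_small hdeg
  have hC1p : 0 < C1 := by linarith
  set t : ℝ := τ - ε' with ht
  have ht0 : 0 ≤ t := by linarith
  set K0 : ℝ := (g.d : ℝ) ^ τ * C1 ^ (t / D) with hK0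
  have hK0p : 0 < K0 := by positivity
  set F0 : ℝ := 1 + |((f.eval 0 : ℤ) : ℝ)| + K0 ^ (2 / ε) with hF0
  have hF01 : 1 ≤ F0 := by
    have : 0 ≤ K0 ^ (2 / ε) := by positivity
    have : 0 ≤ |((f.eval 0 : ℤ) : ℝ)| := abs_nonneg _
    linarith
  refine ⟨δ, K + C3 * F0 ^ (1 / D), hδ0, hδ1, by positivity, fun X hX A hA => ?_⟩
  have hXp : 0 < X := by linarith
  have hX1 : 1 ≤ X ^ (1 - δ) := Real.one_le_rpow hX (by linarith)
  obtain ⟨Y, hY1, hXY, hcount⟩ := hmain X hX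
  have hYp : 0 < Y := by linarith
  set A1 := A.filter (fun n : ℤ => |((f.eval n : ℤ) : ℝ)| < F0) with hA1
  set A2 := A.filter (fun n : ℤ => ¬ |((f.eval n : ℤ) : ℝ)| < F0) with hA2
  have h1 : (A1.card : ℝ) ≤ C3 * F0 ^ (1 / D) := hfew F0 hF01 A1 (by
    intro n hn
    rw [hA1, mem_filter] at hn
    exact hn.2)
  have h2 : (A2.card : ℝ) ≤ K * X ^ (1 - δ) := by
    apply hcount A2
    intro n hn
    rw [hA2, mem_filter] at hn
    obtain ⟨hnA, hnF⟩ := hn
    push Not at hnF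
    obtain ⟨hnX, hnS, hno⟩ := hA n hnA
    refine ⟨hnX, hnS, fun htyp => ?_⟩
    obtain ⟨N, hN1, hN2, -⟩ := scale g.d hd2 Y hY1
    have h3 := (htyp N hN1).1
    have h4 := hno N
    set x : ℝ := |((f.eval n : ℤ) : ℝ)| with hx
    have hx1 : 1 ≤ x := by linarith
    have hxp : 0 < x := by linarith
    have hn1 : 1 ≤ |(n : ℝ)| := by
      have hne : n ≠ 0 := by
        rintro rfl
        have : 0 ≤ K0 ^ (2 / ε) := by positivity
        rw [hx] at hnF
        linarith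
      have := Int.one_le_abs hne
      exact_mod_cast this
    have hxY : x ≤ C1 * Y ^ D := by
      refine (hgrow n hn1).trans ?_
      apply mul_le_mul_of_nonneg_left _ hC1p.le
      rw [hD, Real.rpow_natCast]
      exact pow_le_pow_left₀ (abs_nonneg _) (hnX.trans hXY) _
    have h5 : Y ^ τ / (g.d : ℝ) ^ τ ≤ Real.exp (N * mu g C ρ) := by
      rw [exp_pow hd2 hτ]
      have h6 : Y / g.d ≤ (g.d : ℝ) ^ N := by
        rw [div_le_iff₀ hd0]
        rw [pow_succ] at hN2; exact hN2.le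
      rw [← Real.div_rpow hYp.le hd0.le]
      exact Real.rpow_le_rpow (by positivity) h6 hτ0.le
    have h7 := pw hC1p hYp hDp ht0 hxp.le hxY
    have h9 : K0 ≤ x ^ (ε / 2) := by
      have h10 : K0 ^ (2 / ε) ≤ x := by
        have : 0 ≤ |((f.eval 0 : ℤ) : ℝ)| := abs_nonneg _
        linarith
      calc K0 = (K0 ^ (2 / ε)) ^ (ε / 2) := by
            rw [← Real.rpow_mul hK0p.le]
            have : 2 / ε * (ε / 2) = 1 := by field_simp
            rw [this, Real.rpow_one]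
        _ ≤ x ^ (ε / 2) := Real.rpow_le_rpow (by positivity) h10 (by positivity)
    have h11 : x ^ (1 + τ / D - ε) ≤ |((g.T^[N] (f.eval n) : ℤ) : ℝ)| := by
      have h14 : x ^ (1 + τ / D - ε) * K0 ≤ x ^ (t / D) * x := by
        calc x ^ (1 + τ / D - ε) * K0 ≤ x ^ (1 + τ / D - ε) * x ^ (ε / 2) := by gcongr
          _ = x ^ (1 + τ / D - ε + ε / 2) := by rw [← Real.rpow_add hxp]
          _ ≤ x ^ (t / D + 1) := by
              apply Real.rpow_le_rpow_of_exponent_le hx1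
              have h12 : ε' / D ≤ ε / 2 := (div_le_self hε'0.le hD1).trans hε'2
              have h13 : t / D = τ / D - ε' / D := by rw [ht]; ring
              rw [h13]
              linarith
          _ = x ^ (t / D) * x := by rw [Real.rpow_add hxp, Real.rpow_one]
      have h15 : x ^ (1 + τ / D - ε) * K0 ≤ C1 ^ (t / D) * Y ^ t * x :=
        h14.trans (mul_le_mul_of_nonneg_right h7 hxp.le)
      have h16 : x ^ (1 + τ / D - ε) * (g.d : ℝ) ^ τ ≤ Y ^ t * x := by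
        have hc0 : 0 < C1 ^ (t / D) := by positivity
        apply le_of_mul_le_mul_left _ hc0
        calc C1 ^ (t / D) * (x ^ (1 + τ / D - ε) * (g.d : ℝ) ^ τ) = x ^ (1 + τ / D - ε) * K0 := by
              rw [hK0]; ring
          _ ≤ C1 ^ (t / D) * Y ^ t * x := h15
          _ = C1 ^ (t / D) * (Y ^ t * x) := by ring
      have hd' : 0 < (g.d : ℝ) ^ τ := by positivity
      calc x ^ (1 + τ / D - ε) ≤ Y ^ t * x / (g.d : ℝ) ^ τ := by rw [le_div_iff₀ hd']; exact h16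
        _ = Y ^ (-ε') * (Y ^ τ / (g.d : ℝ) ^ τ) * x := by
            have : Y ^ t = Y ^ (-ε') * Y ^ τ := by
              rw [← Real.rpow_add hYp]; congr 1; rw [ht]; ring
            rw [this]; ring
        _ ≤ Y ^ (-ε') * Real.exp (N * mu g C ρ) * x := by gcongr
        _ ≤ _ := h3
    linarith
  have h3 : A1.card + A2.card = A.card := Finset.card_filter_add_card_filter_not _
  have h4 : (A.card : ℝ) = A1.card + A2.card := by rw [← h3]; push_cast; rfl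
  rw [h4]
  calc (A1.card : ℝ) + A2.card ≤ C3 * F0 ^ (1 / D) * X ^ (1 - δ) + K * X ^ (1 - δ) := by
        apply add_le_add _ h2
        refine h1.trans ?_
        exact le_mul_of_one_le_right (by positivity) hX1
    _ = (K + C3 * F0 ^ (1 / D)) * X ^ (1 - δ) := by ring

end Pool.Agent.Y927.GP
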