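import Mathlib

/-! Cardinalities of sets of integers in intervals. -/

set_option autoImplicit false

namespace Pool.Agent.Y927.GP

theorem ncard_sym {P : ℤ → Prop} {X K : ℝ}
    (h : ∀ A : Finset ℤ, (∀ n ∈ A, |(n : ℝ)| ≤ X ∧ P n) → (A.card : ℝ) ≤ K) :
    ({n : ℤ | |(n : ℝ)| ≤ X ∧ P n}.ncard : ℝ) ≤ K := by
  classical
  have hfin : {n : ℤ | |(n : ℝ)| ≤ X ∧ P n}.Finite := by
    apply (Set.finite_Icc (-⌈X⌉) ⌈X⌉).subset
    rintro y ⟨hy, -⟩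
    rw [abs_le] at hy
    have h1 := Int.le_ceil X
    constructor
    · have : (-(⌈X⌉ : ℝ)) ≤ y := by linarith
      exact_mod_cast this
    · have : (y : ℝ) ≤ ⌈X⌉ := by linarith
      exact_mod_cast this
  rw [Set.ncard_eq_toFinset_card _ hfin]
  apply h
  intro y hy
  rw [Set.Finite.mem_toFinset] at hy
  exact hy

theorem ncard_int {P : ℤ → Prop} {X : ℤ} {Y K : ℝ}
    (h : ∀ A : Finset ℤ, A ⊆ Finset.Ioc X (X + ⌊Y⌋₊) → (∀ n ∈ A, P n) → (A.card : ℝ) ≤ K) :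
    ({n : ℤ | X < n ∧ (n : ℝ) ≤ X + Y ∧ P n}.ncard : ℝ) ≤ K := by
  classical
  have hsub : ∀ n : ℤ, X < n → (n : ℝ) ≤ X + Y → n ∈ Finset.Ioc X (X + ⌊Y⌋₊) := by
    intro n h1 h2
    rw [Finset.mem_Ioc]
    refine ⟨h1, ?_⟩
    obtain ⟨q, hq⟩ : ∃ q : ℕ, n - X = q := ⟨(n - X).toNat, by omega⟩
    have h4 : (q : ℝ) ≤ Y := by
      have : ((n - X : ℤ) : ℝ) = q := by rw [hq]; simp
      push_cast at this
      linarith
    have h5 : q ≤ ⌊Y⌋₊ := Nat.le_floor h4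
    omega
  have hfin : {n : ℤ | X < n ∧ (n : ℝ) ≤ X + Y ∧ P n}.Finite := by
    apply (Finset.finite_toSet (Finset.Ioc X (X + ⌊Y⌋₊))).subset
    rintro n ⟨h1, h2, -⟩
    exact hsub n h1 h2
  rw [Set.ncard_eq_toFinset_card _ hfin]
  apply h
  · intro n hn
    rw [Set.Finite.mem_toFinset] at hn
    exact hsub n hn.1 hn.2.1
  · intro n hn
    rw [Set.Finite.mem_toFinset] at hn
    exact hn.2.2

end Pool.Agent.Y927.GP
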