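import Pool.Agent.H319R2.MLeigh2

/-! Large deviations of the size of the trajectories on a class of Leigh's chain. -/

set_option autoImplicit false

namespace Pool.Agent.Y927.GP

open Finset Pool.Agent.H319R2.M

variable {g : GM} {b : ℤ → ℤ} {e : ℤ → ℕ} {C : Finset (ℤ × ℕ)} {ρ : ℤ × ℕ → ℝ}

/-- contraction for a function of negative mean -/
theorem contr (hf : g.Fac b e) (hC : g.Cls e C ρ) (φ : ℤ × ℕ → ℝ)
    (hneg : ∑ B ∈ C, ρ B * φ B < 0) :
    ∃ (t θ : ℝ) (h : ℤ × ℕ → ℝ), 0 < t ∧ 0 < θ ∧ θ < 1 ∧ (∀ B ∈ C, 0 < h B) ∧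
      ∀ B ∈ C, Real.exp (t * φ B) * ∑ B' ∈ C, g.P e B B' * h B' ≤ θ * h B := by
  classical
  have hirr : ∀ x y : C, Relation.ReflTransGen (fun a b : C => 0 < g.P e a b) x y := by
    rintro ⟨x, hx⟩ ⟨y, hy⟩
    have key : ∀ y, Relation.ReflTransGen (fun X Y => 0 < g.P e X Y) x y →
        ∃ hy : y ∈ C, Relation.ReflTransGen (fun a b : C => 0 < g.P e a b) ⟨x, hx⟩ ⟨y, hy⟩ := by
      intro y h
      induction h with
      | refl => exact ⟨hx, Relation.ReflTransGen.refl⟩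
      | tail _ hbc ih =>
        obtain ⟨hb, hp⟩ := ih
        exact ⟨hC.closed _ hb _ hbc, hp.tail hbc⟩
    obtain ⟨_, h⟩ := key y (hC.irr x hx y hy)
    exact h
  have h1 : ∀ x : C, ∑ y : C, g.P e x y = 1 := by
    intro x
    rw [Finset.sum_coe_sort C (fun y => g.P e x y)]
    exact GM.sum_P_one hf C x (hC.pos x x.2) (hC.closed x x.2)
  have hρ1 : ∑ x : C, ρ x = 1 := by
    rw [Finset.sum_coe_sort C ρ]; exact hC.sum_one
  have hρ : ∀ y : C, ∑ x : C, ρ x * g.P e x y = ρ y := by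
    intro y
    rw [Finset.sum_coe_sort C (fun x => ρ x * g.P e x y)]
    exact hC.stat y y.2
  have hneg' : ∑ x : C, ρ x * φ x < 0 := by
    rw [Finset.sum_coe_sort C (fun x => ρ x * φ x)]
    exact hneg
  obtain ⟨t, θ, h, ht, hθ0, hθ1, hh, hle⟩ := Pool.Agent.H319R2.Poisson.contraction
    (fun x y : C => g.P e x y) (fun x y => GM.P_nonneg _ _) h1 hirr (fun x => ρ x) hρ1 hρ
    (fun x => φ x) hneg'
  refine ⟨t, θ, fun B => if hB : B ∈ C then h ⟨B, hB⟩ else 0, ht, hθ0, hθ1, ?_, ?_⟩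
  · intro B hB
    simp only [dif_pos hB]; exact hh _
  · intro B hB
    have h2 := hle ⟨B, hB⟩
    change Real.exp (t * φ B) * ∑ B' ∈ C, g.P e B B' * (if hB : B' ∈ C then h ⟨B', hB⟩ else 0) ≤
      θ * (if hB : B ∈ C then h ⟨B, hB⟩ else 0)
    rw [dif_pos hB]
    simp only at h2
    refine le_trans (le_of_eq ?_) h2
    congr 1
    rw [← Finset.sum_coe_sort C (fun B' => g.P e B B' *
      (if hB : B' ∈ C then h ⟨B', hB⟩ else 0))]
    apply sum_congr rfl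
    intro y _
    rw [dif_pos y.2]

/-- the logarithm of `Λ` -/
noncomputable def mu (g : GM) (C : Finset (ℤ × ℕ)) (ρ : ℤ × ℕ → ℝ) : ℝ :=
  ∑ B ∈ C, ρ B * Real.log (g.a (B.1 % g.d))

theorem U_dev (hf : g.Fac b e) (hC : g.Cls e C ρ) (σ : ℝ) {ε : ℝ} (hε : 0 < ε) :
    ∃ t K : ℝ, 0 < t ∧ 0 < K ∧ ∀ s : ℕ, ∀ B ∈ C,
      g.U (σ * t) s B ≤ K * (g.d * Real.exp (σ * t * mu g C ρ + t * ε)) ^ s := by
  classical
  have hmean : ∑ B ∈ C, ρ B * (σ * (Real.log (g.a (B.1 % g.d)) - mu g C ρ) - ε) < 0 := by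
    have e1 : ∀ B ∈ C, ρ B * (σ * (Real.log (g.a (B.1 % g.d)) - mu g C ρ) - ε) =
        σ * (ρ B * Real.log (g.a (B.1 % g.d))) - (σ * mu g C ρ + ε) * ρ B := by
      intro B _; ring
    rw [sum_congr rfl e1, sum_sub_distrib, ← mul_sum, ← mul_sum, hC.sum_one]
    unfold mu
    linarith
  obtain ⟨t, θ, h, ht, hθ0, hθ1, hh, hle⟩ := contr hf hC _ hmean
  set μ := mu g C ρ with hμ
  have hle2 : ∀ B ∈ C, g.a (B.1 % g.d) ^ (σ * t) * ∑ B' ∈ C, g.P e B B' * h B' ≤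
      Real.exp (σ * t * μ + t * ε) * h B := by
    intro B hB
    have h1 := hle B hB
    have e1 : Real.exp (t * (σ * (Real.log (g.a (B.1 % g.d)) - μ) - ε)) =
        g.a (B.1 % g.d) ^ (σ * t) * Real.exp (-(σ * t * μ + t * ε)) := by
      rw [Real.rpow_def_of_pos (g.a_pos B.1), ← Real.exp_add]
      congr 1; ring
    rw [e1] at h1
    have h2 : g.a (B.1 % g.d) ^ (σ * t) * Real.exp (-(σ * t * μ + t * ε)) *
        ∑ B' ∈ C, g.P e B B' * h B' ≤ 1 * h B :=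
      h1.trans (mul_le_mul_of_nonneg_right hθ1.le (hh B hB).le)
    have h3 := mul_le_mul_of_nonneg_left h2 (Real.exp_pos (σ * t * μ + t * ε)).le
    calc g.a (B.1 % g.d) ^ (σ * t) * ∑ B' ∈ C, g.P e B B' * h B'
        = Real.exp (σ * t * μ + t * ε) * (g.a (B.1 % g.d) ^ (σ * t) *
            Real.exp (-(σ * t * μ + t * ε)) * ∑ B' ∈ C, g.P e B B' * h B') := by
          rw [Real.exp_neg]
          field_simp
      _ ≤ Real.exp (σ * t * μ + t * ε) * (1 * h B) := h3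
      _ = Real.exp (σ * t * μ + t * ε) * h B := by rw [one_mul]
  set c : ℝ := ∑ B ∈ C, 1 / h B with hc
  have hcB : ∀ B ∈ C, 1 ≤ c * h B := by
    intro B hB
    have h1 : 1 / h B ≤ c := single_le_sum (f := fun B => 1 / h B)
      (fun B hB => (one_div_pos.2 (hh B hB)).le) hB
    have h2 := hh B hB
    rwa [div_le_iff₀ h2] at h1
  have hc0 : 0 ≤ c := sum_nonneg fun B hB => (one_div_pos.2 (hh B hB)).le
  have hs0 : 0 ≤ ∑ B ∈ C, h B := sum_nonneg fun B hB => (hh B hB).le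
  refine ⟨t, c * (∑ B ∈ C, h B) + 1, ht, by positivity, fun s B hB => ?_⟩
  have h1 := GM.U_le hf hC (t := σ * t) (θ := Real.exp (σ * t * μ + t * ε)) (Real.exp_pos _) hh hle2 c
    hcB s B hB
  refine h1.trans ?_
  have h2 : h B ≤ ∑ B ∈ C, h B := single_le_sum (f := h) (fun B hB => (hh B hB).le) hB
  have hd0 : (0 : ℝ) < g.d := by have := g.dr; linarith
  have h3 : (0 : ℝ) < (g.d * Real.exp (σ * t * μ + t * ε)) ^ s := by positivity
  have h4 : c * h B ≤ c * (∑ B ∈ C, h B) + 1 := by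
    have := mul_le_mul_of_nonneg_left h2 hc0
    linarith
  calc c * (g.d * Real.exp (σ * t * μ + t * ε)) ^ s * h B
      = c * h B * (g.d * Real.exp (σ * t * μ + t * ε)) ^ s := by ring
    _ ≤ _ := mul_le_mul_of_nonneg_right h4 h3.le

/-- the trajectory of `x` is not balanced -/
def Unb (g : GM) (μ η : ℝ) (N : ℕ) (x : ℤ) : Prop :=
  ∃ j ≤ N, η * N < |Real.log (g.prod j x) - j * μ|

theorem unb_congr (μ η : ℝ) (N : ℕ) {x y : ℤ} (h : x ≡ y [ZMOD (g.d : ℤ) ^ N]) (hx : Unb g μ η N x) :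
    Unb g μ η N y := by
  obtain ⟨j, hj, h1⟩ := hx
  refine ⟨j, hj, ?_⟩
  have h2 : x ≡ y [ZMOD (g.d : ℤ) ^ j] := h.of_dvd (pow_dvd_pow _ hj)
  rw [← g.prod_congr_mod j x y h2]
  exact h1

/-- one of the two tails at one time -/
theorem tail (hf : g.Fac b e) (hC : g.Cls e C ρ) (σ : ℝ) {η : ℝ} (hη : 0 < η) :
    ∃ c K : ℝ, 0 < c ∧ 0 < K ∧ ∀ N : ℕ, ∀ j ≤ N, ∀ B ∈ C, ∀ F : Finset ℕ, F ⊆ range (g.d ^ N) →
      (∀ z ∈ F, η * N < σ * (Real.log (g.prod j (B.1 + g.d * B.2 * z)) - j * mu g C ρ)) →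
      (F.card : ℝ) ≤ K * ((g.d : ℝ) ^ N * Real.exp (-(c * N))) := by
  classical
  obtain ⟨t, K, ht, hK, hU⟩ := U_dev hf hC σ (ε := η / 2) (by positivity)
  refine ⟨t * (η / 2), K, by positivity, hK, fun N j hj B hB F hF hz => ?_⟩
  set μ := mu g C ρ with hμ
  have hd0 : (0 : ℝ) < g.d := by have := g.dr; linarith
  set h : ℤ → ℝ := fun z => g.prod j (B.1 + g.d * B.2 * z) ^ (σ * t) with hh
  have hh0 : ∀ z, 0 ≤ h z := fun z => (Real.rpow_pos_of_pos (g.prod_pos' _ _) _).le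
  have hper : ∀ z w : ℤ, z ≡ w [ZMOD (g.d ^ j : ℕ)] → h z = h w := by
    intro z w hzw
    simp only [hh]
    rw [g.prod_congr_mod j]
    push_cast at hzw
    exact Int.ModEq.add_left _ (Int.ModEq.mul_left _ hzw)
  have hsum : ∑ z ∈ range (g.d ^ N), h z = (g.d ^ (N - j) : ℕ) * g.U (σ * t) j B := by
    have e1 : g.d ^ N = g.d ^ (N - j) * g.d ^ j := by rw [← pow_add]; congr 1; omega
    rw [e1, sum_blocks h (g.d ^ j) hper]
    rfl
  have h1 : (F.card : ℝ) * Real.exp (t * (η * N + σ * (j * μ))) ≤ ∑ z ∈ range (g.d ^ N), h z := by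
    rw [← nsmul_eq_mul, ← Finset.sum_const]
    refine le_trans (Finset.sum_le_sum (g := fun z : ℕ => h z) ?_)
      (Finset.sum_le_sum_of_subset_of_nonneg hF (fun z _ _ => hh0 z))
    intro z hzF
    simp only [hh]
    rw [Real.rpow_def_of_pos (g.prod_pos' _ _)]
    apply Real.exp_le_exp.2
    have h2 := hz z hzF
    have h3 : η * N + σ * (j * μ) ≤ σ * Real.log (g.prod j (B.1 + g.d * B.2 * z)) := by linarith
    have h4 := mul_le_mul_of_nonneg_left h3 ht.le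
    linarith
  rw [hsum] at h1
  have h2 := hU j B hB
  have h3 : ((g.d ^ (N - j) : ℕ) : ℝ) * g.U (σ * t) j B ≤
      ((g.d ^ (N - j) : ℕ) : ℝ) * (K * (g.d * Real.exp (σ * t * μ + t * (η / 2))) ^ j) :=
    mul_le_mul_of_nonneg_left h2 (by positivity)
  have h4 : ((g.d ^ (N - j) : ℕ) : ℝ) * (K * (g.d * Real.exp (σ * t * μ + t * (η / 2))) ^ j) =
      K * (g.d : ℝ) ^ N * Real.exp (j * (σ * t * μ + t * (η / 2))) := by
    rw [mul_pow, ← Real.exp_nat_mul]
    have e1 : (g.d : ℝ) ^ N = (g.d : ℝ) ^ (N - j) * (g.d : ℝ) ^ j := by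
      rw [← pow_add]; congr 1; omega
    rw [e1]
    push_cast
    ring
  rw [h4] at h3
  have h5 := h1.trans h3
  have hE : (0 : ℝ) < Real.exp (t * (η * N + σ * (j * μ))) := Real.exp_pos _
  have h6 : (F.card : ℝ) ≤ K * (g.d : ℝ) ^ N * Real.exp (j * (σ * t * μ + t * (η / 2))) /
      Real.exp (t * (η * N + σ * (j * μ))) := by
    rw [le_div_iff₀ hE]; exact h5
  refine h6.trans ?_
  rw [mul_div_assoc, ← Real.exp_sub, mul_assoc]
  apply mul_le_mul_of_nonneg_left _ hK.le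
  apply mul_le_mul_of_nonneg_left _ (by positivity)
  apply Real.exp_le_exp.2
  have hjN : (j : ℝ) ≤ N := by exact_mod_cast hj
  have h7 : t * (η / 2) * j ≤ t * (η / 2) * N := mul_le_mul_of_nonneg_left hjN (by positivity)
  have e3 : j * (σ * t * μ + t * (η / 2)) - t * (η * N + σ * (j * μ)) =
      t * (η / 2) * j - t * η * N := by ring
  rw [e3]
  have e4 : t * η * N = t * (η / 2) * N + t * (η / 2) * N := by ring
  rw [e4]
  linarith

theorem card_unb (hf : g.Fac b e) (hC : g.Cls e C ρ) {η : ℝ} (hη : 0 < η) :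
    ∃ c K : ℝ, 0 < c ∧ 0 < K ∧ ∀ N : ℕ, ∀ B ∈ C, ∀ F : Finset ℕ, F ⊆ range (g.d ^ N) →
      (∀ z ∈ F, Unb g (mu g C ρ) η N (B.1 + g.d * B.2 * z)) →
      (F.card : ℝ) ≤ K * ((N + 1) * ((g.d : ℝ) ^ N * Real.exp (-(c * N)))) := by
  classical
  obtain ⟨c1, K1, hc1, hK1, h1⟩ := tail hf hC 1 hη
  obtain ⟨c2, K2, hc2, hK2, h2⟩ := tail hf hC (-1) hη
  refine ⟨min c1 c2, K1 + K2, lt_min hc1 hc2, by positivity, fun N B hB F hF hz => ?_⟩
  set μ := mu g C ρ with hμ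
  set G : ℝ → ℕ → Finset ℕ := fun σ j => F.filter (fun z : ℕ =>
    η * N < σ * (Real.log (g.prod j (B.1 + g.d * B.2 * z)) - j * μ)) with hG
  have hd0 : (0 : ℝ) < g.d := by have := g.dr; linarith
  have hsub : F ⊆ (range (N + 1)).biUnion (fun j => G 1 j ∪ G (-1) j) := by
    intro z hzF
    obtain ⟨j, hj, h⟩ := hz z hzF
    rw [mem_biUnion]
    refine ⟨j, by rw [mem_range]; omega, ?_⟩
    rw [mem_union]
    simp only [hG, mem_filter]
    rcases lt_abs.1 h with h3 | h3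
    · left; exact ⟨hzF, by linarith⟩
    · right; exact ⟨hzF, by linarith⟩
  have hcard := (Finset.card_le_card hsub).trans Finset.card_biUnion_le
  have hcard' : (F.card : ℝ) ≤ ∑ j ∈ range (N + 1), ((G 1 j ∪ G (-1) j).card : ℝ) := by
    exact_mod_cast hcard
  refine hcard'.trans ?_
  have hj : ∀ j ∈ range (N + 1), ((G 1 j ∪ G (-1) j).card : ℝ) ≤
      (K1 + K2) * ((g.d : ℝ) ^ N * Real.exp (-(min c1 c2 * N))) := by
    intro j hj
    rw [mem_range] at hj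
    have h3 : (((G 1 j ∪ G (-1) j).card : ℕ) : ℝ) ≤ (G 1 j).card + (G (-1) j).card := by
      exact_mod_cast Finset.card_union_le _ _
    have h4 := h1 N j (by omega) B hB (G 1 j) ((filter_subset _ _).trans hF) (by
      intro z hz; simp only [hG, mem_filter] at hz; exact hz.2)
    have h5 := h2 N j (by omega) B hB (G (-1) j) ((filter_subset _ _).trans hF) (by
      intro z hz; simp only [hG, mem_filter] at hz; exact hz.2)
    have hN0 : (0 : ℝ) ≤ N := Nat.cast_nonneg _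
    have h6 : Real.exp (-(c1 * N)) ≤ Real.exp (-(min c1 c2 * N)) := by
      apply Real.exp_le_exp.2
      have := mul_le_mul_of_nonneg_right (min_le_left c1 c2) hN0
      linarith
    have h7 : Real.exp (-(c2 * N)) ≤ Real.exp (-(min c1 c2 * N)) := by
      apply Real.exp_le_exp.2
      have := mul_le_mul_of_nonneg_right (min_le_right c1 c2) hN0
      linarith
    have h8 : K1 * ((g.d : ℝ) ^ N * Real.exp (-(c1 * N))) ≤
        K1 * ((g.d : ℝ) ^ N * Real.exp (-(min c1 c2 * N))) := by gcongr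
    have h9 : K2 * ((g.d : ℝ) ^ N * Real.exp (-(c2 * N))) ≤
        K2 * ((g.d : ℝ) ^ N * Real.exp (-(min c1 c2 * N))) := by gcongr
    calc (((G 1 j ∪ G (-1) j).card : ℕ) : ℝ) ≤ (G 1 j).card + (G (-1) j).card := h3
      _ ≤ K1 * ((g.d : ℝ) ^ N * Real.exp (-(min c1 c2 * N))) +
          K2 * ((g.d : ℝ) ^ N * Real.exp (-(min c1 c2 * N))) :=
          add_le_add (h4.trans h8) (h5.trans h9)
      _ = _ := by ring
  refine (Finset.sum_le_sum hj).trans (le_of_eq ?_)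
  rw [Finset.sum_const, card_range, nsmul_eq_mul]
  push_cast
  ring

/-- The number of the residue classes modulo `d ^ N` with elements of `S_C` which are not balanced. -/
theorem card_classes (hf : g.Fac b e) (hC : g.Cls e C ρ) {η : ℝ} (hη : 0 < η) :
    ∃ c K : ℝ, 0 < c ∧ 0 < K ∧ ∀ N : ℕ, ∀ V : Finset ℤ,
      (∀ v ∈ V, ∃ x ∈ g.SC C, Unb g (mu g C ρ) η N x ∧ v = x % (g.d : ℤ) ^ N) →
      (V.card : ℝ) ≤ K * ((N + 1) * ((g.d : ℝ) ^ N * Real.exp (-(c * N)))) := by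
  classical
  obtain ⟨c, K, hc, hK, h⟩ := card_unb hf hC hη
  refine ⟨c, K * (C.card + 1), hc, by positivity, fun N V hV => ?_⟩
  have hd0 : (0 : ℝ) < g.d := by have := g.dr; linarith
  have hdz : (0 : ℤ) < (g.d : ℤ) ^ N := pow_pos g.d_pos N
  set F : ℤ × ℕ → Finset ℕ := fun B => (range (g.d ^ N)).filter (fun z : ℕ =>
    Unb g (mu g C ρ) η N (B.1 + g.d * B.2 * z)) with hF
  have hsub : V ⊆ C.biUnion (fun B => (F B).image (fun z : ℕ => (B.1 + g.d * B.2 * z) % (g.d : ℤ) ^ N)) := by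
    intro v hv
    obtain ⟨x, ⟨B, hB, hxB⟩, hx, rfl⟩ := hV v hv
    rw [mem_biUnion]
    refine ⟨B, hB, ?_⟩
    rw [mem_image]
    rw [Int.modEq_iff_dvd] at hxB
    obtain ⟨q, hq⟩ := hxB
    push_cast at hq
    have hxe : x = B.1 + g.d * B.2 * (-q) := by linarith
    set z : ℕ := ((-q) % (g.d : ℤ) ^ N).toNat with hz
    have hzz : (z : ℤ) = (-q) % (g.d : ℤ) ^ N := Int.toNat_of_nonneg (Int.emod_nonneg _ hdz.ne')
    have hcongr : B.1 + g.d * B.2 * (z : ℤ) ≡ x [ZMOD (g.d : ℤ) ^ N] := by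
      rw [hxe, hzz]
      exact Int.ModEq.add_left _ (Int.ModEq.mul_left _ (Int.mod_modEq _ _))
    refine ⟨z, ?_, hcongr⟩
    simp only [hF, mem_filter, mem_range]
    constructor
    · have h1 : (z : ℤ) < (g.d : ℤ) ^ N := by rw [hzz]; exact Int.emod_lt_of_pos _ hdz
      exact_mod_cast h1
    · exact unb_congr _ _ _ hcongr.symm hx
  have h1 := (Finset.card_le_card hsub).trans Finset.card_biUnion_le
  have h2 : (V.card : ℝ) ≤ ∑ B ∈ C, (((F B).image (fun z : ℕ => (B.1 + g.d * B.2 * z) % (g.d : ℤ) ^ N)).card : ℝ) := by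
    exact_mod_cast h1
  refine h2.trans ?_
  have h3 : ∀ B ∈ C, (((F B).image (fun z : ℕ => (B.1 + g.d * B.2 * z) % (g.d : ℤ) ^ N)).card : ℝ) ≤
      K * ((N + 1) * ((g.d : ℝ) ^ N * Real.exp (-(c * N)))) := by
    intro B hB
    have h4 : (((F B).image (fun z : ℕ => (B.1 + g.d * B.2 * z) % (g.d : ℤ) ^ N)).card : ℝ) ≤ (F B).card := by
      exact_mod_cast Finset.card_image_le
    refine h4.trans (h N B hB (F B) (filter_subset _ _) ?_)
    intro z hz
    simp only [hF, mem_filter] at hz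
    exact hz.2
  refine (Finset.sum_le_sum h3).trans ?_
  rw [Finset.sum_const, nsmul_eq_mul]
  have h5 : (0 : ℝ) ≤ K * ((N + 1) * ((g.d : ℝ) ^ N * Real.exp (-(c * N)))) := by positivity
  nlinarith

end Pool.Agent.Y927.GP
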