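import Pool.Agent.Y927.GP.A

/-! The size of the terms of the trajectories. -/

set_option autoImplicit false

namespace Pool.Agent.Y927.GP

open Finset Pool.Agent.H319R2.M

variable (g : GM)

theorem prod_succ_right (k : ℕ) (x : ℤ) : g.prod (k + 1) x = g.prod k x * g.a ((g.T^[k] x) % g.d) := by
  unfold GM.prod
  rw [Finset.prod_range_succ]

theorem step (y : ℤ) : |(|(g.T y : ℝ)| - g.a (y % g.d) * |(y : ℝ)|)| ≤ g.R := by
  have hd0 : (0 : ℝ) < g.d := by have := g.dr; linarith
  have h1 : ((g.d : ℤ) : ℝ) * (g.T y : ℝ) = (g.m (y % g.d) : ℝ) * y - g.r (y % g.d) := by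
    exact_mod_cast g.T_mul y
  have h2 := g.r_le y
  have h3 : |(|((g.d : ℤ) : ℝ) * (g.T y : ℝ)| - |(g.m (y % g.d) : ℝ) * y|)| ≤ g.R := by
    refine (abs_abs_sub_abs_le _ _).trans ?_
    rw [h1]
    have : (g.m (y % g.d) : ℝ) * y - g.r (y % g.d) - (g.m (y % g.d) : ℝ) * y = -(g.r (y % g.d) : ℝ) := by
      ring
    rw [this, abs_neg]
    exact h2
  rw [abs_mul, abs_mul] at h3
  have h4 : |((g.d : ℤ) : ℝ)| = g.d := by
    rw [Int.cast_natCast]; exact abs_of_pos hd0
  rw [h4] at h3
  have h5 : (g.d : ℝ) * |(g.T y : ℝ)| - |(g.m (y % g.d) : ℝ)| * |(y : ℝ)| =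
      g.d * (|(g.T y : ℝ)| - g.a (y % g.d) * |(y : ℝ)|) := by
    unfold GM.a
    field_simp
  rw [h5, abs_mul, abs_of_pos hd0] at h3
  have h6 := g.dr
  have h7 := abs_nonneg (|(g.T y : ℝ)| - g.a (y % g.d) * |(y : ℝ)|)
  nlinarith

theorem size_err (x : ℤ) (j : ℕ) :
    |(|((g.T^[j] x : ℤ) : ℝ)| - g.prod j x * |(x : ℝ)|)| ≤
      g.R * ∑ s ∈ range j, g.prod j x / g.prod (s + 1) x := by
  induction j with
  | zero => simp [g.prod_zero']
  | succ j ih =>
    have h1 := step g (g.T^[j] x)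
    have ha : 0 < g.a ((g.T^[j] x) % g.d) := g.a_pos _
    have hp : 0 < g.prod (j + 1) x := g.prod_pos' _ _
    rw [Function.iterate_succ_apply', sum_range_succ, div_self hp.ne']
    set a := g.a ((g.T^[j] x) % g.d) with haa
    set y := g.T^[j] x with hy
    have e1 : |(g.T y : ℝ)| - g.prod (j + 1) x * |(x : ℝ)| =
        (|(g.T y : ℝ)| - a * |(y : ℝ)|) + a * (|(y : ℝ)| - g.prod j x * |(x : ℝ)|) := by
      rw [prod_succ_right]
      ring
    rw [e1]
    refine (abs_add_le _ _).trans ?_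
    rw [abs_mul, abs_of_pos ha]
    have h2 := mul_le_mul_of_nonneg_left ih ha.le
    have e3 : g.prod (j + 1) x = g.prod j x * a := prod_succ_right g j x
    have e2 : a * (g.R * ∑ s ∈ range j, g.prod j x / g.prod (s + 1) x) =
        g.R * ∑ s ∈ range j, g.prod (j + 1) x / g.prod (s + 1) x := by
      rw [mul_left_comm]
      congr 1
      rw [mul_sum]
      apply sum_congr rfl
      intro s _
      rw [e3]
      ring
    rw [e2] at h2
    linarith

/-- The size of the terms of a balanced trajectory. -/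
theorem law {μ η : ℝ} {N j : ℕ} {x : ℤ} (hx : ¬ Unb g μ η N x) (hj : j ≤ N)
    (hE : g.R * (j * (Real.exp (η * N) * max 1 (Real.exp (-(j * μ))))) ≤ |(x : ℝ)| / 2) :
    1 / 2 * Real.exp (j * μ - η * N) * |(x : ℝ)| ≤ |((g.T^[j] x : ℤ) : ℝ)| ∧
    |((g.T^[j] x : ℤ) : ℝ)| ≤ 2 * Real.exp (j * μ + η * N) * |(x : ℝ)| := by
  have hb : ∀ i ≤ N, |Real.log (g.prod i x) - i * μ| ≤ η * N := by
    intro i hi
    by_contra h
    push Not at h
    exact hx ⟨i, hi, h⟩
  have hup : ∀ i ≤ N, g.prod i x ≤ Real.exp (i * μ + η * N) := by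
    intro i hi
    have h1 := (abs_le.1 (hb i hi)).2
    rw [← Real.log_le_iff_le_exp (g.prod_pos' _ _)]
    linarith
  have hlo : ∀ i ≤ N, Real.exp (i * μ - η * N) ≤ g.prod i x := by
    intro i hi
    have h1 := (abs_le.1 (hb i hi)).1
    rw [← Real.le_log_iff_exp_le (g.prod_pos' _ _)]
    linarith
  have hpj : 0 < g.prod j x := g.prod_pos' _ _
  have herr := size_err g x j
  have hsum : g.R * ∑ s ∈ range j, g.prod j x / g.prod (s + 1) x ≤ g.prod j x * (|(x : ℝ)| / 2) := by
    have e1 : g.R * ∑ s ∈ range j, g.prod j x / g.prod (s + 1) x =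
        g.prod j x * (g.R * ∑ s ∈ range j, 1 / g.prod (s + 1) x) := by
      rw [mul_left_comm]
      congr 1
      rw [mul_sum]
      apply sum_congr rfl
      intro s _
      ring
    rw [e1]
    apply mul_le_mul_of_nonneg_left _ hpj.le
    refine le_trans ?_ hE
    apply mul_le_mul_of_nonneg_left _ g.R_nonneg
    calc ∑ s ∈ range j, 1 / g.prod (s + 1) x
        ≤ ∑ _s ∈ range j, (Real.exp (η * N) * max 1 (Real.exp (-(j * μ)))) := by
          apply sum_le_sum
          intro s hs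
          rw [mem_range] at hs
          have h1 := hlo (s + 1) (by omega)
          have h2 : 1 / g.prod (s + 1) x ≤ Real.exp (η * N) * Real.exp (-(((s + 1 : ℕ) : ℝ) * μ)) := by
            rw [← Real.exp_add]
            have e2 : η * N + -(((s + 1 : ℕ) : ℝ) * μ) = -(((s + 1 : ℕ) : ℝ) * μ - η * N) := by ring
            rw [e2, Real.exp_neg, one_div]
            exact inv_anti₀ (Real.exp_pos _) h1
          refine h2.trans ?_
          apply mul_le_mul_of_nonneg_left _ (Real.exp_pos _).le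
          rcases le_or_gt 0 μ with hμ | hμ
          · apply le_max_of_le_left
            rw [Real.exp_le_one_iff]
            have : (0 : ℝ) ≤ ((s + 1 : ℕ) : ℝ) * μ := by positivity
            linarith
          · apply le_max_of_le_right
            apply Real.exp_le_exp.2
            have h3 : ((s + 1 : ℕ) : ℝ) ≤ j := by exact_mod_cast hs
            nlinarith
      _ = j * (Real.exp (η * N) * max 1 (Real.exp (-(j * μ)))) := by
          rw [sum_const, card_range, nsmul_eq_mul]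
  have h3 := abs_le.1 (herr.trans hsum)
  have hx0 : 0 ≤ |(x : ℝ)| := abs_nonneg _
  constructor
  · have h4 := hlo j hj
    have h5 : g.prod j x * (|(x : ℝ)| / 2) ≤ |((g.T^[j] x : ℤ) : ℝ)| := by linarith [h3.1]
    refine le_trans ?_ h5
    calc 1 / 2 * Real.exp (j * μ - η * N) * |(x : ℝ)| = Real.exp (j * μ - η * N) * (|(x : ℝ)| / 2) := by
          ring
      _ ≤ g.prod j x * (|(x : ℝ)| / 2) := mul_le_mul_of_nonneg_right h4 (by positivity)
  · have h4 := hup j hj
    have h5 : |((g.T^[j] x : ℤ) : ℝ)| ≤ g.prod j x * (3 / 2 * |(x : ℝ)|) := by linarith [h3.2]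
    refine h5.trans ?_
    calc g.prod j x * (3 / 2 * |(x : ℝ)|) ≤ Real.exp (j * μ + η * N) * (3 / 2 * |(x : ℝ)|) :=
          mul_le_mul_of_nonneg_right h4 (by positivity)
      _ ≤ 2 * Real.exp (j * μ + η * N) * |(x : ℝ)| := by
          have h6 : 0 ≤ Real.exp (j * μ + η * N) * |(x : ℝ)| := by positivity
          nlinarith

end Pool.Agent.Y927.GP
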