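import Pool.Agent.Y927.CP.C

/-! Counting the integers `n` of an interval for which a prime power divides `W n`, and those for which
the residue of `f n` is prescribed. -/

set_option autoImplicit false

namespace Pool.Agent.Y927.GP

open Finset Polynomial

open Pool.Agent.Y927.CP (vander_bound pow_dvd_or)

theorem blockZ {W : ℤ[X]} (hg : W ≠ 0) {m : ℕ} (hm : W.natDegree = m) {D : ℤ} {L : ℕ} (hL : 1 ≤ L)
    (hD : (L : ℤ) ^ ((m + 1) * (m + 1)) * |W.leadingCoeff| < D) (A : Finset ℤ)
    (hA : ∀ n ∈ A, ∀ n' ∈ A, n - n' ≤ L) (hAD : ∀ n ∈ A, D ∣ W.eval n) : A.card ≤ m := by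
  by_contra hcon
  push Not at hcon
  obtain ⟨B, hB, hBc⟩ := Finset.exists_subset_card_eq (show m + 1 ≤ A.card by omega)
  have h1 := vander_bound hg hm (D := D) (fun i => B.orderEmbOfFin hBc i)
    (B.orderEmbOfFin hBc).injective (L := L) (by exact_mod_cast hL) (by
    intro i l
    have hi : B.orderEmbOfFin hBc i ∈ A := hB (Finset.orderEmbOfFin_mem _ _ _)
    have hl : B.orderEmbOfFin hBc l ∈ A := hB (Finset.orderEmbOfFin_mem _ _ _)
    rw [abs_le]
    constructor
    · have := hA _ hi _ hl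
      linarith
    · exact hA _ hl _ hi) (by
    intro i
    exact hAD _ (hB (Finset.orderEmbOfFin_mem _ _ _)))
  linarith

theorem blk {X a b : ℤ} {L : ℕ} (hL : 1 ≤ L) (ha : X < a) (hb : X < b)
    (hab : (a - X - 1).toNat / L = (b - X - 1).toNat / L) : b - a < L := by
  have h1 := Nat.div_add_mod (a - X - 1).toNat L
  have h2 := Nat.div_add_mod (b - X - 1).toNat L
  have h3 := Nat.mod_lt (b - X - 1).toNat (show 0 < L by omega)
  rw [hab] at h1
  generalize L * ((b - X - 1).toNat / L) = q at h1 h2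
  omega

/-- The number of the `n` in `(X, X + N]` with `D ∣ W n`. -/
theorem count1 {W : ℤ[X]} (hg : W ≠ 0) {m : ℕ} (hm : W.natDegree = m) {D : ℤ} {L : ℕ} (hL : 1 ≤ L)
    (hD : (L : ℤ) ^ ((m + 1) * (m + 1)) * |W.leadingCoeff| < D) (X : ℤ) (N : ℕ) :
    ((Ioc X (X + N)).filter (fun n : ℤ => D ∣ W.eval n)).card ≤ m * (N / L + 1) := by
  classical
  have h1 := Finset.card_le_mul_card_image_of_maps_to
    (s := (Ioc X (X + N)).filter (fun n : ℤ => D ∣ W.eval n))
    (t := range (N / L + 1)) (f := fun n : ℤ => (n - X - 1).toNat / L) (by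
      intro n hn
      rw [mem_filter, mem_Ioc] at hn
      rw [mem_range]
      have h2 : (n - X - 1).toNat ≤ N := by omega
      have h3 := Nat.div_le_div_right (c := L) h2
      omega) m (by
      intro b _
      apply blockZ hg hm hL hD
      · intro n hn n' hn'
        rw [mem_filter, mem_filter, mem_Ioc] at hn hn'
        exact (blk hL hn'.1.1.1 hn.1.1.1 (by rw [hn.2, hn'.2])).le
      · intro n hn
        rw [mem_filter, mem_filter] at hn
        exact hn.1.2)
  rw [card_range] at h1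
  exact h1

theorem pow_dvd_of_primes {d : ℕ} (hd : d ≠ 0) {c : ℕ} {h : ℤ} (hh : h ≠ 0)
    (H : ∀ p : ℕ, p.Prime → p ∣ d → ((p : ℤ) ^ (d.factorization p * c)) ∣ h) : ((d : ℤ) ^ c) ∣ h := by
  have hn : h.natAbs ≠ 0 := Int.natAbs_ne_zero.2 hh
  have h1 : d ^ c ∣ h.natAbs := by
    rw [← Nat.factorization_prime_le_iff_dvd (pow_ne_zero _ hd) hn]
    intro p hp
    rw [Nat.factorization_pow]
    simp only [Finsupp.smul_apply, smul_eq_mul]
    by_cases hpd : p ∣ d
    · have h2 := H p hp hpd
      have h3 : p ^ (d.factorization p * c) ∣ h.natAbs := by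
        have := Int.natAbs_dvd_natAbs.2 h2
        rwa [Int.natAbs_pow, Int.natAbs_natCast] at this
      have h4 := (hp.pow_dvd_iff_le_factorization hn).1 h3
      rw [mul_comm]; exact h4
    · rw [Nat.factorization_eq_zero_of_not_dvd hpd, mul_zero]
      exact Nat.zero_le _
  have := Int.natCast_dvd.2 h1
  rwa [Nat.cast_pow] at this

/-- Two integers `n < n'` close to each other, congruent modulo `d ^ j`, with congruent values. -/
theorem rigid {f : ℤ[X]} {d N j : ℕ} (hd : 2 ≤ d) (hjN : j ≤ N) {n n' : ℤ} (hlt : n < n')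
    (hclose : n' - n < (d : ℤ) ^ (N - j)) (hj : ((d : ℤ) ^ j) ∣ n' - n)
    (hf : ((d : ℤ) ^ N) ∣ f.eval n' - f.eval n) :
    ∃ p : ℕ, p.Prime ∧ p ∣ d ∧ ((p : ℤ) ^ j) ∣ f.derivative.eval n := by
  by_contra hcon
  push Not at hcon
  obtain ⟨r, hr⟩ := f.binomExpansion n (n' - n)
  have e1 : n + (n' - n) = n' := by ring
  rw [e1] at hr
  set h : ℤ := n' - n with hh
  have h1 : f.eval n' - f.eval n = h * (f.derivative.eval n + r * h) := by
    rw [hr]; ring
  rw [h1] at hf
  have hpos : 0 < h := by omega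
  have hdvd : ((d : ℤ) ^ (N - j)) ∣ h := by
    apply pow_dvd_of_primes (by omega) hpos.ne'
    intro p hp hpd
    have he : 1 ≤ d.factorization p := hp.factorization_pos_of_dvd (by omega) hpd
    set E := d.factorization p with hE
    have h2 : ((p : ℤ) ^ (E * N)) ∣ h * (f.derivative.eval n + r * h) := by
      refine Dvd.dvd.trans ?_ hf
      have h3 : (p ^ E : ℕ) ∣ d := Nat.ordProj_dvd d p
      have h4 : ((p : ℤ) ^ E) ∣ (d : ℤ) := by exact_mod_cast h3
      rw [pow_mul]
      exact pow_dvd_pow_of_dvd h4 N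
    have hjEN : j ≤ E * N := hjN.trans (Nat.le_mul_of_pos_left _ he)
    rcases pow_dvd_or hp h2 hjEN with h5 | h5
    · refine Dvd.dvd.trans (pow_dvd_pow _ ?_) h5
      have h6 : E * (N - j) = E * N - E * j := Nat.mul_sub _ _ _
      have h7 : j ≤ E * j := Nat.le_mul_of_pos_left _ he
      omega
    · exfalso
      apply hcon p hp hpd
      have h6 : ((p : ℤ) ^ j) ∣ r * h := by
        apply Dvd.dvd.mul_left
        refine Dvd.dvd.trans ?_ hj
        apply pow_dvd_pow_of_dvd
        exact_mod_cast hpd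
      have h7 := dvd_sub h5 h6
      have e2 : f.derivative.eval n + r * h - r * h = f.derivative.eval n := by ring
      rwa [e2] at h7
  have h2 := Int.le_of_dvd hpos hdvd
  omega

open Classical in
/-- The number of the `n` in `(X, X + M]` such that `p ^ j` does not divide `f' n` for the primes `p`
dividing `d` and the residue of `f n` modulo `d ^ N` is in `V`. -/
theorem count2 {f : ℤ[X]} {d N j M : ℕ} (hd : 2 ≤ d) (hjN : j ≤ N) (hM : M ≤ d ^ (N + 1)) (X : ℤ)
    (V : Finset ℤ) :
    ((Ioc X (X + M)).filter (fun n : ℤ => (∀ p : ℕ, p.Prime → p ∣ d →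
      ¬ ((p : ℤ) ^ j) ∣ f.derivative.eval n) ∧ f.eval n % (d : ℤ) ^ N ∈ V)).card ≤
      V.card * (d ^ j * (d ^ (j + 1) + 1)) := by
  have hd0 : 0 < d := by omega
  have h0 : (V ×ˢ (range (d ^ j) ×ˢ range (d ^ (j + 1) + 1))).card =
      V.card * (d ^ j * (d ^ (j + 1) + 1)) := by
    rw [card_product, card_product, card_range, card_range]
  rw [← h0]
  have hdj : (0 : ℤ) < (d : ℤ) ^ j := by positivity
  apply Finset.card_le_card_of_injOn
    (fun n : ℤ => (f.eval n % (d : ℤ) ^ N, ((n % (d : ℤ) ^ j).toNat, (n - X - 1).toNat / d ^ (N - j))))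
  · intro n hn
    rw [mem_coe, mem_filter, mem_Ioc] at hn
    obtain ⟨⟨hn1, hn2⟩, -, hn5⟩ := hn
    rw [mem_coe, mem_product, mem_product]
    refine ⟨hn5, ?_, ?_⟩
    · rw [mem_range]
      have h1 := Int.emod_nonneg n hdj.ne'
      have h2 := Int.emod_lt_of_pos n hdj
      have h3 : ((n % (d : ℤ) ^ j).toNat : ℤ) < ((d ^ j : ℕ) : ℤ) := by
        rw [Int.toNat_of_nonneg h1]; push_cast; exact h2
      exact_mod_cast h3
    · rw [mem_range]
      have h2 : (n - X - 1).toNat ≤ d ^ (N - j) * d ^ (j + 1) := by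
        rw [← pow_add]
        have : N - j + (j + 1) = N + 1 := by omega
        rw [this]
        omega
      have h3 := Nat.div_le_div_right (c := d ^ (N - j)) h2
      rw [Nat.mul_div_cancel_left _ (by positivity)] at h3
      exact Nat.lt_succ_of_le h3
  · intro n hn n' hn' heq
    rw [mem_coe, mem_filter, mem_Ioc] at hn hn'
    simp only [Prod.mk.injEq] at heq
    obtain ⟨e1, e2, e3⟩ := heq
    have hmod : ((d : ℤ) ^ N) ∣ f.eval n' - f.eval n := Int.ModEq.dvd e1
    have e2' : n % (d : ℤ) ^ j = n' % (d : ℤ) ^ j := by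
      have h1 := Int.emod_nonneg n hdj.ne'
      have h2 := Int.emod_nonneg n' hdj.ne'
      omega
    have hmodj : ((d : ℤ) ^ j) ∣ n' - n := Int.ModEq.dvd e2'
    have hpow1 : 1 ≤ d ^ (N - j) := Nat.one_le_pow _ _ hd0
    rcases lt_trichotomy n n' with h | h | h
    · exfalso
      obtain ⟨p, hp, hpd, hdv⟩ := rigid hd hjN h (by
        have := blk hpow1 hn.1.1 hn'.1.1 e3
        push_cast at this
        exact this) hmodj hmod
      exact hn.2.1 p hp hpd hdv
    · exact h
    · exfalso
      obtain ⟨p, hp, hpd, hdv⟩ := rigid hd hjN h (by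
        have := blk hpow1 hn'.1.1 hn.1.1 e3.symm
        push_cast at this
        exact this)
        (by have := (dvd_neg.2 hmodj); rwa [neg_sub] at this)
        (by have := (dvd_neg.2 hmod); rwa [neg_sub] at this)
      exact hn'.2.1 p hp hpd hdv

end Pool.Agent.Y927.GP
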