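import Pool.Agent.Y927.GP.B
import Pool.Agent.Y927.GP.C

/-! Polynomial growth, and a conversion of exponential factors into powers. -/

set_option autoImplicit false

namespace Pool.Agent.Y927.GP

open Finset Polynomial

theorem conv (d : ℕ) (hd : 2 ≤ d) {c : ℝ} (hc : 0 < c) :
    ∃ δ K : ℝ, 0 < δ ∧ δ < 1 ∧ 0 < K ∧ ∀ (N : ℕ) (Y : ℝ), 1 ≤ Y → Y < (d : ℝ) ^ (N + 1) →
      ((N : ℝ) + 1) * Real.exp (-(c * N)) * Y ≤ K * Y ^ (1 - δ) := by
  have hd1 : (1 : ℝ) < d := by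
    have : (2 : ℝ) ≤ d := by exact_mod_cast hd
    linarith
  have hL : 0 < Real.log d := Real.log_pos hd1
  set δ : ℝ := min (1 / 2) (c / (2 * Real.log d)) with hδ
  have hδ0 : 0 < δ := lt_min (by norm_num) (by positivity)
  have hδ1 : δ < 1 := lt_of_le_of_lt (min_le_left _ _) (by norm_num)
  refine ⟨δ, (1 + 2 / c) * Real.exp (c / 2), hδ0, hδ1, by positivity, fun N Y hY hYN => ?_⟩
  have hYp : 0 < Y := by linarith
  have hN0 : (0 : ℝ) ≤ N := Nat.cast_nonneg _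
  have h1 : (N : ℝ) + 1 ≤ (1 + 2 / c) * Real.exp (c * N / 2) := by
    have h2 := Real.add_one_le_exp (c * N / 2)
    have h3 : (N : ℝ) + 1 ≤ (1 + 2 / c) * (c * N / 2 + 1) := by
      have e : (1 + 2 / c) * (c * N / 2 + 1) = c * N / 2 + 1 + N + 2 / c := by
        field_simp
        ring
      rw [e]
      have : 0 < 2 / c := by positivity
      have : 0 ≤ c * N / 2 := by positivity
      linarith
    exact h3.trans (mul_le_mul_of_nonneg_left h2 (by positivity))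
  have h2 : Y ^ δ ≤ Real.exp (c / 2) * Real.exp (c * N / 2) := by
    calc Y ^ δ ≤ ((d : ℝ) ^ (N + 1)) ^ δ := Real.rpow_le_rpow hYp.le hYN.le hδ0.le
      _ = Real.exp (((N : ℝ) + 1) * Real.log d * δ) := by
          rw [← Real.rpow_natCast, ← Real.rpow_mul (by positivity), Real.rpow_def_of_pos (by positivity)]
          congr 1
          push_cast
          ring
      _ ≤ Real.exp (((N : ℝ) + 1) * (c / 2)) := by
          apply Real.exp_le_exp.2
          have h3 : Real.log d * δ ≤ c / 2 := by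
            calc Real.log d * δ ≤ Real.log d * (c / (2 * Real.log d)) :=
                  mul_le_mul_of_nonneg_left (min_le_right _ _) hL.le
              _ = c / 2 := by field_simp
          rw [mul_assoc]
          exact mul_le_mul_of_nonneg_left h3 (by positivity)
      _ = Real.exp (c / 2) * Real.exp (c * N / 2) := by
          rw [← Real.exp_add]; congr 1; ring
  have e1 : Y = Y ^ δ * Y ^ (1 - δ) := by
    rw [← Real.rpow_add hYp]
    have : δ + (1 - δ) = 1 := by ring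
    rw [this, Real.rpow_one]
  calc ((N : ℝ) + 1) * Real.exp (-(c * N)) * Y
      = ((N : ℝ) + 1) * Real.exp (-(c * N)) * (Y ^ δ * Y ^ (1 - δ)) := by rw [← e1]
    _ ≤ ((1 + 2 / c) * Real.exp (c * N / 2)) * Real.exp (-(c * N)) *
        ((Real.exp (c / 2) * Real.exp (c * N / 2)) * Y ^ (1 - δ)) := by gcongr
    _ = (1 + 2 / c) * Real.exp (c / 2) * (Real.exp (c * N / 2) * Real.exp (-(c * N)) *
        Real.exp (c * N / 2)) * Y ^ (1 - δ) := by ring
    _ = (1 + 2 / c) * Real.exp (c / 2) * Y ^ (1 - δ) := by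
        rw [← Real.exp_add, ← Real.exp_add]
        have : c * N / 2 + -(c * N) + c * N / 2 = 0 := by ring
        rw [this, Real.exp_zero, mul_one]

theorem growth_up (f : ℤ[X]) : ∃ C : ℝ, 1 ≤ C ∧ ∀ n : ℤ, 1 ≤ |(n : ℝ)| →
    |((f.eval n : ℤ) : ℝ)| ≤ C * |(n : ℝ)| ^ f.natDegree := by
  refine ⟨1 + ∑ i ∈ range (f.natDegree + 1), |((f.coeff i : ℤ) : ℝ)|, ?_, fun n hn => ?_⟩
  · have : 0 ≤ ∑ i ∈ range (f.natDegree + 1), |((f.coeff i : ℤ) : ℝ)| :=
      Finset.sum_nonneg (fun i _ => abs_nonneg _)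
    linarith
  rw [Polynomial.eval_eq_sum_range]
  push_cast
  calc |∑ i ∈ range (f.natDegree + 1), ((f.coeff i : ℤ) : ℝ) * (n : ℝ) ^ i|
      ≤ ∑ i ∈ range (f.natDegree + 1), |((f.coeff i : ℤ) : ℝ) * (n : ℝ) ^ i| := abs_sum_le_sum_abs _ _
    _ ≤ ∑ i ∈ range (f.natDegree + 1), |((f.coeff i : ℤ) : ℝ)| * |(n : ℝ)| ^ f.natDegree := by
        apply Finset.sum_le_sum
        intro i hi
        rw [mem_range] at hi
        rw [abs_mul, abs_pow]
        apply mul_le_mul_of_nonneg_left _ (abs_nonneg _)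
        exact pow_le_pow_right₀ hn (by omega)
    _ = (∑ i ∈ range (f.natDegree + 1), |((f.coeff i : ℤ) : ℝ)|) * |(n : ℝ)| ^ f.natDegree := by
        rw [Finset.sum_mul]
    _ ≤ (1 + ∑ i ∈ range (f.natDegree + 1), |((f.coeff i : ℤ) : ℝ)|) * |(n : ℝ)| ^ f.natDegree := by
        apply mul_le_mul_of_nonneg_right _ (by positivity)
        linarith

theorem growth_lo {f : ℤ[X]} (hd : 1 ≤ f.natDegree) : ∃ n0 : ℝ, 1 ≤ n0 ∧ ∀ n : ℤ, n0 ≤ |(n : ℝ)| →
    |(n : ℝ)| ^ f.natDegree / 2 ≤ |((f.eval n : ℤ) : ℝ)| := by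
  set S : ℝ := ∑ i ∈ range f.natDegree, |((f.coeff i : ℤ) : ℝ)| with hS
  have hS0 : 0 ≤ S := Finset.sum_nonneg (fun i _ => abs_nonneg _)
  refine ⟨2 * S + 1, by linarith, fun n hn => ?_⟩
  have hn1 : 1 ≤ |(n : ℝ)| := by linarith
  obtain ⟨D, hD⟩ : ∃ D, f.natDegree = D + 1 := ⟨f.natDegree - 1, by omega⟩
  have hlc : (1 : ℝ) ≤ |((f.coeff f.natDegree : ℤ) : ℝ)| := by
    have h1 : f.coeff f.natDegree ≠ 0 := by
      intro h0
      have h2 : f.leadingCoeff = 0 := h0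
      rw [leadingCoeff_eq_zero] at h2
      rw [h2] at hd
      simp at hd
    have h2 : 1 ≤ |f.coeff f.natDegree| := Int.one_le_abs h1
    exact_mod_cast h2
  have h1 : |∑ i ∈ range f.natDegree, ((f.coeff i : ℤ) : ℝ) * (n : ℝ) ^ i| ≤ S * |(n : ℝ)| ^ D := by
    calc |∑ i ∈ range f.natDegree, ((f.coeff i : ℤ) : ℝ) * (n : ℝ) ^ i|
        ≤ ∑ i ∈ range f.natDegree, |((f.coeff i : ℤ) : ℝ) * (n : ℝ) ^ i| := abs_sum_le_sum_abs _ _
      _ ≤ ∑ i ∈ range f.natDegree, |((f.coeff i : ℤ) : ℝ)| * |(n : ℝ)| ^ D := by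
          apply Finset.sum_le_sum
          intro i hi
          rw [mem_range] at hi
          rw [abs_mul, abs_pow]
          apply mul_le_mul_of_nonneg_left _ (abs_nonneg _)
          exact pow_le_pow_right₀ hn1 (by omega)
      _ = S * |(n : ℝ)| ^ D := by rw [hS, Finset.sum_mul]
  have h2 : |(n : ℝ)| ^ f.natDegree ≤ |((f.coeff f.natDegree : ℤ) : ℝ) * (n : ℝ) ^ f.natDegree| := by
    rw [abs_mul, abs_pow]
    exact le_mul_of_one_le_left (by positivity) hlc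
  have h3 : ((f.eval n : ℤ) : ℝ) = ∑ i ∈ range f.natDegree, ((f.coeff i : ℤ) : ℝ) * (n : ℝ) ^ i +
      ((f.coeff f.natDegree : ℤ) : ℝ) * (n : ℝ) ^ f.natDegree := by
    rw [Polynomial.eval_eq_sum_range, sum_range_succ]
    push_cast
    ring
  have h4 : |((f.coeff f.natDegree : ℤ) : ℝ) * (n : ℝ) ^ f.natDegree| ≤ |((f.eval n : ℤ) : ℝ)| +
      |∑ i ∈ range f.natDegree, ((f.coeff i : ℤ) : ℝ) * (n : ℝ) ^ i| := by
    have e : ((f.coeff f.natDegree : ℤ) : ℝ) * (n : ℝ) ^ f.natDegree = ((f.eval n : ℤ) : ℝ) -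
        ∑ i ∈ range f.natDegree, ((f.coeff i : ℤ) : ℝ) * (n : ℝ) ^ i := by rw [h3]; ring
    rw [e]
    exact abs_sub _ _
  have h5 : S * |(n : ℝ)| ^ D ≤ |(n : ℝ)| ^ f.natDegree / 2 := by
    rw [hD, pow_succ]
    have h6 : S ≤ |(n : ℝ)| / 2 := by linarith
    have h7 : 0 ≤ |(n : ℝ)| ^ D := by positivity
    nlinarith
  linarith

theorem few_small {f : ℤ[X]} (hd : 1 ≤ f.natDegree) : ∃ C : ℝ, 0 < C ∧ ∀ Z : ℝ, 1 ≤ Z →
    ∀ A : Finset ℤ, (∀ n ∈ A, |((f.eval n : ℤ) : ℝ)| < Z) →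
      (A.card : ℝ) ≤ C * Z ^ (1 / (f.natDegree : ℝ)) := by
  obtain ⟨n0, hn0, hlo⟩ := growth_lo hd
  set D : ℝ := (f.natDegree : ℝ) with hDdef
  have hD1 : 1 ≤ D := by rw [hDdef]; exact_mod_cast hd
  have hD0 : 0 < D := by linarith
  refine ⟨2 * n0 + 5, by linarith, fun Z hZ A hA => ?_⟩
  have hZp : 0 < Z := by linarith
  set K : ℝ := n0 + 2 * Z ^ (1 / D) with hK
  have hZ1 : 1 ≤ Z ^ (1 / D) := Real.one_le_rpow hZ (by positivity)
  have hK0 : 0 ≤ K := by rw [hK]; positivity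
  have hsub : A ⊆ Icc (-⌊K⌋) ⌊K⌋ := by
    intro n hn
    have h1 := hA n hn
    have h2 : |(n : ℝ)| ≤ K := by
      rcases le_or_gt n0 |(n : ℝ)| with h | h
      · have h3 := hlo n h
        have h4 : |(n : ℝ)| ^ f.natDegree ≤ 2 * Z := by linarith
        have h5 : |(n : ℝ)| ≤ (2 * Z) ^ (1 / D) := by
          have h6 : (|(n : ℝ)| ^ f.natDegree) ^ (1 / D) ≤ (2 * Z) ^ (1 / D) :=
            Real.rpow_le_rpow (by positivity) h4 (by positivity)
          rw [← Real.rpow_natCast, ← Real.rpow_mul (abs_nonneg _)] at h6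
          have e : (f.natDegree : ℝ) * (1 / D) = 1 := by rw [← hDdef]; field_simp
          rw [e, Real.rpow_one] at h6
          exact h6
        have h7 : (2 * Z) ^ (1 / D) ≤ 2 * Z ^ (1 / D) := by
          rw [Real.mul_rpow (by norm_num) hZp.le]
          apply mul_le_mul_of_nonneg_right _ (by positivity)
          calc (2 : ℝ) ^ (1 / D) ≤ 2 ^ (1 : ℝ) := by
                apply Real.rpow_le_rpow_of_exponent_le (by norm_num)
                rw [div_le_one hD0]; exact hD1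
            _ = 2 := Real.rpow_one 2
        rw [hK]; linarith
      · rw [hK]
        have : 0 ≤ 2 * Z ^ (1 / D) := by positivity
        linarith
    rw [abs_le] at h2
    rw [mem_Icc]
    constructor
    · have : ((-n : ℤ) : ℝ) ≤ K := by push_cast; linarith
      have := Int.le_floor.2 this
      omega
    · exact Int.le_floor.2 h2.2
  have h1 := Finset.card_le_card hsub
  rw [Int.card_Icc] at h1
  have h2 : (A.card : ℝ) ≤ 2 * K + 1 := by
    have h3 : (0 : ℤ) ≤ ⌊K⌋ := Int.floor_nonneg.2 hK0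
    have h4 : ((⌊K⌋ + 1 - -⌊K⌋).toNat : ℤ) = 2 * ⌊K⌋ + 1 := by
      rw [Int.toNat_of_nonneg (by omega)]; ring
    have h5 : (A.card : ℤ) ≤ 2 * ⌊K⌋ + 1 := by rw [← h4]; exact_mod_cast h1
    have h6 : (A.card : ℝ) ≤ 2 * (⌊K⌋ : ℝ) + 1 := by exact_mod_cast h5
    have h7 := Int.floor_le K
    linarith
  refine h2.trans ?_
  rw [hK]
  nlinarith

theorem scale (d : ℕ) (hd : 2 ≤ d) (Y : ℝ) (hY : 1 ≤ Y) :
    ∃ N : ℕ, (d : ℝ) ^ N ≤ Y ∧ Y < (d : ℝ) ^ (N + 1) ∧ ⌊Y⌋₊ ≤ d ^ (N + 1) := by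
  have h1 : ⌊Y⌋₊ ≠ 0 := by
    have := Nat.floor_pos.2 hY
    omega
  refine ⟨Nat.log d ⌊Y⌋₊, ?_, ?_, ?_⟩
  · have h2 := Nat.pow_log_le_self d h1
    have h3 : ((d ^ Nat.log d ⌊Y⌋₊ : ℕ) : ℝ) ≤ ⌊Y⌋₊ := by exact_mod_cast h2
    have h4 : (⌊Y⌋₊ : ℝ) ≤ Y := Nat.floor_le (by linarith)
    push_cast at h3
    linarith
  · have h2 := Nat.lt_pow_succ_log_self (b := d) (by omega) ⌊Y⌋₊
    have h3 : ((⌊Y⌋₊ + 1 : ℕ) : ℝ) ≤ ((d ^ (Nat.log d ⌊Y⌋₊ + 1) : ℕ) : ℝ) := by exact_mod_cast h2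
    have h4 : Y < ⌊Y⌋₊ + 1 := Nat.lt_floor_add_one Y
    push_cast at h3
    linarith
  · exact (Nat.lt_pow_succ_log_self (b := d) (by omega) ⌊Y⌋₊).le

end Pool.Agent.Y927.GP
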