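import Pool.Agent.Y927.GP.D

/-! The trajectories of the values of a polynomial under a generalized Collatz map: the main count. -/

set_option autoImplicit false

namespace Pool.Agent.Y927.GP

open Finset Polynomial Pool.Agent.H319R2.M Filter

/-- The trajectory of `x` follows the law up to factors `Y ^ ε`. -/
def Typ (g : GM) (μ ε Y : ℝ) (x : ℤ) : Prop :=
  ∀ j : ℕ, (g.d : ℝ) ^ j ≤ Y →
    Y ^ (-ε) * Real.exp (j * μ) * |(x : ℝ)| ≤ |((g.T^[j] x : ℤ) : ℝ)| ∧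
    |((g.T^[j] x : ℤ) : ℝ)| ≤ Y ^ ε * Real.exp (j * μ) * |(x : ℝ)|

theorem large (d : ℕ) (hd : 2 ≤ d) {θ ε β R : ℝ} (hθ : 0 < θ) (hε : 0 < ε) (hβ : 0 < β) (hR : 0 ≤ R)
    (a : ℝ) : ∃ Y0 : ℝ, 1 ≤ Y0 ∧ ∀ Y, Y0 ≤ Y → ∀ N : ℕ, (d : ℝ) ^ N ≤ Y → Y < (d : ℝ) ^ (N + 1) →
      a ≤ θ * N ∧ 2 ≤ Y ^ ε ∧ 2 * R * N ≤ Y ^ β := by
  have hd1 : (1 : ℝ) < d := by
    have : (2 : ℝ) ≤ d := by exact_mod_cast hd
    linarith
  have hL : 0 < Real.log d := Real.log_pos hd1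
  have h1 : ∀ᶠ Y : ℝ in atTop, (a / θ + 1) * Real.log d ≤ Real.log Y :=
    Real.tendsto_log_atTop.eventually_ge_atTop _
  have h2 : ∀ᶠ Y : ℝ in atTop, 2 ≤ Y ^ ε := (tendsto_rpow_atTop hε).eventually_ge_atTop _
  have h3 : ∀ᶠ Y : ℝ in atTop, ‖Real.log Y‖ ≤ Real.log d / (2 * R + 1) * ‖Y ^ β‖ :=
    (isLittleO_log_rpow_atTop hβ).def (by positivity)
  obtain ⟨Y0, hY0⟩ := eventually_atTop.1 (h1.and (h2.and h3))
  refine ⟨max 1 Y0, le_max_left _ _, fun Y hY N hN1 hN2 => ?_⟩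
  obtain ⟨g1, g2, g3⟩ := hY0 Y ((le_max_right _ _).trans hY)
  have hY1 : 1 ≤ Y := (le_max_left _ _).trans hY
  have hYp : 0 < Y := by linarith
  have hN1' : N * Real.log d ≤ Real.log Y := by
    rw [← Real.log_pow]; exact Real.log_le_log (by positivity) hN1
  have hN2' : Real.log Y ≤ (N + 1) * Real.log d := by
    have := Real.log_le_log hYp hN2.le
    rw [Real.log_pow] at this
    push_cast at this
    exact this
  refine ⟨?_, g2, ?_⟩
  · have h4 : (a / θ + 1) * Real.log d ≤ (N + 1) * Real.log d := g1.trans hN2'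
    have h5 := le_of_mul_le_mul_right h4 hL
    have h6 : a / θ ≤ N := by linarith
    rw [div_le_iff₀ hθ] at h6
    linarith
  · rw [Real.norm_of_nonneg (Real.log_nonneg hY1), Real.norm_of_nonneg (by positivity)] at g3
    have h4 : N * Real.log d ≤ Real.log d / (2 * R + 1) * Y ^ β := hN1'.trans g3
    have h5 : (2 * R + 1) * N ≤ Y ^ β := by
      rw [div_mul_eq_mul_div, le_div_iff₀ (by positivity)] at h4
      have : Real.log d * ((2 * R + 1) * N) ≤ Real.log d * Y ^ β := by linarith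
      exact le_of_mul_le_mul_left this hL
    have : (0 : ℝ) ≤ N := Nat.cast_nonneg _
    nlinarith

theorem typ_of (g : GM) {μ κ D ε ε1 Y : ℝ} (hκ0 : 0 ≤ κ) (hκ : -μ ≤ κ * Real.log g.d) (hε1 : 0 < ε1)
    (hε : ε1 ≤ ε) (hβ : ε1 ≤ (D - κ) / 4) (hY : 1 ≤ Y) {N : ℕ} (hN1 : (g.d : ℝ) ^ N ≤ Y)
    (hN2 : Y < (g.d : ℝ) ^ (N + 1)) (h2 : 2 ≤ Y ^ (ε1 / 4))
    (hR : 2 * g.R * N ≤ Y ^ ((D - κ) / 2)) {x : ℤ} (hx : Y ^ (D - ε1) ≤ |(x : ℝ)|)
    (hU : ¬ Unb g μ (ε1 / 4 * Real.log g.d) N x) : Typ g μ ε Y x := by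
  intro j hj
  have hd1 : (1 : ℝ) < g.d := by have := g.dr; linarith
  have hd0 : (0 : ℝ) < g.d := by linarith
  have hL := Real.log_pos hd1
  have hYp : 0 < Y := by linarith
  have hjN : j ≤ N := by
    by_contra hcon
    push Not at hcon
    have : (g.d : ℝ) ^ (N + 1) ≤ (g.d : ℝ) ^ j := pow_le_pow_right₀ hd1.le hcon
    linarith
  have hexp : Real.exp (ε1 / 4 * Real.log g.d * N) ≤ Y ^ (ε1 / 4) := by
    calc Real.exp (ε1 / 4 * Real.log g.d * N) = ((g.d : ℝ) ^ N) ^ (ε1 / 4) := by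
          rw [← Real.rpow_natCast, ← Real.rpow_mul hd0.le, Real.rpow_def_of_pos hd0]
          congr 1; ring
      _ ≤ Y ^ (ε1 / 4) := Real.rpow_le_rpow (by positivity) hN1 (by positivity)
  have hmax : max 1 (Real.exp (-(j * μ))) ≤ Y ^ κ := by
    apply max_le (Real.one_le_rpow hY hκ0)
    calc Real.exp (-(j * μ)) ≤ Real.exp (j * (κ * Real.log g.d)) := by
          apply Real.exp_le_exp.2
          have := mul_le_mul_of_nonneg_left hκ (Nat.cast_nonneg (α := ℝ) j)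
          linarith
      _ = ((g.d : ℝ) ^ j) ^ κ := by
          rw [← Real.rpow_natCast, ← Real.rpow_mul hd0.le, Real.rpow_def_of_pos hd0]
          congr 1; ring
      _ ≤ Y ^ κ := Real.rpow_le_rpow (by positivity) hj hκ0
  have hlaw := law g (μ := μ) (η := ε1 / 4 * Real.log g.d) (N := N) (j := j) (x := x) hU hjN (by
    have hR0 := g.R_nonneg
    have hjr : (j : ℝ) ≤ N := by exact_mod_cast hjN
    have h3 : g.R * (j * (Real.exp (ε1 / 4 * Real.log g.d * N) * max 1 (Real.exp (-(j * μ))))) ≤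
        g.R * (N * (Y ^ (ε1 / 4) * Y ^ κ)) := by
      gcongr
    have h4 : g.R * (N * (Y ^ (ε1 / 4) * Y ^ κ)) * 2 ≤ Y ^ ((D - κ) / 2) * (Y ^ (ε1 / 4) * Y ^ κ) := by
      have := mul_le_mul_of_nonneg_right hR (show 0 ≤ Y ^ (ε1 / 4) * Y ^ κ by positivity)
      linarith
    have h5 : Y ^ ((D - κ) / 2) * (Y ^ (ε1 / 4) * Y ^ κ) ≤ Y ^ (D - ε1) := by
      rw [← Real.rpow_add hYp, ← Real.rpow_add hYp]
      apply Real.rpow_le_rpow_of_exponent_le hY
      linarith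
    linarith)
  have hX : 0 ≤ |(x : ℝ)| := abs_nonneg _
  set E := Real.exp (ε1 / 4 * Real.log g.d * N) with hE
  have hE0 : 0 < E := Real.exp_pos _
  have h7 : 2 * E ≤ Y ^ ε := by
    calc 2 * E ≤ Y ^ (ε1 / 4) * Y ^ (ε1 / 4) := by gcongr
      _ = Y ^ (ε1 / 2) := by
          rw [← Real.rpow_add hYp]; congr 1; ring
      _ ≤ Y ^ ε := Real.rpow_le_rpow_of_exponent_le hY (by linarith)
  constructor
  · refine le_trans ?_ hlaw.1
    apply mul_le_mul_of_nonneg_right _ hX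
    rw [Real.exp_sub, ← hE]
    have h6 : Y ^ (-ε) ≤ 1 / 2 * E⁻¹ := by
      rw [Real.rpow_neg hYp.le]
      calc (Y ^ ε)⁻¹ ≤ (2 * E)⁻¹ := inv_anti₀ (by positivity) h7
        _ = 1 / 2 * E⁻¹ := by rw [mul_inv]; norm_num
    calc Y ^ (-ε) * Real.exp (j * μ) ≤ 1 / 2 * E⁻¹ * Real.exp (j * μ) :=
          mul_le_mul_of_nonneg_right h6 (Real.exp_pos _).le
      _ = 1 / 2 * (Real.exp (j * μ) / E) := by ring
  · refine hlaw.2.trans ?_
    apply mul_le_mul_of_nonneg_right _ hX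
    rw [Real.exp_add, ← hE]
    calc 2 * (Real.exp (j * μ) * E) = 2 * E * Real.exp (j * μ) := by ring
      _ ≤ Y ^ ε * Real.exp (j * μ) := mul_le_mul_of_nonneg_right h7 (Real.exp_pos _).le

/-- For all but few `n` of an interval with `f n` in `S_C` the trajectory of `f n` follows the law. -/
theorem main {g : GM} {b : ℤ → ℤ} {e : ℤ → ℕ} {C : Finset (ℤ × ℕ)} {ρ : ℤ × ℕ → ℝ} (hf : g.Fac b e)
    (hC : g.Cls e C ρ) {f : ℤ[X]} (hdeg : 1 ≤ f.natDegree) {κ : ℝ} (hκ0 : 0 ≤ κ)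
    (hκ : -mu g C ρ ≤ κ * Real.log g.d) (hκD : κ < f.natDegree) {ε : ℝ} (hε : 0 < ε) :
    ∃ δ K : ℝ, 0 < δ ∧ δ < 1 ∧ 0 < K ∧ ∀ (X : ℤ) (Y : ℝ), 1 ≤ Y →
      ∀ A : Finset ℤ, A ⊆ Ioc X (X + ⌊Y⌋₊) →
        (∀ n ∈ A, f.eval n ∈ g.SC C ∧ ¬ Typ g (mu g C ρ) ε Y (f.eval n)) →
          (A.card : ℝ) ≤ K * Y ^ (1 - δ) := by
  classical
  set μ := mu g C ρ with hμ
  have hd2 := g.two_le
  have hd1 : (1 : ℝ) < g.d := by have := g.dr; linarith
  have hd0 : (0 : ℝ) < g.d := by linarith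
  have hL : 0 < Real.log g.d := Real.log_pos hd1
  set D : ℝ := (f.natDegree : ℝ) with hD
  have hD1 : 1 ≤ D := by rw [hD]; exact_mod_cast hdeg
  have hDp : 0 < D := by linarith
  set w : ℤ[X] := f.derivative with hw
  have hw0 : w ≠ 0 := by
    intro h
    have := Polynomial.derivative_eq_zero.1 h
    omega
  obtain ⟨m, hm⟩ : ∃ m, w.natDegree = m := ⟨_, rfl⟩
  set a : ℕ := w.leadingCoeff.natAbs with ha
  have ha1 : |w.leadingCoeff| < 2 ^ a := by
    rw [Int.abs_eq_natAbs, ← ha]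
    exact_mod_cast Nat.lt_two_pow_self
  obtain ⟨C3, hC3, hfew⟩ := few_small hdeg
  set M : ℕ := (m + 1) * (m + 1) with hM
  have hM1 : 1 ≤ M := Nat.one_le_iff_ne_zero.2 (by positivity)
  have hM1r : (1 : ℝ) ≤ M := by exact_mod_cast hM1
  have hMp : (0 : ℝ) < M := by linarith
  set ε1 : ℝ := min ε ((D - κ) / 4) with hε1
  have hε10 : 0 < ε1 := lt_min hε (by linarith)
  have hε1ε : ε1 ≤ ε := min_le_left _ _
  have hε1β : ε1 ≤ (D - κ) / 4 := min_le_right _ _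
  obtain ⟨c, K2, hc, hK2, hclass⟩ := card_classes hf hC (η := ε1 / 4 * Real.log g.d) (by positivity)
  set θ : ℝ := min 1 (c / (4 * Real.log g.d)) with hθ
  have hθ0 : 0 < θ := lt_min one_pos (by positivity)
  have hθ1 : θ ≤ 1 := min_le_left _ _
  have hθc : 2 * θ * Real.log g.d ≤ c / 2 := by
    have h1 : θ ≤ c / (4 * Real.log g.d) := min_le_right _ _
    have h2 := mul_le_mul_of_nonneg_right h1 hL.le
    have e1 : c / (4 * Real.log g.d) * Real.log g.d = c / 4 := by field_simp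
    rw [e1] at h2
    linarith
  have hl2 : 0 < Real.log 2 := Real.log_pos (by norm_num)
  obtain ⟨δ1, K1, hδ10, hδ11, hK1, hconv1⟩ := conv g.d hd2 (c := θ * Real.log 2 / M) (by positivity)
  obtain ⟨δ2, K3, hδ20, hδ21, hK3, hconv2⟩ := conv g.d hd2 (c := c / 2) (by positivity)
  obtain ⟨Y0, hY01, hlarge⟩ := large g.d hd2 hθ0 (show 0 < ε1 / 4 by positivity)
    (show 0 < (D - κ) / 2 by linarith) g.R_nonneg ((a : ℝ) + 1)
  set δ : ℝ := min (min δ1 δ2) (ε1 / D) with hδ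
  have hδ0 : 0 < δ := lt_min (lt_min hδ10 hδ20) (by positivity)
  have hδa : δ ≤ δ1 := (min_le_left _ _).trans (min_le_left _ _)
  have hδb : δ ≤ δ2 := (min_le_left _ _).trans (min_le_right _ _)
  have hδc : δ ≤ ε1 / D := min_le_right _ _
  have hδ1 : δ < 1 := lt_of_le_of_lt hδa hδ11
  set P : ℝ := ((g.d.primeFactors.card : ℕ) : ℝ) with hP
  have hP0 : 0 ≤ P := Nat.cast_nonneg _
  refine ⟨δ, P * (m * (2 ^ (a + 2) * K1 + 1)) + K2 * (g.d + 1) * K3 + C3 + Y0, hδ0, hδ1,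
    by positivity, ?_⟩
  intro X Y hY A hA hbad
  have hYp : 0 < Y := by linarith
  have hY1δ : 1 ≤ Y ^ (1 - δ) := Real.one_le_rpow hY (by linarith)
  obtain ⟨N, hN1, hN2, hNM⟩ := scale g.d hd2 Y hY
  have hN0 : (0 : ℝ) ≤ N := Nat.cast_nonneg _
  have hE0 : (0 : ℝ) ≤ P * (m * (2 ^ (a + 2) * K1 + 1)) + K2 * (g.d + 1) * K3 + C3 := by positivity
  rcases lt_or_ge Y Y0 with hsmall | hbig
  · have h1 : (A.card : ℝ) ≤ Y := by
      have h2 := Finset.card_le_card hA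
      rw [Int.card_Ioc] at h2
      have h3 : (X + ⌊Y⌋₊ - X).toNat = ⌊Y⌋₊ := by omega
      rw [h3] at h2
      have h4 : (A.card : ℝ) ≤ ⌊Y⌋₊ := by exact_mod_cast h2
      exact h4.trans (Nat.floor_le hYp.le)
    calc (A.card : ℝ) ≤ Y := h1
      _ ≤ Y0 * 1 := by linarith
      _ ≤ Y0 * Y ^ (1 - δ) := by gcongr
      _ ≤ _ := by
          apply mul_le_mul_of_nonneg_right _ (by positivity)
          linarith
  obtain ⟨hNa, hYε, hRN⟩ := hlarge Y hbig N hN1 hN2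
  have ha0 : (0 : ℝ) ≤ a := Nat.cast_nonneg _
  set j0 : ℕ := ⌊θ * N⌋₊ with hj0
  have hj0a : a + 1 ≤ j0 := by
    rw [hj0]; apply Nat.le_floor; push_cast; exact hNa
  have hj0u : (j0 : ℝ) ≤ θ * N := Nat.floor_le (by positivity)
  have hj0l : θ * N < j0 + 1 := Nat.lt_floor_add_one _
  have hj0N : j0 ≤ N := by
    have h1 : (j0 : ℝ) ≤ N := by
      calc (j0 : ℝ) ≤ θ * N := hj0u
        _ ≤ 1 * N := mul_le_mul_of_nonneg_right hθ1 hN0
        _ = N := one_mul _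
    exact_mod_cast h1
  set l : ℕ := (j0 - a) / M with hl
  set Q : ℕ := ⌊Y⌋₊ with hQ
  have hQY : (Q : ℝ) ≤ Y := Nat.floor_le hYp.le
  -- the exceptional sets
  set G : ℤ → Prop := fun n => ∀ p : ℕ, p.Prime → p ∣ g.d → ¬ ((p : ℤ) ^ j0) ∣ w.eval n with hG
  set A0 := A.filter (fun n : ℤ => G n ∧ Y ^ (D - ε1) ≤ |((f.eval n : ℤ) : ℝ)|) with hA0
  set V := A0.image (fun n : ℤ => f.eval n % (g.d : ℤ) ^ N) with hV
  set E1 := g.d.primeFactors.biUnion (fun p : ℕ => (Ioc X (X + Q)).filter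
    (fun n : ℤ => ((p : ℤ) ^ j0) ∣ w.eval n)) with hE1
  set E3 := A.filter (fun n : ℤ => |((f.eval n : ℤ) : ℝ)| < Y ^ (D - ε1)) with hE3
  have hsub : A ⊆ E1 ∪ (A0 ∪ E3) := by
    intro n hn
    rw [mem_union, mem_union]
    by_cases h3 : |((f.eval n : ℤ) : ℝ)| < Y ^ (D - ε1)
    · right; right; rw [hE3, mem_filter]; exact ⟨hn, h3⟩
    by_cases h1 : G n
    · right; left
      rw [hA0, mem_filter]
      exact ⟨hn, h1, not_lt.1 h3⟩
    · left
      rw [hG] at h1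
      push Not at h1
      obtain ⟨p, hp, hpd, hdv⟩ := h1
      rw [hE1, mem_biUnion]
      refine ⟨p, ?_, ?_⟩
      · rw [Nat.mem_primeFactors]; exact ⟨hp, hpd, by omega⟩
      · rw [mem_filter]; exact ⟨hA hn, hdv⟩
  have hcard : A.card ≤ E1.card + (A0.card + E3.card) :=
    (Finset.card_le_card hsub).trans ((Finset.card_union_le _ _).trans
      (Nat.add_le_add_left (Finset.card_union_le _ _) _))
  -- `E1`
  have hB1 : (E1.card : ℝ) ≤ P * (m * (2 ^ (a + 2) * K1 + 1)) * Y ^ (1 - δ) := by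
    have h1 : E1.card ≤ ∑ p ∈ g.d.primeFactors, m * (Q / 2 ^ l + 1) := by
      refine Finset.card_biUnion_le.trans ?_
      apply Finset.sum_le_sum
      intro p hp
      rw [Nat.mem_primeFactors] at hp
      apply count1 hw0 hm (L := 2 ^ l) Nat.one_le_two_pow
      have h1 : l * M ≤ j0 - a := Nat.div_mul_le_self _ _
      calc (((2 ^ l : ℕ) : ℤ)) ^ ((m + 1) * (m + 1)) * |w.leadingCoeff|
          < (((2 ^ l : ℕ) : ℤ)) ^ ((m + 1) * (m + 1)) * 2 ^ a :=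
            mul_lt_mul_of_pos_left ha1 (by positivity)
        _ = (2 : ℤ) ^ (l * M + a) := by
            push_cast
            rw [← pow_mul, ← pow_add]
        _ ≤ 2 ^ j0 := pow_le_pow_right₀ (by norm_num) (by omega)
        _ ≤ (p : ℤ) ^ j0 := by
            apply pow_le_pow_left₀ (by norm_num)
            exact_mod_cast hp.1.two_le
    rw [Finset.sum_const, smul_eq_mul] at h1
    have h2 : (E1.card : ℝ) ≤ P * (m * (((Q / 2 ^ l : ℕ) : ℝ) + 1)) := by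
      rw [hP]; exact_mod_cast h1
    have h3 : ((Q / 2 ^ l : ℕ) : ℝ) ≤ 2 ^ (a + 2) * K1 * Y ^ (1 - δ) := by
      have h4 : ((Q / 2 ^ l : ℕ) : ℝ) ≤ (Q : ℝ) / 2 ^ l := by
        have := Nat.cast_div_le (α := ℝ) (m := Q) (n := 2 ^ l)
        push_cast at this
        exact this
      have h5 : (Q : ℝ) / 2 ^ l ≤ Y * Real.exp (-(l * Real.log 2)) := by
        rw [Real.exp_neg, Real.exp_nat_mul, Real.exp_log (by norm_num), div_eq_mul_inv]
        gcongr
      have h9 : j0 - a < (l + 1) * M := by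
        have := Nat.lt_div_mul_add (a := j0 - a) (b := M) (by omega)
        rw [← hl] at this
        linarith [this, Nat.add_mul l 1 M]
      have h10 : (j0 : ℝ) - a < ((l : ℝ) + 1) * M := by
        have : ((j0 - a : ℕ) : ℝ) < (((l + 1) * M : ℕ) : ℝ) := by exact_mod_cast h9
        rw [Nat.cast_sub (by omega)] at this
        push_cast at this
        exact this
      have h11 : θ * N - 1 - a < ((l : ℝ) + 1) * M := by linarith
      have h12 : (θ * N - 1 - a) / M < (l : ℝ) + 1 := by rwa [div_lt_iff₀ hMp]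
      have h13 : (θ * N - 1 - a) / M = θ / M * N - (1 + a) / M := by
        field_simp; ring
      have h14 : (1 + (a : ℝ)) / M ≤ 1 + a := div_le_self (by linarith) hM1r
      have h15 : θ / M * N - (a + 2) ≤ l := by linarith
      have h16 : Real.exp (-(l * Real.log 2)) ≤ 2 ^ (a + 2) * Real.exp (-(θ * Real.log 2 / M * N)) := by
        have e1 : (2 : ℝ) ^ (a + 2) = Real.exp (((a : ℝ) + 2) * Real.log 2) := by
          have : ((a : ℝ) + 2) = ((a + 2 : ℕ) : ℝ) := by push_cast; ring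
          rw [this, Real.exp_nat_mul, Real.exp_log (by norm_num)]
        rw [e1, ← Real.exp_add]
        apply Real.exp_le_exp.2
        have h17 := mul_le_mul_of_nonneg_right h15 hl2.le
        have e2 : (θ / M * N - (a + 2)) * Real.log 2 = θ * Real.log 2 / M * N - (a + 2) * Real.log 2 := by
          ring
        rw [e2] at h17
        linarith
      have h18 := hconv1 N Y hY hN2
      have h19 : Real.exp (-(θ * Real.log 2 / M * N)) * Y ≤
          ((N : ℝ) + 1) * Real.exp (-(θ * Real.log 2 / M * N)) * Y := by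
        apply mul_le_mul_of_nonneg_right _ hYp.le
        exact le_mul_of_one_le_left (Real.exp_pos _).le (by linarith)
      calc ((Q / 2 ^ l : ℕ) : ℝ) ≤ (Q : ℝ) / 2 ^ l := h4
        _ ≤ Y * Real.exp (-(l * Real.log 2)) := h5
        _ ≤ Y * (2 ^ (a + 2) * Real.exp (-(θ * Real.log 2 / M * N))) :=
            mul_le_mul_of_nonneg_left h16 hYp.le
        _ = 2 ^ (a + 2) * (Real.exp (-(θ * Real.log 2 / M * N)) * Y) := by ring
        _ ≤ 2 ^ (a + 2) * (K1 * Y ^ (1 - δ1)) :=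
            mul_le_mul_of_nonneg_left (h19.trans h18) (by positivity)
        _ ≤ 2 ^ (a + 2) * (K1 * Y ^ (1 - δ)) := by
            gcongr
        _ = 2 ^ (a + 2) * K1 * Y ^ (1 - δ) := by ring
    calc (E1.card : ℝ) ≤ P * (m * (((Q / 2 ^ l : ℕ) : ℝ) + 1)) := h2
      _ ≤ P * (m * (2 ^ (a + 2) * K1 * Y ^ (1 - δ) + Y ^ (1 - δ))) := by gcongr
      _ = P * (m * (2 ^ (a + 2) * K1 + 1)) * Y ^ (1 - δ) := by ring
  -- `A0`
  have hB2 : (A0.card : ℝ) ≤ K2 * (g.d + 1) * K3 * Y ^ (1 - δ) := by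
    have hVc : (V.card : ℝ) ≤ K2 * ((N + 1) * ((g.d : ℝ) ^ N * Real.exp (-(c * N)))) := by
      apply hclass N V
      intro v hv
      rw [hV, mem_image] at hv
      obtain ⟨n, hn, rfl⟩ := hv
      rw [hA0, mem_filter] at hn
      obtain ⟨hnA, -, hbign⟩ := hn
      obtain ⟨hS, hT⟩ := hbad n hnA
      refine ⟨f.eval n, hS, ?_, rfl⟩
      by_contra hU
      exact hT (typ_of g hκ0 hκ hε10 hε1ε hε1β hY hN1 hN2 hYε hRN hbign hU)
    have h1 : A0.card ≤ V.card * (g.d ^ j0 * (g.d ^ (j0 + 1) + 1)) := by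
      refine le_trans (Finset.card_le_card ?_) (count2 (f := f) hd2 hj0N hNM X V)
      intro n hn
      have hnV : f.eval n % (g.d : ℤ) ^ N ∈ V := by
        rw [hV]; exact mem_image_of_mem _ hn
      rw [hA0, mem_filter] at hn
      rw [mem_filter]
      exact ⟨hA hn.1, hn.2.1, hnV⟩
    have h2 : (A0.card : ℝ) ≤ V.card * ((g.d : ℝ) ^ j0 * ((g.d : ℝ) ^ (j0 + 1) + 1)) := by
      exact_mod_cast h1
    have h4 : (g.d : ℝ) ^ j0 * ((g.d : ℝ) ^ (j0 + 1) + 1) ≤ (g.d + 1) * Real.exp (c / 2 * N) := by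
      have h5 : (1 : ℝ) ≤ (g.d : ℝ) ^ j0 := one_le_pow₀ hd1.le
      have h6 : (g.d : ℝ) ^ j0 * ((g.d : ℝ) ^ (j0 + 1) + 1) ≤ (g.d + 1) * ((g.d : ℝ) ^ j0) ^ 2 := by
        rw [pow_succ (g.d : ℝ) j0]
        nlinarith
      have h7 : ((g.d : ℝ) ^ j0) ^ 2 = Real.exp (j0 * (2 * Real.log g.d)) := by
        rw [← pow_mul, mul_comm (j0 : ℝ), mul_comm (2 : ℝ), mul_assoc, mul_comm (Real.log _)]
        have : (2 : ℝ) * j0 = ((j0 * 2 : ℕ) : ℝ) := by push_cast; ring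
        rw [this, Real.exp_nat_mul, Real.exp_log hd0]
      refine h6.trans ?_
      rw [h7]
      apply mul_le_mul_of_nonneg_left _ (by positivity)
      apply Real.exp_le_exp.2
      have h8 : (j0 : ℝ) * (2 * Real.log g.d) ≤ θ * N * (2 * Real.log g.d) :=
        mul_le_mul_of_nonneg_right hj0u (by positivity)
      have h9 : θ * N * (2 * Real.log g.d) = 2 * θ * Real.log g.d * N := by ring
      rw [h9] at h8
      exact h8.trans (mul_le_mul_of_nonneg_right hθc hN0)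
    have h18 := hconv2 N Y hY hN2
    calc (A0.card : ℝ) ≤ V.card * ((g.d : ℝ) ^ j0 * ((g.d : ℝ) ^ (j0 + 1) + 1)) := h2
      _ ≤ (K2 * ((N + 1) * ((g.d : ℝ) ^ N * Real.exp (-(c * N))))) *
          ((g.d + 1) * Real.exp (c / 2 * N)) := by gcongr
      _ = K2 * (g.d + 1) * (((N : ℝ) + 1) * (Real.exp (-(c * N)) * Real.exp (c / 2 * N)) *
          (g.d : ℝ) ^ N) := by ring
      _ = K2 * (g.d + 1) * (((N : ℝ) + 1) * Real.exp (-(c / 2 * N)) * (g.d : ℝ) ^ N) := by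
          rw [← Real.exp_add]
          have : -(c * N) + c / 2 * N = -(c / 2 * N) := by ring
          rw [this]
      _ ≤ K2 * (g.d + 1) * (((N : ℝ) + 1) * Real.exp (-(c / 2 * N)) * Y) := by gcongr
      _ ≤ K2 * (g.d + 1) * (K3 * Y ^ (1 - δ2)) := by gcongr
      _ ≤ K2 * (g.d + 1) * (K3 * Y ^ (1 - δ)) := by
          gcongr
      _ = K2 * (g.d + 1) * K3 * Y ^ (1 - δ) := by ring
  -- `E3`
  have hB3 : (E3.card : ℝ) ≤ C3 * Y ^ (1 - δ) := by
    have h0 : 0 ≤ D - ε1 := by linarith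
    have h1 := hfew (Y ^ (D - ε1)) (Real.one_le_rpow hY h0) E3 (by
      intro n hn
      rw [hE3, mem_filter] at hn
      exact hn.2)
    refine h1.trans ?_
    apply mul_le_mul_of_nonneg_left _ hC3.le
    rw [← Real.rpow_mul hYp.le]
    apply Real.rpow_le_rpow_of_exponent_le hY
    have e1 : (D - ε1) * (1 / D) = 1 - ε1 / D := by field_simp
    rw [e1]
    linarith
  have hcard' : (A.card : ℝ) ≤ E1.card + (A0.card + E3.card) := by exact_mod_cast hcard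
  calc (A.card : ℝ) ≤ E1.card + (A0.card + E3.card) := hcard'
    _ ≤ P * (m * (2 ^ (a + 2) * K1 + 1)) * Y ^ (1 - δ) + (K2 * (g.d + 1) * K3 * Y ^ (1 - δ) +
        C3 * Y ^ (1 - δ)) := by gcongr
    _ = (P * (m * (2 ^ (a + 2) * K1 + 1)) + K2 * (g.d + 1) * K3 + C3) * Y ^ (1 - δ) := by ring
    _ ≤ (P * (m * (2 ^ (a + 2) * K1 + 1)) + K2 * (g.d + 1) * K3 + C3 + Y0) * Y ^ (1 - δ) := by
        apply mul_le_mul_of_nonneg_right _ (by positivity)
        linarith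

end Pool.Agent.Y927.GP
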