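import Pool.Agent.Y927.GP.M2

/-! Pairs of polynomials: the spread of the quotients modulo powers of two. -/

set_option autoImplicit false

namespace Pool.Agent.Y927.GP.K

open Finset Polynomial Pool.Agent.H319R2.M
open Pool.Agent.Y927.CP (pow_dvd_or)

/-- `f' g - f g'` -/
noncomputable def Wr (f g : ℤ[X]) : ℤ[X] := f.derivative * g - f * g.derivative

theorem Wr_ne {f g : ℤ[X]} (hg : g ≠ 0) (hdeg : g.natDegree < f.natDegree) : Wr f g ≠ 0 := by
  intro h
  have hf : f ≠ 0 := by
    rintro rfl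
    simp at hdeg
  obtain ⟨a, ha⟩ : ∃ a, f.natDegree = a + 1 := ⟨f.natDegree - 1, by omega⟩
  have h1 : (f.derivative * g).coeff (a + g.natDegree) = f.leadingCoeff * (a + 1) * g.leadingCoeff := by
    rw [coeff_mul_add_eq_of_natDegree_le (df := a) (dg := g.natDegree) (by
      have := natDegree_derivative_le f
      omega) le_rfl]
    rw [coeff_derivative]
    unfold leadingCoeff
    rw [ha]
  have h2 : (f * g.derivative).coeff (a + g.natDegree) =
      f.leadingCoeff * (g.natDegree : ℤ) * g.leadingCoeff := by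
    rcases Nat.eq_zero_or_pos g.natDegree with h0 | h0
    · have h3 : g.derivative = 0 := by
        rw [eq_C_of_natDegree_eq_zero h0, derivative_C]
      rw [h3, h0]; simp
    · obtain ⟨b, hb⟩ : ∃ b, g.natDegree = b + 1 := ⟨g.natDegree - 1, by omega⟩
      have e1 : a + g.natDegree = f.natDegree + b := by omega
      rw [e1, coeff_mul_add_eq_of_natDegree_le (df := f.natDegree) (dg := b) le_rfl (by
        have := natDegree_derivative_le g
        omega)]
      rw [coeff_derivative]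
      unfold leadingCoeff
      rw [hb]
      push_cast
      ring
  have h3 : (Wr f g).coeff (a + g.natDegree) = 0 := by rw [h]; simp
  unfold Wr at h3
  rw [coeff_sub, h1, h2] at h3
  have h4 : f.leadingCoeff * g.leadingCoeff * ((a : ℤ) + 1 - g.natDegree) = 0 := by linarith
  rcases mul_eq_zero.1 h4 with h5 | h5
  · rcases mul_eq_zero.1 h5 with h6 | h6
    · exact hf (leadingCoeff_eq_zero.1 h6)
    · exact hg (leadingCoeff_eq_zero.1 h6)
  · omega

theorem rigid2 {f g : ℤ[X]} {N j : ℕ} (hjN : j ≤ N) {n n' : ℤ} (hlt : n < n')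
    (hclose : n' - n < (2 : ℤ) ^ (N - j)) (hj : ((2 : ℤ) ^ j) ∣ n' - n)
    (hf : ((2 : ℤ) ^ N) ∣ f.eval n' * g.eval n - f.eval n * g.eval n') :
    ((2 : ℤ) ^ j) ∣ (Wr f g).eval n := by
  obtain ⟨r, hr⟩ := f.binomExpansion n (n' - n)
  obtain ⟨s, hs⟩ := g.binomExpansion n (n' - n)
  have e1 : n + (n' - n) = n' := by ring
  rw [e1] at hr hs
  set h : ℤ := n' - n with hh
  have h1 : f.eval n' * g.eval n - f.eval n * g.eval n' =
      h * ((Wr f g).eval n + (r * g.eval n - f.eval n * s) * h) := by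
    rw [hr, hs]
    unfold Wr
    simp only [eval_sub, eval_mul]
    ring
  rw [h1] at hf
  have hpos : 0 < h := by omega
  have hf' : (((2 : ℕ) : ℤ) ^ N) ∣ h * ((Wr f g).eval n + (r * g.eval n - f.eval n * s) * h) := by
    exact_mod_cast hf
  rcases pow_dvd_or Nat.prime_two hf' hjN with h5 | h5
  · exfalso
    have h6 : ((2 : ℤ) ^ (N - j)) ∣ h := by exact_mod_cast h5
    have := Int.le_of_dvd hpos h6
    omega
  · have h5' : ((2 : ℤ) ^ j) ∣ (Wr f g).eval n + (r * g.eval n - f.eval n * s) * h := by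
      exact_mod_cast h5
    have h6 : ((2 : ℤ) ^ j) ∣ (r * g.eval n - f.eval n * s) * h := Dvd.dvd.mul_left hj _
    have h7 := dvd_sub h5' h6
    have e2 : (Wr f g).eval n + (r * g.eval n - f.eval n * s) * h - (r * g.eval n - f.eval n * s) * h =
        (Wr f g).eval n := by ring
    rwa [e2] at h7

/-- The number of the `n` of an interval with the same quotient `f n / g n` modulo `2 ^ N`. -/
theorem count3 {f g : ℤ[X]} {N j M : ℕ} (hjN : j ≤ N) (hM : M ≤ 2 ^ (N + 1)) {X : ℤ} {A : Finset ℤ}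
    (hA : A ⊆ Ioc X (X + M)) (hW : ∀ n ∈ A, ¬ ((2 : ℤ) ^ j) ∣ (Wr f g).eval n) (Z : ℤ → ℤ)
    (hZ : ∀ n ∈ A, ((2 : ℤ) ^ N) ∣ g.eval n * Z n - f.eval n) :
    A.card ≤ (A.image Z).card * (2 ^ j * (2 ^ (j + 1) + 1)) := by
  classical
  have h0 : ((A.image Z) ×ˢ (range (2 ^ j) ×ˢ range (2 ^ (j + 1) + 1))).card =
      (A.image Z).card * (2 ^ j * (2 ^ (j + 1) + 1)) := by
    rw [card_product, card_product, card_range, card_range]
  rw [← h0]
  have hdj : (0 : ℤ) < (2 : ℤ) ^ j := by positivity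
  -- congruence of the quotients
  have hcong : ∀ n ∈ A, ∀ n' ∈ A, Z n = Z n' →
      ((2 : ℤ) ^ N) ∣ f.eval n' * g.eval n - f.eval n * g.eval n' := by
    intro n hn n' hn' he
    have h1 := (hZ n hn).mul_left (g.eval n')
    have h2 := (hZ n' hn').mul_left (g.eval n)
    have h3 := dvd_sub h1 h2
    have e : g.eval n' * (g.eval n * Z n - f.eval n) - g.eval n * (g.eval n' * Z n' - f.eval n') =
        f.eval n' * g.eval n - f.eval n * g.eval n' := by rw [he]; ring
    rwa [e] at h3
  apply Finset.card_le_card_of_injOn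
    (fun n : ℤ => (Z n, ((n % (2 : ℤ) ^ j).toNat, (n - X - 1).toNat / 2 ^ (N - j))))
  · intro n hn
    rw [mem_coe] at hn
    have hnI := hA hn
    rw [mem_Ioc] at hnI
    rw [mem_coe, mem_product, mem_product]
    refine ⟨mem_image_of_mem _ hn, ?_, ?_⟩
    · rw [mem_range]
      have h1 := Int.emod_nonneg n hdj.ne'
      have h2 := Int.emod_lt_of_pos n hdj
      have h3 : ((n % (2 : ℤ) ^ j).toNat : ℤ) < ((2 ^ j : ℕ) : ℤ) := by
        rw [Int.toNat_of_nonneg h1]; push_cast; exact h2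
      exact_mod_cast h3
    · rw [mem_range]
      have h2 : (n - X - 1).toNat ≤ 2 ^ (N - j) * 2 ^ (j + 1) := by
        rw [← pow_add]
        have : N - j + (j + 1) = N + 1 := by omega
        rw [this]
        omega
      have h3 := Nat.div_le_div_right (c := 2 ^ (N - j)) h2
      rw [Nat.mul_div_cancel_left _ (by positivity)] at h3
      exact Nat.lt_succ_of_le h3
  · intro n hn n' hn' heq
    rw [mem_coe] at hn hn'
    have hnI := hA hn
    have hnI' := hA hn'
    rw [mem_Ioc] at hnI hnI'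
    simp only [Prod.mk.injEq] at heq
    obtain ⟨e1, e2, e3⟩ := heq
    have hmod := hcong n hn n' hn' e1
    have hmod' := hcong n' hn' n hn e1.symm
    have e2' : n % (2 : ℤ) ^ j = n' % (2 : ℤ) ^ j := by
      have h1 := Int.emod_nonneg n hdj.ne'
      have h2 := Int.emod_nonneg n' hdj.ne'
      omega
    have hmodj : ((2 : ℤ) ^ j) ∣ n' - n := Int.ModEq.dvd e2'
    have hpow1 : 1 ≤ 2 ^ (N - j) := Nat.one_le_two_pow
    rcases lt_trichotomy n n' with h | h | h
    · exfalso
      exact hW n hn (rigid2 hjN h (by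
        have := blk hpow1 hnI.1 hnI'.1 e3
        push_cast at this
        exact this) hmodj hmod)
    · exact h
    · exfalso
      exact hW n' hn' (rigid2 hjN h (by
        have := blk hpow1 hnI'.1 hnI.1 e3.symm
        push_cast at this
        exact this)
        (by have := (dvd_neg.2 hmodj); rwa [neg_sub] at this) hmod')

theorem few_ratio {f g : ℤ[X]} (hdeg : g.natDegree < f.natDegree) : ∃ C : ℝ, 0 < C ∧ ∀ Z : ℝ, 1 ≤ Z →
    ∀ A : Finset ℤ, (∀ n ∈ A, |((f.eval n : ℤ) : ℝ)| < |((g.eval n : ℤ) : ℝ)| * Z) →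
      (A.card : ℝ) ≤ C * Z ^ (1 / ((f.natDegree - g.natDegree : ℕ) : ℝ)) := by
  obtain ⟨n0, hn0, hlo⟩ := growth_lo (f := f) (by omega)
  obtain ⟨C1, hC1, hup⟩ := growth_up g
  obtain ⟨m, hm⟩ : ∃ m, f.natDegree = g.natDegree + m := ⟨f.natDegree - g.natDegree, by omega⟩
  have hm' : f.natDegree - g.natDegree = m := by omega
  have hm1 : 1 ≤ m := by omega
  rw [hm']
  set D : ℝ := (m : ℝ) with hDdef
  have hD1 : 1 ≤ D := by rw [hDdef]; exact_mod_cast hm1
  have hD0 : 0 < D := by linarith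
  refine ⟨2 * n0 + 4 * C1 + 1, by linarith, fun Z hZ A hA => ?_⟩
  have hZp : 0 < Z := by linarith
  set K : ℝ := n0 + 2 * C1 * Z ^ (1 / D) with hK
  have hZ1 : 1 ≤ Z ^ (1 / D) := Real.one_le_rpow hZ (by positivity)
  have hK0 : 0 ≤ K := by rw [hK]; positivity
  have hsub : A ⊆ Icc (-⌊K⌋) ⌊K⌋ := by
    intro n hn
    have h1 := hA n hn
    have h2 : |(n : ℝ)| ≤ K := by
      rcases le_or_gt n0 |(n : ℝ)| with h | h
      · have hn1 : 1 ≤ |(n : ℝ)| := hn0.trans h
        have hnp : 0 < |(n : ℝ)| := by linarith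
        have h3 := hlo n h
        have h3' := hup n hn1
        have h4 : |(n : ℝ)| ^ m ≤ 2 * C1 * Z := by
          have h5 : |(n : ℝ)| ^ (g.natDegree + m) / 2 ≤ C1 * |(n : ℝ)| ^ g.natDegree * Z := by
            rw [← hm]
            refine h3.trans (h1.le.trans ?_)
            exact mul_le_mul_of_nonneg_right h3' hZp.le
          rw [pow_add] at h5
          have hp : 0 < |(n : ℝ)| ^ g.natDegree := by positivity
          have h6 : |(n : ℝ)| ^ g.natDegree * |(n : ℝ)| ^ m ≤
              |(n : ℝ)| ^ g.natDegree * (2 * C1 * Z) := by linarith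
          exact le_of_mul_le_mul_left h6 hp
        have h5 : |(n : ℝ)| ≤ (2 * C1 * Z) ^ (1 / D) := by
          have h6 : (|(n : ℝ)| ^ m) ^ (1 / D) ≤ (2 * C1 * Z) ^ (1 / D) :=
            Real.rpow_le_rpow (by positivity) h4 (by positivity)
          rw [← Real.rpow_natCast, ← Real.rpow_mul (abs_nonneg _)] at h6
          have e : (m : ℝ) * (1 / D) = 1 := by rw [← hDdef]; field_simp
          rw [e, Real.rpow_one] at h6
          exact h6
        have h7 : (2 * C1 * Z) ^ (1 / D) ≤ 2 * C1 * Z ^ (1 / D) := by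
          rw [Real.mul_rpow (by positivity) hZp.le]
          apply mul_le_mul_of_nonneg_right _ (by positivity)
          calc (2 * C1 : ℝ) ^ (1 / D) ≤ (2 * C1) ^ (1 : ℝ) := by
                apply Real.rpow_le_rpow_of_exponent_le (by linarith)
                rw [div_le_one hD0]; exact hD1
            _ = 2 * C1 := Real.rpow_one _
        rw [hK]; linarith
      · rw [hK]
        have : 0 ≤ 2 * C1 * Z ^ (1 / D) := by positivity
        linarith
    rw [abs_le] at h2
    rw [mem_Icc]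
    constructor
    · have : ((-n : ℤ) : ℝ) ≤ K := by push_cast; linarith
      have := Int.le_floor.2 this
      omega
    · exact Int.le_floor.2 h2.2
  have h1 := Finset.card_le_card hsub
  rw [Int.card_Icc] at h1
  have h2 : (A.card : ℝ) ≤ 2 * K + 1 := by
    have h3 : (0 : ℤ) ≤ ⌊K⌋ := Int.floor_nonneg.2 hK0
    have h4 : ((⌊K⌋ + 1 - -⌊K⌋).toNat : ℤ) = 2 * ⌊K⌋ + 1 := by
      rw [Int.toNat_of_nonneg (by omega)]; ring
    have h5 : (A.card : ℤ) ≤ 2 * ⌊K⌋ + 1 := by rw [← h4]; exact_mod_cast h1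
    have h6 : (A.card : ℝ) ≤ 2 * (⌊K⌋ : ℝ) + 1 := by exact_mod_cast h5
    have h7 := Int.floor_le K
    linarith
  refine h2.trans ?_
  rw [hK]
  nlinarith

end Pool.Agent.Y927.GP.K
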