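import Pool.Agent.Y927.GP.K1

/-! The maps `3 x + k`: the trajectories of `f n` for `k = g n`. -/

set_option autoImplicit false

namespace Pool.Agent.Y927.GP.K

open Finset Polynomial Pool.Agent.H319R2 Pool.Agent.H319R2.M
open Pool.Agent.Y927.GP.Mo (mm rr CC)

/-- the map `3 x + k` -/
def T (k x : ℤ) : ℤ := if x % 2 = 0 then x / 2 else (3 * x + k) / 2

theorem dat (k : ℤ) (hk : k % 2 = 1) :
    Leigh.Data 2 (mm 3) (rr (fun _ => -k)) (mm 3) (fun _ => 1) :=
  Mo.data le_rfl (by norm_num) (by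
    intro j h1 h2
    have : j = 1 := by omega
    subst this
    push_cast
    omega)

/-- the map as an object of the library -/
noncomputable def G (k : ℤ) (hk : k % 2 = 1) : GM := Leigh.gm (dat k hk)

theorem G_T (k : ℤ) (hk : k % 2 = 1) : (G k hk).T = T k := by
  unfold G
  rw [Leigh.gm_T, Mo.T_eq]
  funext x
  unfold Mo.T T
  push_cast
  rw [sub_neg_eq_add]

theorem G_d (k : ℤ) (hk : k % 2 = 1) : (G k hk).d = 2 := rfl

theorem G_a (k : ℤ) (hk : k % 2 = 1) : (G k hk).a = fun i : ℤ => |((mm 3 i : ℤ) : ℝ)| / ((2 : ℕ) : ℝ) := rfl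

theorem G_R (k : ℤ) (hk : k % 2 = 1) : (G k hk).R = |(k : ℝ)| := by
  unfold GM.R
  have h1 : (G k hk).r = rr (fun _ => -k) := rfl
  rw [h1, G_d, sum_range_succ, sum_range_one]
  unfold rr
  simp

theorem T_scale {k : ℤ} (hk : k % 2 = 1) (z : ℤ) : T k (k * z) = k * T 1 z := by
  obtain ⟨a, ha⟩ : ∃ a, k = 2 * a + 1 := ⟨k / 2, by omega⟩
  rcases Int.emod_two_eq_zero_or_one z with h | h
  · obtain ⟨b, hb⟩ : ∃ b, z = 2 * b := ⟨z / 2, by omega⟩
    have h1 : (k * z) % 2 = 0 := by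
      rw [hb, show k * (2 * b) = 2 * (k * b) by ring]; exact Int.mul_emod_right _ _
    unfold T
    rw [if_pos h1, if_pos h, hb, show k * (2 * b) = 2 * (k * b) by ring,
      Int.mul_ediv_cancel_left _ (by norm_num), Int.mul_ediv_cancel_left _ (by norm_num)]
  · obtain ⟨b, hb⟩ : ∃ b, z = 2 * b + 1 := ⟨z / 2, by omega⟩
    have h1 : ¬ (k * z) % 2 = 0 := by
      rw [Int.mul_emod, hk, h]; norm_num
    unfold T
    rw [if_neg h1, if_neg (by omega), hb,
      show 3 * (k * (2 * b + 1)) + k = 2 * (k * (3 * b + 2)) by ring,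
      show 3 * (2 * b + 1) + 1 = 2 * (3 * b + 2) by ring,
      Int.mul_ediv_cancel_left _ (by norm_num), Int.mul_ediv_cancel_left _ (by norm_num)]

theorem iter_scale {k : ℤ} (hk : k % 2 = 1) (j : ℕ) (z : ℤ) : (T k)^[j] (k * z) = k * (T 1)^[j] z := by
  induction j generalizing z with
  | zero => rfl
  | succ j ih => rw [Function.iterate_succ_apply, Function.iterate_succ_apply, T_scale hk, ih]

theorem prod_scale {k : ℤ} (hk : k % 2 = 1) (j : ℕ) (z : ℤ) :
    (G k hk).prod j (k * z) = (G 1 (by norm_num)).prod j z := by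
  unfold GM.prod
  apply prod_congr rfl
  intro i _
  rw [G_T, G_T, iter_scale hk, G_a, G_a, G_d, G_d]
  have h1 : (k * (T 1)^[i] z) % ((2 : ℕ) : ℤ) = ((T 1)^[i] z) % ((2 : ℕ) : ℤ) := by
    push_cast
    rw [Int.mul_emod, hk, one_mul, Int.emod_emod_of_dvd _ (dvd_refl 2)]
  rw [h1]

theorem unb_scale {k : ℤ} (hk : k % 2 = 1) {μ η : ℝ} {N : ℕ} {x z : ℤ}
    (hz : ((2 : ℤ) ^ N) ∣ k * z - x) (h : Unb (G k hk) μ η N x) :
    Unb (G 1 (by norm_num)) μ η N z := by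
  have h1 : Unb (G k hk) μ η N (k * z) := by
    apply unb_congr μ η N _ h
    rw [G_d]
    push_cast
    exact Int.modEq_iff_dvd.2 hz
  obtain ⟨j, hj, h2⟩ := h1
  refine ⟨j, hj, ?_⟩
  rw [← prod_scale hk]
  exact h2

/-- `log (√3 / 2)` -/
noncomputable def lam : ℝ := Real.log 3 / 2 - Real.log 2

theorem mu_G : mu (G 1 (by norm_num)) (CC 2) (fun _ => 1 / ((2 : ℕ) : ℝ)) = lam := by
  unfold G lam
  rw [Mo.mu_eq le_rfl (dat 1 (by norm_num))]
  push_cast
  ring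

/-- `1 - log 3 / log 4` -/
noncomputable def kap : ℝ := 1 - Real.log 3 / Real.log 4

theorem log_four : Real.log 4 = 2 * Real.log 2 := by
  rw [← Real.log_rpow (by norm_num)]; norm_num

theorem lam_eq : lam = -kap * Real.log 2 := by
  unfold lam kap
  have hl2 : 0 < Real.log 2 := Real.log_pos (by norm_num)
  rw [log_four]
  field_simp
  ring

theorem kap_pos : 0 < kap := by
  unfold kap
  have h4 : 0 < Real.log 4 := Real.log_pos (by norm_num)
  have : Real.log 3 / Real.log 4 < 1 := by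
    rw [div_lt_one h4]
    exact Real.log_lt_log (by norm_num) (by norm_num)
  linarith

theorem kap_lt : kap < 1 := by
  unfold kap
  have h4 : 0 < Real.log 4 := Real.log_pos (by norm_num)
  have h3 : 0 < Real.log 3 := Real.log_pos (by norm_num)
  have : 0 < Real.log 3 / Real.log 4 := by positivity
  linarith

theorem typ_ofR (g : GM) {μ κ D ε ε1 Y : ℝ} (hκ0 : 0 ≤ κ) (hκ : -μ ≤ κ * Real.log g.d) (hε1 : 0 < ε1)
    (hε : ε1 ≤ ε) (hβ : ε1 ≤ (D - κ) / 4) (hY : 1 ≤ Y) {N : ℕ} (hN1 : (g.d : ℝ) ^ N ≤ Y)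
    (hN2 : Y < (g.d : ℝ) ^ (N + 1)) (h2 : 2 ≤ Y ^ (ε1 / 4))
    (hR : 2 * 1 * N ≤ Y ^ ((D - κ) / 2)) {x : ℤ} (hx : g.R * Y ^ (D - ε1) ≤ |(x : ℝ)|)
    (hU : ¬ Unb g μ (ε1 / 4 * Real.log g.d) N x) : Typ g μ ε Y x := by
  intro j hj
  have hd1 : (1 : ℝ) < g.d := by have := g.dr; linarith
  have hd0 : (0 : ℝ) < g.d := by linarith
  have hL := Real.log_pos hd1
  have hYp : 0 < Y := by linarith
  have hjN : j ≤ N := by
    by_contra hcon
    push Not at hcon
    have : (g.d : ℝ) ^ (N + 1) ≤ (g.d : ℝ) ^ j := pow_le_pow_right₀ hd1.le hcon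
    linarith
  have hexp : Real.exp (ε1 / 4 * Real.log g.d * N) ≤ Y ^ (ε1 / 4) := by
    calc Real.exp (ε1 / 4 * Real.log g.d * N) = ((g.d : ℝ) ^ N) ^ (ε1 / 4) := by
          rw [← Real.rpow_natCast, ← Real.rpow_mul hd0.le, Real.rpow_def_of_pos hd0]
          congr 1; ring
      _ ≤ Y ^ (ε1 / 4) := Real.rpow_le_rpow (by positivity) hN1 (by positivity)
  have hmax : max 1 (Real.exp (-(j * μ))) ≤ Y ^ κ := by
    apply max_le (Real.one_le_rpow hY hκ0)
    calc Real.exp (-(j * μ)) ≤ Real.exp (j * (κ * Real.log g.d)) := by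
          apply Real.exp_le_exp.2
          have := mul_le_mul_of_nonneg_left hκ (Nat.cast_nonneg (α := ℝ) j)
          linarith
      _ = ((g.d : ℝ) ^ j) ^ κ := by
          rw [← Real.rpow_natCast, ← Real.rpow_mul hd0.le, Real.rpow_def_of_pos hd0]
          congr 1; ring
      _ ≤ Y ^ κ := Real.rpow_le_rpow (by positivity) hj hκ0
  have hlaw := law g (μ := μ) (η := ε1 / 4 * Real.log g.d) (N := N) (j := j) (x := x) hU hjN (by
    have hR0 := g.R_nonneg
    have hjr : (j : ℝ) ≤ N := by exact_mod_cast hjN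
    have h3 : j * (Real.exp (ε1 / 4 * Real.log g.d * N) * max 1 (Real.exp (-(j * μ)))) ≤
        N * (Y ^ (ε1 / 4) * Y ^ κ) := by
      gcongr
    have h4 : N * (Y ^ (ε1 / 4) * Y ^ κ) * 2 ≤ Y ^ ((D - κ) / 2) * (Y ^ (ε1 / 4) * Y ^ κ) := by
      have := mul_le_mul_of_nonneg_right hR (show 0 ≤ Y ^ (ε1 / 4) * Y ^ κ by positivity)
      linarith
    have h5 : Y ^ ((D - κ) / 2) * (Y ^ (ε1 / 4) * Y ^ κ) ≤ Y ^ (D - ε1) := by
      rw [← Real.rpow_add hYp, ← Real.rpow_add hYp]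
      apply Real.rpow_le_rpow_of_exponent_le hY
      linarith
    have h6 : j * (Real.exp (ε1 / 4 * Real.log g.d * N) * max 1 (Real.exp (-(j * μ)))) ≤
        Y ^ (D - ε1) / 2 := by linarith
    have h7 := mul_le_mul_of_nonneg_left h6 hR0
    linarith)
  have hX : 0 ≤ |(x : ℝ)| := abs_nonneg _
  set E := Real.exp (ε1 / 4 * Real.log g.d * N) with hE
  have hE0 : 0 < E := Real.exp_pos _
  have h7 : 2 * E ≤ Y ^ ε := by
    calc 2 * E ≤ Y ^ (ε1 / 4) * Y ^ (ε1 / 4) := by gcongr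
      _ = Y ^ (ε1 / 2) := by
          rw [← Real.rpow_add hYp]; congr 1; ring
      _ ≤ Y ^ ε := Real.rpow_le_rpow_of_exponent_le hY (by linarith)
  constructor
  · refine le_trans ?_ hlaw.1
    apply mul_le_mul_of_nonneg_right _ hX
    rw [Real.exp_sub, ← hE]
    have h6 : Y ^ (-ε) ≤ 1 / 2 * E⁻¹ := by
      rw [Real.rpow_neg hYp.le]
      calc (Y ^ ε)⁻¹ ≤ (2 * E)⁻¹ := inv_anti₀ (by positivity) h7
        _ = 1 / 2 * E⁻¹ := by rw [mul_inv]; norm_num
    calc Y ^ (-ε) * Real.exp (j * μ) ≤ 1 / 2 * E⁻¹ * Real.exp (j * μ) :=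
          mul_le_mul_of_nonneg_right h6 (Real.exp_pos _).le
      _ = 1 / 2 * (Real.exp (j * μ) / E) := by ring
  · refine hlaw.2.trans ?_
    apply mul_le_mul_of_nonneg_right _ hX
    rw [Real.exp_add, ← hE]
    calc 2 * (Real.exp (j * μ) * E) = 2 * E * Real.exp (j * μ) := by ring
      _ ≤ Y ^ ε * Real.exp (j * μ) := mul_le_mul_of_nonneg_right h7 (Real.exp_pos _).le

/-- The trajectory of `x` under `3 x + k` follows the law. -/
def TypK (k : ℤ) (ε Y : ℝ) (x : ℤ) : Prop :=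
  ∀ j : ℕ, (2 : ℝ) ^ j ≤ Y →
    Y ^ (-ε) * Real.exp (j * lam) * |(x : ℝ)| ≤ |(((T k)^[j] x : ℤ) : ℝ)| ∧
    |(((T k)^[j] x : ℤ) : ℝ)| ≤ Y ^ ε * Real.exp (j * lam) * |(x : ℝ)|

theorem typK_of {k : ℤ} (hk : k % 2 = 1) {ε Y : ℝ} {x : ℤ} (h : Typ (G k hk) lam ε Y x) :
    TypK k ε Y x := by
  intro j hj
  have h1 := h j (by rw [G_d]; exact_mod_cast hj)
  rw [G_T] at h1
  exact h1

theorem exists_quot {k : ℤ} (hk : k % 2 = 1) (N : ℕ) (x : ℤ) :
    ∃ z : ℤ, z = z % 2 ^ N ∧ ((2 : ℤ) ^ N) ∣ k * z - x := by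
  have hc : IsCoprime k ((2 : ℤ) ^ N) := by
    apply IsCoprime.pow_right
    refine ⟨1, -(k / 2), ?_⟩
    have := Int.emod_add_mul_ediv k 2
    linarith
  obtain ⟨u, v, huv⟩ := hc
  refine ⟨(u * x) % 2 ^ N, (Int.emod_emod_of_dvd _ dvd_rfl).symm, ?_⟩
  have h1 : ((2 : ℤ) ^ N) ∣ (u * x) % 2 ^ N - u * x := by
    have := Int.mod_modEq (u * x) (2 ^ N)
    exact (this.symm.dvd)
  have h2 := h1.mul_left k
  have h3 : ((2 : ℤ) ^ N) ∣ k * (u * x) - x := by
    refine ⟨-(v * x), ?_⟩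
    have : u * k = 1 - v * 2 ^ N := by linarith
    calc k * (u * x) - x = (u * k) * x - x := by ring
      _ = (1 - v * 2 ^ N) * x - x := by rw [this]
      _ = 2 ^ N * -(v * x) := by ring
  have h4 := dvd_add h2 h3
  have e : k * ((u * x) % 2 ^ N - u * x) + (k * (u * x) - x) = k * ((u * x) % 2 ^ N) - x := by ring
  rwa [e] at h4

/-- The main count. -/
theorem main {f g : ℤ[X]} (hg : g ≠ 0) (hdeg : g.natDegree < f.natDegree) {ε : ℝ} (hε : 0 < ε) :
    ∃ δ K : ℝ, 0 < δ ∧ δ < 1 ∧ 0 < K ∧ ∀ (X : ℤ) (Y : ℝ), 1 ≤ Y →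
      ∀ A : Finset ℤ, A ⊆ Ioc X (X + ⌊Y⌋₊) →
        (∀ n ∈ A, g.eval n % 2 = 1 ∧ ¬ TypK (g.eval n) ε Y (f.eval n)) →
          (A.card : ℝ) ≤ K * Y ^ (1 - δ) := by
  classical
  have hκ0 := kap_pos
  have hκ1 := kap_lt
  have hl2 : 0 < Real.log 2 := Real.log_pos (by norm_num)
  obtain ⟨D', hD'⟩ : ∃ m, f.natDegree - g.natDegree = m := ⟨_, rfl⟩
  set D : ℝ := (D' : ℝ) with hD
  have hD1 : 1 ≤ D := by
    have : 1 ≤ D' := by omega
    rw [hD]; exact_mod_cast this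
  have hDp : 0 < D := by linarith
  set w : ℤ[X] := Wr f g with hw
  have hw0 : w ≠ 0 := Wr_ne hg hdeg
  obtain ⟨m, hm⟩ : ∃ m, w.natDegree = m := ⟨_, rfl⟩
  set a : ℕ := w.leadingCoeff.natAbs with ha
  have ha1 : |w.leadingCoeff| < 2 ^ a := by
    rw [Int.abs_eq_natAbs, ← ha]
    exact_mod_cast Nat.lt_two_pow_self
  obtain ⟨C3, hC3, hfew⟩ := few_ratio hdeg
  rw [hD', ← hD] at hfew
  set M : ℕ := (m + 1) * (m + 1) with hM
  have hM1 : 1 ≤ M := Nat.one_le_iff_ne_zero.2 (by positivity)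
  have hM1r : (1 : ℝ) ≤ M := by exact_mod_cast hM1
  have hMp : (0 : ℝ) < M := by linarith
  set ε1 : ℝ := min ε ((D - kap) / 4) with hε1
  have hε10 : 0 < ε1 := lt_min hε (by linarith)
  have hε1ε : ε1 ≤ ε := min_le_left _ _
  have hε1β : ε1 ≤ (D - kap) / 4 := min_le_right _ _
  obtain ⟨c, K2, hc, hK2, hclass⟩ := card_classes (Leigh.gm_fac (dat 1 (by norm_num)))
    (Leigh.gm_cls (dat 1 (by norm_num)) (Mo.cls le_rfl)) (η := ε1 / 4 * Real.log 2) (by positivity)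
  set θ : ℝ := min 1 (c / (4 * Real.log 2)) with hθ
  have hθ0 : 0 < θ := lt_min one_pos (by positivity)
  have hθ1 : θ ≤ 1 := min_le_left _ _
  have hθc : 2 * θ * Real.log 2 ≤ c / 2 := by
    have h1 : θ ≤ c / (4 * Real.log 2) := min_le_right _ _
    have h2 := mul_le_mul_of_nonneg_right h1 hl2.le
    have e1 : c / (4 * Real.log 2) * Real.log 2 = c / 4 := by field_simp
    rw [e1] at h2
    linarith
  obtain ⟨δ1, K1, hδ10, hδ11, hK1, hconv1⟩ := conv 2 le_rfl (c := θ * Real.log 2 / M) (by positivity)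
  obtain ⟨δ2, K3, hδ20, hδ21, hK3, hconv2⟩ := conv 2 le_rfl (c := c / 2) (by positivity)
  obtain ⟨Y0, hY01, hlarge⟩ := large 2 le_rfl hθ0 (show 0 < ε1 / 4 by positivity)
    (show 0 < (D - kap) / 2 by linarith) (R := 1) zero_le_one ((a : ℝ) + 1)
  set δ : ℝ := min (min δ1 δ2) (ε1 / D) with hδ
  have hδ0 : 0 < δ := lt_min (lt_min hδ10 hδ20) (by positivity)
  have hδa : δ ≤ δ1 := (min_le_left _ _).trans (min_le_left _ _)
  have hδb : δ ≤ δ2 := (min_le_left _ _).trans (min_le_right _ _)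
  have hδc : δ ≤ ε1 / D := min_le_right _ _
  have hδ1 : δ < 1 := lt_of_le_of_lt hδa hδ11
  refine ⟨δ, m * (2 ^ (a + 2) * K1 + 1) + K2 * 3 * K3 + C3 + Y0, hδ0, hδ1, by positivity, ?_⟩
  intro X Y hY A hA hbad
  have hYp : 0 < Y := by linarith
  have hY1δ : 1 ≤ Y ^ (1 - δ) := Real.one_le_rpow hY (by linarith)
  obtain ⟨N, hN1, hN2, hNM⟩ := scale 2 le_rfl Y hY
  have hN0 : (0 : ℝ) ≤ N := Nat.cast_nonneg _
  have hE0 : (0 : ℝ) ≤ m * (2 ^ (a + 2) * K1 + 1) + K2 * 3 * K3 + C3 := by positivity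
  rcases lt_or_ge Y Y0 with hsmall | hbig
  · have h1 : (A.card : ℝ) ≤ Y := by
      have h2 := Finset.card_le_card hA
      rw [Int.card_Ioc] at h2
      have h3 : (X + ⌊Y⌋₊ - X).toNat = ⌊Y⌋₊ := by omega
      rw [h3] at h2
      have h4 : (A.card : ℝ) ≤ ⌊Y⌋₊ := by exact_mod_cast h2
      exact h4.trans (Nat.floor_le hYp.le)
    calc (A.card : ℝ) ≤ Y := h1
      _ ≤ Y0 * 1 := by linarith
      _ ≤ Y0 * Y ^ (1 - δ) := by gcongr
      _ ≤ _ := by
          apply mul_le_mul_of_nonneg_right _ (by positivity)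
          linarith
  obtain ⟨hNa, hYε, hRN⟩ := hlarge Y hbig N hN1 hN2
  push_cast at hN1 hN2
  have ha0 : (0 : ℝ) ≤ a := Nat.cast_nonneg _
  set j0 : ℕ := ⌊θ * N⌋₊ with hj0
  have hj0a : a + 1 ≤ j0 := by
    rw [hj0]; apply Nat.le_floor; push_cast; exact hNa
  have hj0u : (j0 : ℝ) ≤ θ * N := Nat.floor_le (by positivity)
  have hj0l : θ * N < j0 + 1 := Nat.lt_floor_add_one _
  have hj0N : j0 ≤ N := by
    have h1 : (j0 : ℝ) ≤ N := by
      calc (j0 : ℝ) ≤ θ * N := hj0u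
        _ ≤ 1 * N := mul_le_mul_of_nonneg_right hθ1 hN0
        _ = N := one_mul _
    exact_mod_cast h1
  set l : ℕ := (j0 - a) / M with hl
  set Q : ℕ := ⌊Y⌋₊ with hQ
  have hQY : (Q : ℝ) ≤ Y := Nat.floor_le hYp.le
  -- the quotients
  have hquot : ∀ n : ℤ, ∃ z : ℤ, g.eval n % 2 = 1 → (z = z % 2 ^ N ∧
      ((2 : ℤ) ^ N) ∣ g.eval n * z - f.eval n) := by
    intro n
    by_cases h : g.eval n % 2 = 1
    · obtain ⟨z, hz⟩ := exists_quot h N (f.eval n)
      exact ⟨z, fun _ => hz⟩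
    · exact ⟨0, fun h' => absurd h' h⟩
  choose Z hZ using hquot
  -- the exceptional sets
  set A0 := A.filter (fun n : ℤ => ¬ ((2 : ℤ) ^ j0) ∣ w.eval n ∧
    |((g.eval n : ℤ) : ℝ)| * Y ^ (D - ε1) ≤ |((f.eval n : ℤ) : ℝ)|) with hA0
  set V := A0.image Z with hV
  set E1 := (Ioc X (X + Q)).filter (fun n : ℤ => ((2 : ℤ) ^ j0) ∣ w.eval n) with hE1
  set E3 := A.filter (fun n : ℤ => |((f.eval n : ℤ) : ℝ)| < |((g.eval n : ℤ) : ℝ)| * Y ^ (D - ε1))
    with hE3
  have hsub : A ⊆ E1 ∪ (A0 ∪ E3) := by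
    intro n hn
    rw [mem_union, mem_union]
    by_cases h3 : |((f.eval n : ℤ) : ℝ)| < |((g.eval n : ℤ) : ℝ)| * Y ^ (D - ε1)
    · right; right; rw [hE3, mem_filter]; exact ⟨hn, h3⟩
    by_cases h1 : ((2 : ℤ) ^ j0) ∣ w.eval n
    · left; rw [hE1, mem_filter]; exact ⟨hA hn, h1⟩
    · right; left
      rw [hA0, mem_filter]
      exact ⟨hn, h1, not_lt.1 h3⟩
  have hcard : A.card ≤ E1.card + (A0.card + E3.card) :=
    (Finset.card_le_card hsub).trans ((Finset.card_union_le _ _).trans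
      (Nat.add_le_add_left (Finset.card_union_le _ _) _))
  -- `E1`
  have hB1 : (E1.card : ℝ) ≤ m * (2 ^ (a + 2) * K1 + 1) * Y ^ (1 - δ) := by
    have h1 : E1.card ≤ m * (Q / 2 ^ l + 1) := by
      apply count1 hw0 hm (L := 2 ^ l) Nat.one_le_two_pow
      have h1 : l * M ≤ j0 - a := Nat.div_mul_le_self _ _
      calc (((2 ^ l : ℕ) : ℤ)) ^ ((m + 1) * (m + 1)) * |w.leadingCoeff|
          < (((2 ^ l : ℕ) : ℤ)) ^ ((m + 1) * (m + 1)) * 2 ^ a :=
            mul_lt_mul_of_pos_left ha1 (by positivity)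
        _ = (2 : ℤ) ^ (l * M + a) := by
            push_cast
            rw [← pow_mul, ← pow_add]
        _ ≤ 2 ^ j0 := pow_le_pow_right₀ (by norm_num) (by omega)
    have h2 : (E1.card : ℝ) ≤ m * (((Q / 2 ^ l : ℕ) : ℝ) + 1) := by exact_mod_cast h1
    have h3 : ((Q / 2 ^ l : ℕ) : ℝ) ≤ 2 ^ (a + 2) * K1 * Y ^ (1 - δ) := by
      have h4 : ((Q / 2 ^ l : ℕ) : ℝ) ≤ (Q : ℝ) / 2 ^ l := by
        have := Nat.cast_div_le (α := ℝ) (m := Q) (n := 2 ^ l)
        push_cast at this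
        exact this
      have h5 : (Q : ℝ) / 2 ^ l ≤ Y * Real.exp (-(l * Real.log 2)) := by
        rw [Real.exp_neg, Real.exp_nat_mul, Real.exp_log (by norm_num), div_eq_mul_inv]
        gcongr
      have h9 : j0 - a < (l + 1) * M := by
        have := Nat.lt_div_mul_add (a := j0 - a) (b := M) (by omega)
        rw [← hl] at this
        linarith [this, Nat.add_mul l 1 M]
      have h10 : (j0 : ℝ) - a < ((l : ℝ) + 1) * M := by
        have : ((j0 - a : ℕ) : ℝ) < (((l + 1) * M : ℕ) : ℝ) := by exact_mod_cast h9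
        rw [Nat.cast_sub (by omega)] at this
        push_cast at this
        exact this
      have h11 : θ * N - 1 - a < ((l : ℝ) + 1) * M := by linarith
      have h12 : (θ * N - 1 - a) / M < (l : ℝ) + 1 := by rwa [div_lt_iff₀ hMp]
      have h13 : (θ * N - 1 - a) / M = θ / M * N - (1 + a) / M := by
        field_simp; ring
      have h14 : (1 + (a : ℝ)) / M ≤ 1 + a := div_le_self (by linarith) hM1r
      have h15 : θ / M * N - (a + 2) ≤ l := by linarith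
      have h16 : Real.exp (-(l * Real.log 2)) ≤ 2 ^ (a + 2) * Real.exp (-(θ * Real.log 2 / M * N)) := by
        have e1 : (2 : ℝ) ^ (a + 2) = Real.exp (((a : ℝ) + 2) * Real.log 2) := by
          have : ((a : ℝ) + 2) = ((a + 2 : ℕ) : ℝ) := by push_cast; ring
          rw [this, Real.exp_nat_mul, Real.exp_log (by norm_num)]
        rw [e1, ← Real.exp_add]
        apply Real.exp_le_exp.2
        have h17 := mul_le_mul_of_nonneg_right h15 hl2.le
        have e2 : (θ / M * N - (a + 2)) * Real.log 2 = θ * Real.log 2 / M * N - (a + 2) * Real.log 2 := by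
          ring
        rw [e2] at h17
        linarith
      have h18 := hconv1 N Y hY (by exact_mod_cast hN2)
      have h19 : Real.exp (-(θ * Real.log 2 / M * N)) * Y ≤
          ((N : ℝ) + 1) * Real.exp (-(θ * Real.log 2 / M * N)) * Y := by
        apply mul_le_mul_of_nonneg_right _ hYp.le
        exact le_mul_of_one_le_left (Real.exp_pos _).le (by linarith)
      calc ((Q / 2 ^ l : ℕ) : ℝ) ≤ (Q : ℝ) / 2 ^ l := h4
        _ ≤ Y * Real.exp (-(l * Real.log 2)) := h5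
        _ ≤ Y * (2 ^ (a + 2) * Real.exp (-(θ * Real.log 2 / M * N))) :=
            mul_le_mul_of_nonneg_left h16 hYp.le
        _ = 2 ^ (a + 2) * (Real.exp (-(θ * Real.log 2 / M * N)) * Y) := by ring
        _ ≤ 2 ^ (a + 2) * (K1 * Y ^ (1 - δ1)) :=
            mul_le_mul_of_nonneg_left (h19.trans h18) (by positivity)
        _ ≤ 2 ^ (a + 2) * (K1 * Y ^ (1 - δ)) := by
            gcongr
        _ = 2 ^ (a + 2) * K1 * Y ^ (1 - δ) := by ring
    calc (E1.card : ℝ) ≤ m * (((Q / 2 ^ l : ℕ) : ℝ) + 1) := h2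
      _ ≤ m * (2 ^ (a + 2) * K1 * Y ^ (1 - δ) + Y ^ (1 - δ)) := by gcongr
      _ = m * (2 ^ (a + 2) * K1 + 1) * Y ^ (1 - δ) := by ring
  -- `A0`
  have hB2 : (A0.card : ℝ) ≤ K2 * 3 * K3 * Y ^ (1 - δ) := by
    have hVc : (V.card : ℝ) ≤ K2 * ((N + 1) * ((2 : ℝ) ^ N * Real.exp (-(c * N)))) := by
      have h0 := hclass N V (by
        intro v hv
        rw [hV, mem_image] at hv
        obtain ⟨n, hn, rfl⟩ := hv
        rw [hA0, mem_filter] at hn
        obtain ⟨hnA, -, hbign⟩ := hn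
        obtain ⟨hodd, hT⟩ := hbad n hnA
        obtain ⟨hz1, hz2⟩ := hZ n hodd
        refine ⟨Z n, Mo.mem_S le_rfl _, ?_, ?_⟩
        · by_contra hU
          apply hT
          apply typK_of hodd
          apply typ_ofR (G (g.eval n) hodd) (κ := kap) (D := D) hκ0.le (by
            rw [lam_eq]
            have : ((G (g.eval n) hodd).d : ℝ) = 2 := by rw [G_d]; norm_num
            rw [this]; linarith) hε10 hε1ε hε1β hY (by rw [G_d]; exact_mod_cast hN1)
            (by rw [G_d]; exact_mod_cast hN2) hYε hRN (by rw [G_R]; exact hbign)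
          intro hU'
          apply hU
          have h5 : (((G (g.eval n) hodd).d : ℕ) : ℝ) = 2 := by rw [G_d]; norm_num
          rw [h5] at hU'
          have h6 := unb_scale hodd hz2 hU'
          have h7 : mu (Leigh.gm (dat 1 (by norm_num))) (CC 2) (fun _ => 1 / ((2 : ℕ) : ℝ)) = lam :=
            mu_G
          rw [h7]
          exact h6
        · have : (((Leigh.gm (dat 1 (by norm_num))).d : ℕ) : ℤ) = 2 := rfl
          rw [this]
          exact hz1)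
      have h8 : (((Leigh.gm (dat 1 (by norm_num))).d : ℕ) : ℝ) = 2 := by
        have : (Leigh.gm (dat 1 (by norm_num))).d = 2 := rfl
        rw [this]; norm_num
      rw [h8] at h0
      exact h0
    have h1 : A0.card ≤ V.card * (2 ^ j0 * (2 ^ (j0 + 1) + 1)) := by
      apply count3 (f := f) (g := g) hj0N hNM (X := X)
      · exact (filter_subset _ _).trans hA
      · intro n hn
        rw [hA0, mem_filter] at hn
        exact hn.2.1
      · intro n hn
        rw [hA0, mem_filter] at hn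
        exact (hZ n (hbad n hn.1).1).2
    have h2 : (A0.card : ℝ) ≤ V.card * ((2 : ℝ) ^ j0 * ((2 : ℝ) ^ (j0 + 1) + 1)) := by
      exact_mod_cast h1
    have h4 : (2 : ℝ) ^ j0 * ((2 : ℝ) ^ (j0 + 1) + 1) ≤ 3 * Real.exp (c / 2 * N) := by
      have h5 : (1 : ℝ) ≤ (2 : ℝ) ^ j0 := one_le_pow₀ (by norm_num)
      have h6 : (2 : ℝ) ^ j0 * ((2 : ℝ) ^ (j0 + 1) + 1) ≤ 3 * ((2 : ℝ) ^ j0) ^ 2 := by
        rw [pow_succ (2 : ℝ) j0]
        nlinarith
      have h7 : ((2 : ℝ) ^ j0) ^ 2 = Real.exp (j0 * (2 * Real.log 2)) := by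
        have e : (j0 : ℝ) * (2 * Real.log 2) = ((j0 * 2 : ℕ) : ℝ) * Real.log 2 := by push_cast; ring
        rw [e, Real.exp_nat_mul, Real.exp_log (by norm_num), ← pow_mul]
      refine h6.trans ?_
      rw [h7]
      apply mul_le_mul_of_nonneg_left _ (by positivity)
      apply Real.exp_le_exp.2
      have h8 : (j0 : ℝ) * (2 * Real.log 2) ≤ θ * N * (2 * Real.log 2) :=
        mul_le_mul_of_nonneg_right hj0u (by positivity)
      have h9 : θ * N * (2 * Real.log 2) = 2 * θ * Real.log 2 * N := by ring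
      rw [h9] at h8
      exact h8.trans (mul_le_mul_of_nonneg_right hθc hN0)
    have h18 := hconv2 N Y hY (by exact_mod_cast hN2)
    calc (A0.card : ℝ) ≤ V.card * ((2 : ℝ) ^ j0 * ((2 : ℝ) ^ (j0 + 1) + 1)) := h2
      _ ≤ (K2 * ((N + 1) * ((2 : ℝ) ^ N * Real.exp (-(c * N))))) *
          (3 * Real.exp (c / 2 * N)) := by gcongr
      _ = K2 * 3 * (((N : ℝ) + 1) * (Real.exp (-(c * N)) * Real.exp (c / 2 * N)) *
          (2 : ℝ) ^ N) := by ring
      _ = K2 * 3 * (((N : ℝ) + 1) * Real.exp (-(c / 2 * N)) * (2 : ℝ) ^ N) := by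
          rw [← Real.exp_add]
          have : -(c * N) + c / 2 * N = -(c / 2 * N) := by ring
          rw [this]
      _ ≤ K2 * 3 * (((N : ℝ) + 1) * Real.exp (-(c / 2 * N)) * Y) := by gcongr
      _ ≤ K2 * 3 * (K3 * Y ^ (1 - δ2)) := by gcongr
      _ ≤ K2 * 3 * (K3 * Y ^ (1 - δ)) := by
          gcongr
      _ = K2 * 3 * K3 * Y ^ (1 - δ) := by ring
  -- `E3`
  have hB3 : (E3.card : ℝ) ≤ C3 * Y ^ (1 - δ) := by
    have h0 : 0 ≤ D - ε1 := by linarith
    have h1 := hfew (Y ^ (D - ε1)) (Real.one_le_rpow hY h0) E3 (by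
      intro n hn
      rw [hE3, mem_filter] at hn
      exact hn.2)
    refine h1.trans ?_
    apply mul_le_mul_of_nonneg_left _ hC3.le
    rw [← Real.rpow_mul hYp.le]
    apply Real.rpow_le_rpow_of_exponent_le hY
    have e1 : (D - ε1) * (1 / D) = 1 - ε1 / D := by field_simp
    rw [e1]
    linarith
  have hcard' : (A.card : ℝ) ≤ E1.card + (A0.card + E3.card) := by exact_mod_cast hcard
  calc (A.card : ℝ) ≤ E1.card + (A0.card + E3.card) := hcard'
    _ ≤ m * (2 ^ (a + 2) * K1 + 1) * Y ^ (1 - δ) + (K2 * 3 * K3 * Y ^ (1 - δ) +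
        C3 * Y ^ (1 - δ)) := by gcongr
    _ = (m * (2 ^ (a + 2) * K1 + 1) + K2 * 3 * K3 + C3) * Y ^ (1 - δ) := by ring
    _ ≤ (m * (2 ^ (a + 2) * K1 + 1) + K2 * 3 * K3 + C3 + Y0) * Y ^ (1 - δ) := by
        apply mul_le_mul_of_nonneg_right _ (by positivity)
        linarith

end Pool.Agent.Y927.GP.K
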