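import Pool.Agent.H319R2.LeighBridge
import Pool.Agent.Y927.GP.F
import Pool.Agent.Y927.GP.N

/-! Möller's maps: the chain, and the terms of the `H`-orbit and of the `T`-orbit. -/

set_option autoImplicit false

namespace Pool.Agent.Y927.GP.Mo

open Finset Polynomial Pool.Agent.H319R2

/-- the map `H` -/
noncomputable def H (d m : ℕ) (r : ℤ → ℤ) (x : ℤ) : ℤ :=
  (m * x - r (x % d)) / (d : ℤ) ^ multiplicity (d : ℤ) (m * x - r (x % d))

/-- the map `T` -/
def T (d m : ℕ) (r : ℤ → ℤ) (x : ℤ) : ℤ := if x % d = 0 then x / d else (m * x - r (x % d)) / d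

/-- the numerators -/
def mm (m : ℕ) (i : ℤ) : ℤ := if i = 0 then 1 else m

/-- the constant terms -/
def rr (r : ℤ → ℤ) (i : ℤ) : ℤ := if i = 0 then 0 else r i

variable {d m : ℕ} {r : ℤ → ℤ}

theorem T_eq : Leigh.T d (mm m) (rr r) = T d m r := by
  funext x
  unfold Leigh.T T mm rr
  by_cases h : x % (d : ℤ) = 0
  · rw [if_pos h, if_pos h, if_pos h]; congr 1; ring
  · rw [if_neg h, if_neg h, if_neg h]

theorem data (hd : 2 ≤ d) (hc : Nat.Coprime m d)
    (hr : ∀ j : ℤ, 1 ≤ j → j < d → (d : ℤ) ∣ m * j - r j) :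
    Leigh.Data d (mm m) (rr r) (mm m) (fun _ => 1) where
  two_le := hd
  fac := by intro i _ _; simp
  cop := by
    intro i _ _
    unfold mm
    split_ifs with h
    · exact isCoprime_one_left
    · exact (Nat.isCoprime_iff_coprime).2 hc
  pos := by intro i _ _; exact le_rfl
  dvd_pow := by intro i _ _; exact ⟨0, one_dvd _⟩
  cong := by
    intro i h0 h1
    unfold mm rr
    by_cases h : i = 0
    · subst h; simp
    · rw [if_neg h, if_neg h]
      rw [Int.modEq_iff_dvd, mul_comm i]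
      exact hr i (by omega) h1

/-- the states -/
def CC (d : ℕ) : Finset (ℤ × ℕ) := (range d).image (fun i : ℕ => ((i : ℤ), 1))

theorem mem_CC {B : ℤ × ℕ} : B ∈ CC d ↔ 0 ≤ B.1 ∧ B.1 < d ∧ B.2 = 1 := by
  unfold CC
  rw [mem_image]
  constructor
  · rintro ⟨i, hi, rfl⟩
    rw [mem_range] at hi
    exact ⟨by positivity, by simpa using hi, rfl⟩
  · rintro ⟨h1, h2, h3⟩
    refine ⟨B.1.toNat, ?_, ?_⟩
    · rw [mem_range]; omega
    · ext
      · simp [h1]
      · simp [h3]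

theorem card_CC : (CC d).card = d := by
  unfold CC
  rw [card_image_of_injective, card_range]
  intro a b h
  simpa using h

theorem P_eq {B B' : ℤ × ℕ} (hB : B ∈ CC d) (hB' : B' ∈ CC d) :
    Leigh.P d (mm m) (rr r) (fun _ => 1) B B' = 1 / d := by
  rw [mem_CC] at hB hB'
  unfold Leigh.P
  rw [if_pos]
  · rw [hB.2.2]; simp
  · rw [hB.2.2, hB'.2.2]
    refine ⟨by simp, hB'.1, by simpa using hB'.2.1, ?_⟩
    simpa using Int.modEq_one

theorem cls (hd : 2 ≤ d) : Leigh.Class d (mm m) (rr r) (fun _ => 1) (CC d) (fun _ => 1 / (d : ℝ)) where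
  state := by
    intro B hB
    rw [mem_CC] at hB
    rw [hB.2.2]
    exact ⟨hB.1, by simpa using hB.2.1, 0, one_dvd _⟩
  closed := by
    intro B hB B' h
    rw [mem_CC] at hB
    unfold Leigh.P at h
    split_ifs at h with h1
    · rw [hB.2.2] at h1
      obtain ⟨h2, h3, h4, -⟩ := h1
      simp at h2
      rw [h2] at h4
      rw [mem_CC]
      exact ⟨h3, by simpa using h4, h2⟩
    · exact absurd h (lt_irrefl _)
  comm := by
    intro B hB B' hB'
    apply Relation.ReflTransGen.single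
    rw [P_eq hB hB']
    have : (0 : ℝ) < d := by exact_mod_cast (by omega : 0 < d)
    positivity
  nonneg := by intro B _; positivity
  sum_one := by
    have : (0 : ℝ) < d := by exact_mod_cast (by omega : 0 < d)
    rw [sum_const, card_CC, nsmul_eq_mul]
    field_simp
  stat := by
    intro B' hB'
    have : (0 : ℝ) < d := by exact_mod_cast (by omega : 0 < d)
    rw [sum_congr rfl (fun B hB => by rw [P_eq hB hB']), sum_const, card_CC, nsmul_eq_mul]
    field_simp

theorem mem_S (hd : 2 ≤ d) (x : ℤ) : x ∈ Leigh.S d (CC d) := by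
  have hd0 : (0 : ℤ) < d := by exact_mod_cast (by omega : 0 < d)
  refine ⟨(x % d, 1), ?_, ?_⟩
  · rw [mem_CC]
    exact ⟨Int.emod_nonneg _ hd0.ne', Int.emod_lt_of_pos _ hd0, rfl⟩
  · simpa using (Int.mod_modEq x d).symm

/-- the mean of the logarithm -/
theorem mu_eq (hd : 2 ≤ d) (D : Leigh.Data d (mm m) (rr r) (mm m) (fun _ => 1)) :
    mu (Leigh.gm D) (CC d) (fun _ => 1 / (d : ℝ)) = ((d : ℝ) - 1) / d * Real.log m - Real.log d := by
  have hd0 : (0 : ℝ) < d := by exact_mod_cast (by omega : 0 < d)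
  unfold mu
  have h1 : ∀ B ∈ CC d, (1 / (d : ℝ)) * Real.log ((Leigh.gm D).a (B.1 % (Leigh.gm D).d)) =
      (1 / (d : ℝ)) * ((if B.1 = 0 then 0 else Real.log m) - Real.log d) := by
    intro B hB
    rw [mem_CC] at hB
    congr 1
    have h2 : (Leigh.gm D).a (B.1 % (Leigh.gm D).d) = |((mm m (B.1 % d) : ℤ) : ℝ)| / d := rfl
    rw [h2, Int.emod_eq_of_lt hB.1 hB.2.1]
    unfold mm
    split_ifs with h
    · simp
    · rcases Nat.eq_zero_or_pos m with h0 | h0
      · have h3 := D.cop B.1 hB.1 hB.2.1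
        unfold mm at h3
        rw [if_neg h, h0] at h3
        push_cast at h3
        rw [isCoprime_zero_left, Int.isUnit_iff] at h3
        omega
      · have h3 : (0 : ℝ) < m := by exact_mod_cast h0
        rw [Int.cast_natCast, abs_of_pos h3, Real.log_div h3.ne' hd0.ne']
  rw [sum_congr rfl h1, ← mul_sum, sum_sub_distrib, sum_const, card_CC, nsmul_eq_mul]
  have h2 : ∑ B ∈ CC d, (if B.1 = 0 then (0 : ℝ) else Real.log m) = (d - 1) * Real.log m := by
    unfold CC
    rw [sum_image (by intro a _ b _ h; simpa using h)]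
    obtain ⟨k, rfl⟩ : ∃ k, d = k + 1 := ⟨d - 1, by omega⟩
    rw [sum_range_succ']
    simp only [Nat.cast_zero, if_true]
    have h3 : ∀ i ∈ range k, (if (((i + 1 : ℕ) : ℤ) = 0) then (0 : ℝ) else Real.log m) = Real.log m := by
      intro i _
      rw [if_neg (by positivity)]
    rw [sum_congr rfl h3, sum_const, card_range, nsmul_eq_mul]
    push_cast; ring
  rw [h2]
  field_simp

/-- `m < d ^ (d / (d - 1))` -/
theorem m_lt (hd : 2 ≤ d) (hm : 1 ≤ m) (hc : Nat.Coprime m d)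
    (hle : (m : ℝ) ≤ (d : ℝ) ^ ((d : ℝ) / ((d : ℝ) - 1))) :
    ((d : ℝ) - 1) / d * Real.log m < Real.log d := by
  have hd1 : (1 : ℝ) < d := by exact_mod_cast (by omega : 1 < d)
  have hd0 : (0 : ℝ) < d := by linarith
  have hm0 : (0 : ℝ) < m := by exact_mod_cast (by omega : 0 < m)
  have h1 := Real.log_le_log hm0 hle
  rw [Real.log_rpow hd0] at h1
  have hd2 : (0 : ℝ) < d - 1 := by linarith
  have h2 : ((d : ℝ) - 1) * Real.log m ≤ d * Real.log d := by
    rw [div_mul_eq_mul_div, le_div_iff₀ hd2] at h1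
    linarith
  rw [div_mul_eq_mul_div, div_lt_iff₀ hd0]
  rcases lt_or_eq_of_le h2 with h3 | h3
  · linarith
  exfalso
  have h4 : Real.log ((m : ℝ) ^ (d - 1)) = Real.log ((d : ℝ) ^ d) := by
    rw [Real.log_pow, Real.log_pow]
    rw [Nat.cast_sub (by omega)]
    push_cast
    exact h3
  have h5 : (m : ℝ) ^ (d - 1) = (d : ℝ) ^ d := Real.log_injOn_pos (by positivity : (0:ℝ) < _)
    (by positivity : (0:ℝ) < _) h4
  have h6 : m ^ (d - 1) = d ^ d := by exact_mod_cast h5
  have h7 : Nat.Coprime (m ^ (d - 1)) (d ^ d) := Nat.Coprime.pow _ _ hc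
  rw [h6, Nat.coprime_self] at h7
  have : 1 < d ^ d := Nat.one_lt_pow (by omega) (by omega)
  omega

lemma mod_range (hd : 2 ≤ d) {y : ℤ} (hy : ¬ (d : ℤ) ∣ y) : 1 ≤ y % d ∧ y % d < d := by
  have hd0 : (0 : ℤ) < d := by exact_mod_cast (by omega : 0 < d)
  have h1 := Int.emod_nonneg y hd0.ne'
  have h2 := Int.emod_lt_of_pos y hd0
  have h3 : y % d ≠ 0 := fun h => hy (Int.dvd_of_emod_eq_zero h)
  omega

lemma H_spec (hd : 2 ≤ d) (hr : ∀ j : ℤ, 1 ≤ j → j < d → (d : ℤ) ∣ m * j - r j) {y : ℤ}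
    (hy : ¬ (d : ℤ) ∣ y) (hpos : r (y % d) < m * y) :
    ¬ (d : ℤ) ∣ H d m r y ∧ ∃ v : ℕ, m * y - r (y % d) = (d : ℤ) ^ (v + 1) * H d m r y := by
  set z := m * y - r (y % d) with hz
  have hz0 : z ≠ 0 := by omega
  obtain ⟨h1, h2⟩ := mod_range hd hy
  have hdz : (d : ℤ) ∣ z := by
    have h3 := hr (y % d) h1 h2
    have h4 : (d : ℤ) ∣ m * (y - y % d) := Dvd.dvd.mul_left (Int.dvd_self_sub_emod) _
    have h5 := dvd_add h3 h4
    have h6 : (m : ℤ) * (y % d) - r (y % d) + m * (y - y % d) = z := by rw [hz]; ring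
    rwa [h6] at h5
  have hf : FiniteMultiplicity (d : ℤ) z := by
    rw [Int.finiteMultiplicity_iff]
    exact ⟨by simp; omega, hz0⟩
  have hv : 1 ≤ multiplicity (d : ℤ) z := by
    rw [← hf.pow_dvd_iff_le_multiplicity]
    simpa using hdz
  obtain ⟨v, hv'⟩ : ∃ v, multiplicity (d : ℤ) z = v + 1 := ⟨multiplicity (d : ℤ) z - 1, by omega⟩
  have hdvd : (d : ℤ) ^ (v + 1) ∣ z := by rw [← hv']; exact pow_multiplicity_dvd _ _
  have hH : H d m r y = z / (d : ℤ) ^ (v + 1) := by unfold H; rw [← hz, hv']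
  have hzH : z = (d : ℤ) ^ (v + 1) * H d m r y := by rw [hH, Int.mul_ediv_cancel' hdvd]
  refine ⟨fun h => ?_, v, hzH⟩
  have h7 : (d : ℤ) ^ (v + 1 + 1) ∣ z := by
    rw [hzH, pow_succ (d : ℤ) (v + 1)]
    exact mul_dvd_mul_left _ h
  have h8 := hf.pow_dvd_iff_le_multiplicity.1 h7
  omega

/-- `H^k y` is a term of the `H`-orbit of `y` -/
def Def (d m : ℕ) (r : ℤ → ℤ) (y : ℤ) (k : ℕ) : Prop :=
  ∀ i < k, r ((H d m r)^[i] y % d) < m * (H d m r)^[i] y

/-- The `T`-orbit and the `H`-orbit. -/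
theorem key (hd : 2 ≤ d) (hm : 1 ≤ m) (hr : ∀ j : ℤ, 1 ≤ j → j < d → (d : ℤ) ∣ m * j - r j)
    {ρ : ℤ} (hρ : ∀ j : ℤ, 1 ≤ j → j < d → r j ≤ ρ) {y : ℤ} (hy : 0 < y) (hyd : ¬ (d : ℤ) ∣ y) (t : ℕ) :
    ∃ k : ℕ, Def d m r y k ∧ 0 < (H d m r)^[k] y ∧
      ((∃ s : ℕ, (T d m r)^[t] y = (d : ℤ) ^ s * (H d m r)^[k] y ∧ ¬ (d : ℤ) ∣ (H d m r)^[k] y) ∨
        (H d m r)^[k] y ≤ ρ) := by
  have hd0 : (0 : ℤ) < d := by exact_mod_cast (by omega : 0 < d)
  have hm1 : (1 : ℤ) ≤ m := by exact_mod_cast hm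
  induction t with
  | zero => exact ⟨0, fun i hi => by omega, by simpa using hy, Or.inl ⟨0, by simp, by simpa using hyd⟩⟩
  | succ t ih =>
    obtain ⟨k, h1, h0, h2 | h2⟩ := ih
    swap
    · exact ⟨k, h1, h0, Or.inr h2⟩
    obtain ⟨s, h2, h3⟩ := h2
    rcases Nat.eq_zero_or_pos s with hs | hs
    · subst hs
      set z := (H d m r)^[k] y with hz
      obtain ⟨g1, g2⟩ := mod_range hd h3
      by_cases hpos : r (z % d) < m * z
      · obtain ⟨k1, v, k2⟩ := H_spec hd hr h3 hpos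
        refine ⟨k + 1, ?_, ?_, Or.inl ⟨v, ?_, ?_⟩⟩
        · intro i hi
          rcases Nat.lt_or_ge i k with h4 | h4
          · exact h1 i h4
          · have : i = k := by omega
            subst this
            exact hpos
        · rw [Function.iterate_succ_apply', ← hz]
          have h4 : 0 < (d : ℤ) ^ (v + 1) * H d m r z := by rw [← k2]; omega
          exact (mul_pos_iff_of_pos_left (show (0 : ℤ) < (d : ℤ) ^ (v + 1) by positivity)).1 h4
        · rw [Function.iterate_succ_apply', h2, pow_zero, one_mul, Function.iterate_succ_apply',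
            ← hz]
          have h5 : T d m r z = (m * z - r (z % d)) / d := by
            unfold T
            rw [if_neg (by omega)]
          rw [h5, k2, pow_succ]
          have h6 : (d : ℤ) ^ v * d * H d m r z = d * ((d : ℤ) ^ v * H d m r z) := by ring
          rw [h6, Int.mul_ediv_cancel_left _ hd0.ne']
        · rw [Function.iterate_succ_apply', ← hz]; exact k1
      · refine ⟨k, h1, h0, Or.inr ?_⟩
        rw [← hz]
        have := hρ _ g1 g2
        push Not at hpos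
        nlinarith
    · obtain ⟨s', rfl⟩ : ∃ s', s = s' + 1 := ⟨s - 1, by omega⟩
      refine ⟨k, h1, h0, Or.inl ⟨s', ?_, h3⟩⟩
      rw [Function.iterate_succ_apply', h2]
      have h6 : (d : ℤ) ^ (s' + 1) * (H d m r)^[k] y = d * ((d : ℤ) ^ s' * (H d m r)^[k] y) := by
        ring
      unfold T
      rw [h6, if_pos (Int.mul_emod_right _ _), Int.mul_ediv_cancel_left _ hd0.ne']

end Pool.Agent.Y927.GP.Mo
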