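import Pool.Agent.Y927.GP.M

/-! Möller's maps: the values of a polynomial in the exceptional set. -/

set_option autoImplicit false

namespace Pool.Agent.Y927.GP.Mo

open Finset Polynomial Pool.Agent.H319R2

variable {d m : ℕ} {r : ℤ → ℤ}

/-- the exceptional set -/
def E (d m : ℕ) (r : ℤ → ℤ) : Set ℤ :=
  {n | 0 < n ∧ ¬ (d : ℤ) ∣ n ∧ ∀ k, 1 ≤ k → Def d m r n k → n ≤ (H d m r)^[k] n}

/-- `1 - (d - 1) / d * log m / log d` -/
noncomputable def kap (d m : ℕ) : ℝ := 1 - ((d : ℝ) - 1) / d * (Real.log m / Real.log d)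

/-- a bound for the constants -/
def bd (d : ℕ) (r : ℤ → ℤ) : ℕ := ∑ j ∈ Finset.range d, (r j).natAbs

theorem le_bd : ∀ j : ℤ, 1 ≤ j → j < d → r j ≤ (bd d r : ℤ) := by
  intro hj h1 h2
  obtain ⟨j, rfl⟩ : ∃ j : ℕ, hj = j := ⟨hj.toNat, by omega⟩
  have h3 : (r j).natAbs ≤ bd d r :=
    Finset.single_le_sum (f := fun j : ℕ => (r (j : ℤ)).natAbs) (fun _ _ => Nat.zero_le _)
      (Finset.mem_range.2 (by omega))
  have h4 : r j ≤ ((r j).natAbs : ℤ) := Int.le_natAbs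
  have h5 : ((r j).natAbs : ℤ) ≤ (bd d r : ℤ) := by exact_mod_cast h3
  linarith

theorem kap_bounds (hd : 2 ≤ d) (hm : 2 ≤ m) (hc : Nat.Coprime m d)
    (hle : (m : ℝ) ≤ (d : ℝ) ^ ((d : ℝ) / ((d : ℝ) - 1))) : 0 < kap d m ∧ kap d m < 1 := by
  have hd1 : (1 : ℝ) < d := by exact_mod_cast (by omega : 1 < d)
  have hd0 : (0 : ℝ) < d := by linarith
  have hm1 : (1 : ℝ) < m := by exact_mod_cast (by omega : 1 < m)
  have hL : 0 < Real.log d := Real.log_pos hd1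
  have hLm : 0 < Real.log m := Real.log_pos hm1
  have h1 := m_lt hd (by omega) hc hle
  unfold kap
  have hd2 : (0 : ℝ) < d - 1 := by linarith
  constructor
  · have : ((d : ℝ) - 1) / d * (Real.log m / Real.log d) < 1 := by
      rw [← mul_div_assoc, div_lt_one hL]; exact h1
    linarith
  · have : 0 < ((d : ℝ) - 1) / d * (Real.log m / Real.log d) := by positivity
    linarith

theorem mu_kap (hd : 2 ≤ d) (D : Leigh.Data d (mm m) (rr r) (mm m) (fun _ => 1)) :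
    mu (Leigh.gm D) (CC d) (fun _ => 1 / (d : ℝ)) = -kap d m * Real.log (Leigh.gm D).d := by
  have hd1 : (1 : ℝ) < d := by exact_mod_cast (by omega : 1 < d)
  have hL : 0 < Real.log d := Real.log_pos hd1
  rw [mu_eq hd D]
  have : ((Leigh.gm D).d : ℝ) = d := rfl
  rw [this]
  unfold kap
  have e1 : -(1 - ((d : ℝ) - 1) / d * (Real.log m / Real.log d)) * Real.log d =
      ((d : ℝ) - 1) / d * (Real.log m / Real.log d * Real.log d) - Real.log d := by ring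
  rw [e1, div_mul_cancel₀ _ hL.ne']

theorem exc_main (hd : 2 ≤ d) (hm : 2 ≤ m) (hc : Nat.Coprime m d)
    (hle : (m : ℝ) ≤ (d : ℝ) ^ ((d : ℝ) / ((d : ℝ) - 1)))
    (hr : ∀ j : ℤ, 1 ≤ j → j < d → (d : ℤ) ∣ m * j - r j) {f : ℤ[X]} (hdeg : 1 ≤ f.natDegree) :
    ∃ δ K : ℝ, 0 < δ ∧ 0 < K ∧ ∀ (X : ℤ) (Y : ℝ), 1 ≤ Y → ∀ A : Finset ℤ,
      A ⊆ Ioc X (X + ⌊Y⌋₊) → (∀ n ∈ A, f.eval n ∈ E d m r) → (A.card : ℝ) ≤ K * Y ^ (1 - δ) := by
  classical
  have D := data (r := r) hd hc hr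
  have hC := cls (m := m) (r := r) hd
  obtain ⟨hκ0, hκ1⟩ := kap_bounds hd hm hc hle
  have hmu := mu_kap hd D
  set κ := kap d m with hκ
  have hd1 : (1 : ℝ) < d := by exact_mod_cast (by omega : 1 < d)
  have hd0 : (0 : ℝ) < d := by linarith
  have hdeg1 : (1 : ℝ) ≤ f.natDegree := by exact_mod_cast hdeg
  obtain ⟨δ, K, hδ0, hδ1, hK, hmain⟩ := main (Leigh.gm_fac D) (Leigh.gm_cls D hC) hdeg hκ0.le
    (by rw [hmu]; linarith) (by linarith) (ε := κ / 2) (by positivity)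
  obtain ⟨C3, hC3, hfew⟩ := few_small hdeg
  set ρ : ℤ := (bd d r : ℤ) with hρ
  have hρ0 : (0 : ℝ) ≤ (bd d r : ℝ) := Nat.cast_nonneg _
  set Z : ℝ := (bd d r : ℝ) + 1 with hZ
  have hZ1 : 1 ≤ Z := by linarith
  refine ⟨δ, K + C3 * Z ^ (1 / (f.natDegree : ℝ)) + (d : ℝ) ^ 2, hδ0, by positivity, ?_⟩
  intro X Y hY A hA hE
  have hYp : 0 < Y := by linarith
  have hY1 : 1 ≤ Y ^ (1 - δ) := Real.one_le_rpow hY (by linarith)
  rcases le_or_gt Y ((d : ℝ) ^ 2) with hsmall | hbig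
  · have h1 : (A.card : ℝ) ≤ Y := by
      have h2 := Finset.card_le_card hA
      rw [Int.card_Ioc] at h2
      have h3 : (X + ⌊Y⌋₊ - X).toNat = ⌊Y⌋₊ := by omega
      rw [h3] at h2
      have h4 : (A.card : ℝ) ≤ ⌊Y⌋₊ := by exact_mod_cast h2
      exact h4.trans (Nat.floor_le hYp.le)
    calc (A.card : ℝ) ≤ (d : ℝ) ^ 2 * 1 := by linarith
      _ ≤ (d : ℝ) ^ 2 * Y ^ (1 - δ) := by gcongr
      _ ≤ _ := by
          apply mul_le_mul_of_nonneg_right _ (by positivity)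
          have : 0 < C3 * Z ^ (1 / (f.natDegree : ℝ)) := by positivity
          linarith
  set A1 := A.filter (fun n : ℤ => |((f.eval n : ℤ) : ℝ)| < Z) with hA1
  set A2 := A.filter (fun n : ℤ => ¬ |((f.eval n : ℤ) : ℝ)| < Z) with hA2
  have h1 : (A1.card : ℝ) ≤ C3 * Z ^ (1 / (f.natDegree : ℝ)) := hfew Z hZ1 A1 (by
    intro n hn
    rw [hA1, mem_filter] at hn
    exact hn.2)
  have h2 : (A2.card : ℝ) ≤ K * Y ^ (1 - δ) := by
    apply hmain X Y hY A2 ((filter_subset _ _).trans hA)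
    intro n hn
    rw [hA2, mem_filter] at hn
    obtain ⟨hnA, hnZ⟩ := hn
    push Not at hnZ
    refine ⟨mem_S hd _, fun htyp => ?_⟩
    obtain ⟨hy0, hyd, hEy⟩ := hE n hnA
    set y := f.eval n with hy
    obtain ⟨N, hN1, hN2, -⟩ := scale d hd Y hY
    have h3 := (htyp N hN1).2
    have hyr : (0 : ℝ) < (y : ℝ) := by exact_mod_cast hy0
    rw [abs_of_pos hyr] at h3 hnZ
    -- the term of the `T`-orbit is smaller
    have h4 : |(((Leigh.gm D).T^[N] y : ℤ) : ℝ)| < y := by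
      refine lt_of_le_of_lt h3 ?_
      rw [exp_pow hd hmu]
      have h6 : Y / d ≤ (d : ℝ) ^ N := by
        rw [div_le_iff₀ hd0]
        rw [pow_succ] at hN2; exact hN2.le
      have h7 : ((d : ℝ) ^ N) ^ (-κ) ≤ (d : ℝ) ^ κ * Y ^ (-κ) := by
        calc ((d : ℝ) ^ N) ^ (-κ) ≤ (Y / d) ^ (-κ) :=
              Real.rpow_le_rpow_of_nonpos (by positivity) h6 (by linarith)
          _ = (d : ℝ) ^ κ * Y ^ (-κ) := by
              rw [Real.div_rpow hYp.le hd0.le, Real.rpow_neg hd0.le κ, div_inv_eq_mul, mul_comm]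
      have h8 : (d : ℝ) ^ κ < Y ^ (κ / 2) := by
        calc (d : ℝ) ^ κ = ((d : ℝ) ^ 2) ^ (κ / 2) := by
              rw [← Real.rpow_natCast, ← Real.rpow_mul hd0.le]
              congr 1; push_cast; ring
          _ < Y ^ (κ / 2) := Real.rpow_lt_rpow (by positivity) hbig (by positivity)
      have h9 : Y ^ (κ / 2) * ((d : ℝ) ^ κ * Y ^ (-κ)) < 1 := by
        calc Y ^ (κ / 2) * ((d : ℝ) ^ κ * Y ^ (-κ)) < Y ^ (κ / 2) * (Y ^ (κ / 2) * Y ^ (-κ)) := by
              gcongr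
          _ = 1 := by
              rw [← Real.rpow_add hYp, ← Real.rpow_add hYp]
              have : κ / 2 + (κ / 2 + -κ) = 0 := by ring
              rw [this, Real.rpow_zero]
      calc Y ^ (κ / 2) * ((d : ℝ) ^ N) ^ (-κ) * y ≤ Y ^ (κ / 2) * ((d : ℝ) ^ κ * Y ^ (-κ)) * y := by
            gcongr
        _ < 1 * y := mul_lt_mul_of_pos_right h9 hyr
        _ = y := one_mul _
    have hTT : (Leigh.gm D).T = T d m r := by rw [Leigh.gm_T, T_eq]
    rw [hTT] at h4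
    obtain ⟨k, hk1, hk2, hk3⟩ := key hd (by omega) hr (le_bd (d := d) (r := r)) hy0 hyd N
    have h5 : (H d m r)^[k] y < y := by
      rcases hk3 with ⟨s, hs, -⟩ | hk3
      · have h6 : (H d m r)^[k] y ≤ (T d m r)^[N] y := by
          rw [hs]
          have : (1 : ℤ) ≤ (d : ℤ) ^ s := one_le_pow₀ (by omega)
          nlinarith
        have h7 : (((T d m r)^[N] y : ℤ) : ℝ) < y := lt_of_le_of_lt (le_abs_self _) h4
        have h8 : (T d m r)^[N] y < y := by exact_mod_cast h7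
        omega
      · have h6 : ((bd d r : ℤ) : ℝ) < (y : ℝ) := by
          rw [Int.cast_natCast]; linarith
        have h7 : (bd d r : ℤ) < y := by exact_mod_cast h6
        omega
    rcases Nat.eq_zero_or_pos k with h0 | h0
    · subst h0
      simp at h5
    · have := hEy k h0 hk1
      omega
  have h3 : A1.card + A2.card = A.card := Finset.card_filter_add_card_filter_not _
  have h4 : (A.card : ℝ) = A1.card + A2.card := by rw [← h3]; push_cast; rfl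
  rw [h4]
  have h5 : 0 < C3 * Z ^ (1 / (f.natDegree : ℝ)) := by positivity
  calc (A1.card : ℝ) + A2.card ≤ C3 * Z ^ (1 / (f.natDegree : ℝ)) * Y ^ (1 - δ) + K * Y ^ (1 - δ) := by
        apply add_le_add _ h2
        refine h1.trans ?_
        exact le_mul_of_one_le_right h5.le hY1
    _ ≤ (K + C3 * Z ^ (1 / (f.natDegree : ℝ)) + (d : ℝ) ^ 2) * Y ^ (1 - δ) := by
        have : 0 ≤ (d : ℝ) ^ 2 * Y ^ (1 - δ) := by positivity
        nlinarith

theorem desc_main (hd : 2 ≤ d) (hm : 2 ≤ m) (hc : Nat.Coprime m d)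
    (hle : (m : ℝ) ≤ (d : ℝ) ^ ((d : ℝ) / ((d : ℝ) - 1)))
    (hr : ∀ j : ℤ, 1 ≤ j → j < d → (d : ℤ) ∣ m * j - r j) {f : ℤ[X]} (hdeg : 1 ≤ f.natDegree)
    {ε : ℝ} (hε : 0 < ε) :
    ∃ δ K : ℝ, 0 < δ ∧ 0 < K ∧ ∀ X : ℝ, 1 ≤ X → ∀ A : Finset ℤ,
      (∀ n ∈ A, |(n : ℝ)| ≤ X ∧ 0 < f.eval n ∧ ¬ (d : ℤ) ∣ f.eval n ∧ ∀ k : ℕ,
        Def d m r (f.eval n) k → 0 < (H d m r)^[k] (f.eval n) →
          ((f.eval n : ℤ) : ℝ) ^ (1 - kap d m / f.natDegree + ε) <
            (((H d m r)^[k] (f.eval n) : ℤ) : ℝ)) → (A.card : ℝ) ≤ K * X ^ (1 - δ) := by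
  classical
  have D := data (r := r) hd hc hr
  have hC := cls (m := m) (r := r) hd
  obtain ⟨hκ0, hκ1⟩ := kap_bounds hd hm hc hle
  have hmu := mu_kap hd D
  set κ := kap d m with hκ
  have hdeg1 : (1 : ℝ) ≤ f.natDegree := by exact_mod_cast hdeg
  have hdegp : (0 : ℝ) < f.natDegree := by linarith
  obtain ⟨δ, K, hδ0, hδ1, hK, hmain⟩ := low_main (Leigh.gm_fac D) (Leigh.gm_cls D hC) hdeg hκ0
    hmu (by linarith) hε
  obtain ⟨C3, hC3, hfew⟩ := few_small hdeg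
  set s : ℝ := 1 - κ / f.natDegree + ε with hs
  have hs0 : 0 < s := by
    have : κ / f.natDegree ≤ 1 := by
      rw [div_le_one hdegp]; linarith
    linarith
  have hρ0 : (0 : ℝ) ≤ (bd d r : ℝ) := Nat.cast_nonneg _
  set Z : ℝ := ((bd d r : ℝ) + 1) ^ (1 / s) with hZ
  have hZ1 : 1 ≤ Z := Real.one_le_rpow (by linarith) (by positivity)
  refine ⟨δ, K + C3 * Z ^ (1 / (f.natDegree : ℝ)), hδ0, by positivity, ?_⟩
  intro X hX A hA
  have hX1 : 1 ≤ X ^ (1 - δ) := Real.one_le_rpow hX (by linarith)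
  set A1 := A.filter (fun n : ℤ => |((f.eval n : ℤ) : ℝ)| < Z) with hA1
  set A2 := A.filter (fun n : ℤ => ¬ |((f.eval n : ℤ) : ℝ)| < Z) with hA2
  have h1 : (A1.card : ℝ) ≤ C3 * Z ^ (1 / (f.natDegree : ℝ)) := hfew Z hZ1 A1 (by
    intro n hn
    rw [hA1, mem_filter] at hn
    exact hn.2)
  have h2 : (A2.card : ℝ) ≤ K * X ^ (1 - δ) := by
    apply hmain X hX A2
    intro n hn
    rw [hA2, mem_filter] at hn
    obtain ⟨hnA, hnZ⟩ := hn
    push Not at hnZ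
    obtain ⟨hnX, hy0, hyd, hno⟩ := hA n hnA
    refine ⟨hnX, mem_S hd _, fun t => ?_⟩
    set y := f.eval n with hy
    have hyr : (0 : ℝ) < (y : ℝ) := by exact_mod_cast hy0
    rw [abs_of_pos hyr] at hnZ ⊢
    have hTT : (Leigh.gm D).T = T d m r := by rw [Leigh.gm_T, T_eq]
    rw [hTT]
    obtain ⟨k, hk1, hk2, hk3⟩ := key hd (by omega) hr (le_bd (d := d) (r := r)) hy0 hyd t
    have h5 := hno k hk1 hk2
    rcases hk3 with ⟨v, hv, -⟩ | hk3
    · have h6 : (H d m r)^[k] y ≤ (T d m r)^[t] y := by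
        rw [hv]
        have : (1 : ℤ) ≤ (d : ℤ) ^ v := one_le_pow₀ (by omega)
        nlinarith
      have h7 : (((H d m r)^[k] y : ℤ) : ℝ) ≤ (((T d m r)^[t] y : ℤ) : ℝ) := by exact_mod_cast h6
      have h8 := le_abs_self (((T d m r)^[t] y : ℤ) : ℝ)
      linarith
    · exfalso
      have h6 : (((H d m r)^[k] y : ℤ) : ℝ) ≤ ((bd d r : ℤ) : ℝ) := by exact_mod_cast hk3
      rw [Int.cast_natCast] at h6
      have h7 : (bd d r : ℝ) + 1 ≤ (y : ℝ) ^ s := by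
        calc (bd d r : ℝ) + 1 = Z ^ s := by
              rw [hZ, ← Real.rpow_mul (by linarith)]
              have : 1 / s * s = 1 := by field_simp
              rw [this, Real.rpow_one]
          _ ≤ (y : ℝ) ^ s := Real.rpow_le_rpow (by linarith) hnZ hs0.le
      linarith
  have h3 : A1.card + A2.card = A.card := Finset.card_filter_add_card_filter_not _
  have h4 : (A.card : ℝ) = A1.card + A2.card := by rw [← h3]; push_cast; rfl
  rw [h4]
  calc (A1.card : ℝ) + A2.card ≤ C3 * Z ^ (1 / (f.natDegree : ℝ)) * X ^ (1 - δ) + K * X ^ (1 - δ) := by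
        apply add_le_add _ h2
        refine h1.trans ?_
        exact le_mul_of_one_le_right (by positivity) hX1
    _ = (K + C3 * Z ^ (1 / (f.natDegree : ℝ))) * X ^ (1 - δ) := by ring

end Pool.Agent.Y927.GP.Mo
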